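import Pool.Agent.Work.MP_f6b738_gt.Final

/-!
The counterexample of `Final.lean` stated positively: two convex bodies in `E^4` whose hyperplane
projections have Steiner polynomials with the same coefficient of `t^2`, while the projections
onto a plane have Steiner polynomials with different coefficients of `t^2`.
-/

set_option autoImplicit false
open MeasureTheory Pointwise Set Metric MvPolynomial
open scoped RealInnerProductSpace

set_option linter.unusedSectionVars false
set_option maxHeartbeats 4000000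

namespace Pool.MP_f6b738_gt.IV

theorem positive_counterexample :
    ∃ K₁ K₂ : Set E4,
      (IsCompact K₁ ∧ Convex ℝ K₁ ∧ (interior K₁).Nonempty) ∧
      (IsCompact K₂ ∧ Convex ℝ K₂ ∧ (interior K₂).Nonempty) ∧
      (∀ u ∈ Metric.sphere (0 : E4) 1, ∃ b b' : ℕ → ℝ,
        (∀ ε : ℝ, 0 ≤ ε → (volume (((Submodule.orthogonal (Submodule.span ℝ {u})).starProjection
          '' K₁) + Metric.closedBall (0 : E4) ε)).toReal =
            ∑ k ∈ Finset.range 4, b k * ε ^ (k + 1)) ∧
        (∀ ε : ℝ, 0 ≤ ε → (volume (((Submodule.orthogonal (Submodule.span ℝ {u})).starProjection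
          '' K₂) + Metric.closedBall (0 : E4) ε)).toReal =
            ∑ k ∈ Finset.range 4, b' k * ε ^ (k + 1)) ∧
        b 1 = b' 1) ∧
      ∃ S : Submodule ℝ E4, Module.finrank ℝ S = 2 ∧ ∃ b b' : ℕ → ℝ,
        (∀ ε : ℝ, 0 ≤ ε → (volume ((S.starProjection '' K₁) +
          Metric.closedBall (0 : E4) ε)).toReal = ∑ k ∈ Finset.range 3, b k * ε ^ (k + 2)) ∧
        (∀ ε : ℝ, 0 ≤ ε → (volume ((S.starProjection '' K₂) +
          Metric.closedBall (0 : E4) ε)).toReal = ∑ k ∈ Finset.range 3, b' k * ε ^ (k + 2)) ∧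
        b 0 < b' 0 := by
  obtain ⟨Cp, PP⟩ := Piece.ofMv (j := 1) Pp_hom
  obtain ⟨Cq, PQ⟩ := Piece.ofMv (j := 4) Pq_hom
  obtain ⟨c, hc⟩ : ∃ c : ℝ, c = |Cp| + |Cq| + 1 := ⟨_, rfl⟩
  have hc1 : 1 ≤ c := by
    have := abs_nonneg Cp
    have := abs_nonneg Cq
    linarith
  have hc0 : 0 < c := by linarith
  obtain ⟨β, hβ⟩ : ∃ β : ℝ, β = 1 / (300 * c) := ⟨_, rfl⟩
  have hβ0 : 0 < β := by rw [hβ]; positivity
  have hβ1 : β ≤ 1 := by
    rw [hβ, div_le_one (by positivity)]
    linarith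
  have hcβ : 300 * c * β = 1 := by
    rw [hβ]; field_simp
  have P1 := PP.add (PQ.smul β)
  have P2 := PQ.smul (-β)
  have hC1 : Cp + |β| * Cq < c := by
    rw [abs_of_pos hβ0]
    have h1 := le_abs_self Cp
    have h2 := le_abs_self Cq
    have h3 := abs_nonneg Cq
    have h4 : β * Cq ≤ |Cq| := by nlinarith
    linarith
  have hC2 : |(-β)| * Cq < c := by
    rw [abs_neg, abs_of_pos hβ0]
    have h1 := abs_nonneg Cp
    have h2 := le_abs_self Cq
    have h3 := abs_nonneg Cq
    have h4 : β * Cq ≤ |Cq| := by nlinarith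
    linarith
  have S1 := P1.supp hC1 hc0
  have S2 := P2.supp hC2 hc0
  set F1 : E4 → ℝ := fun x => ev Pp x * (‖x‖⁻¹) ^ (1 + 1) + β * (ev Pq x * (‖x‖⁻¹) ^ (4 + 1))
    with hF1
  set F2 : E4 → ℝ := fun x => -β * (ev Pq x * (‖x‖⁻¹) ^ (4 + 1)) with hF2
  set K₁ : Set E4 := Body (fun x => c * ‖x‖ + F1 x) with hK1
  set K₂ : Set E4 := Body (fun x => c * ‖x‖ + F2 x) with hK2
  have ball_sub : ∀ {F : E4 → ℝ} {V : E4 → E4} {W : E4 → E4 →L[ℝ] E4} {C : ℝ},
      Piece F V W C → closedBall (0 : E4) (c - C) ⊆ Body (fun x => c * ‖x‖ + F x) := by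
    intro F V W C P p hp y
    rw [mem_closedBall_zero_iff] at hp
    have h1 := real_inner_le_norm p y
    have h2 := (abs_le.1 (P.bd y)).1
    have h3 := norm_nonneg y
    have h4 : ‖p‖ * ‖y‖ ≤ (c - C) * ‖y‖ := mul_le_mul_of_nonneg_right hp h3
    change ⟪p, y⟫ ≤ c * ‖y‖ + F y
    linarith
  have int_ne : ∀ {F : E4 → ℝ} {V : E4 → E4} {W : E4 → E4 →L[ℝ] E4} {C : ℝ},
      Piece F V W C → C < c → (interior (Body (fun x => c * ‖x‖ + F x))).Nonempty := by
    intro F V W C P hC
    refine ⟨0, ?_⟩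
    have h1 : ball (0 : E4) (c - C) ⊆ Body (fun x => c * ‖x‖ + F x) :=
      ball_subset_closedBall.trans (ball_sub P)
    exact interior_maximal h1 isOpen_ball (mem_ball_self (by linarith))
  refine ⟨K₁, K₂, ⟨S1.isCompact, convex_Body _, int_ne P1 hC1⟩,
    ⟨S2.isCompact, convex_Body _, int_ne P2 hC2⟩, ?_,
    LinearMap.range planeMap.toLinearMap, plane_finrank, ?_⟩
  rotate_left
  · -- the plane
    obtain ⟨a1, b1⟩ := steiner_piece (m := 2) (by norm_num) planeMap _ rfl 2 plane_orth_finrank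
      (by norm_num) P1 hC1 hc0 3 e2 e2_cont e2_spec
    obtain ⟨a2, b2⟩ := steiner_piece (m := 2) (by norm_num) planeMap _ rfl 2 plane_orth_finrank
      (by norm_num) P2 hC2 hc0 3 e2 e2_cont e2_spec
    refine ⟨_, _, b1, b2, mul_lt_mul_of_pos_right ?_ (ck_zero_pos _)⟩
    by_contra hA
    rw [not_lt] at hA
    have v1 := (a1 0 le_rfl).1
    have v2 := (a2 0 le_rfl).1
    simp only [closedBall_zero, Set.singleton_zero, add_zero] at v1 v2
    have z : ∀ b : ℕ → ℝ, ∑ k ∈ Finset.range 3, b k * (0 : ℝ) ^ k = b 0 := by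
      intro b; simp [Finset.sum_range_succ]
    rw [z] at v1 v2
    have v21 := ENNReal.ofReal_le_ofReal hA
    rw [← v1, ← v2] at v21
    -- inclusion
    have hle1 : ∀ y : EuclideanSpace ℝ (Fin 2), (1 + β / c) * (c * ‖planeMap y‖ + F1 (planeMap y)) ≤
        c * ‖planeMap y‖ + F2 (planeMap y) := by
      intro y
      by_cases hy : y = 0
      · subst hy
        simp only [hF1, hF2, map_zero, norm_zero, mul_zero]
        have e1 : ev Pp (0 : E4) = 0 := by rw [evPp]; simp
        have e2 : ev Pq (0 : E4) = 0 := by rw [evPq]; simp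
        rw [e1, e2]
        simp
      · have hyn : 0 < ‖y‖ := norm_pos_iff.2 hy
        simp only [hF1, hF2, planeMap.norm_map, plane_evPp, plane_evPq]
        have e1 : -(‖y‖ ^ 4 * (‖y‖ ^ 2 + y 1 ^ 2)) * ‖y‖⁻¹ ^ (4 + 1) =
            -((‖y‖ ^ 2 + y 1 ^ 2) / ‖y‖) := by
          rw [inv_pow]
          field_simp
        rw [e1]
        have e2 : ‖y‖ ≤ (‖y‖ ^ 2 + y 1 ^ 2) / ‖y‖ := by
          rw [le_div_iff₀ hyn]
          have := sq_nonneg (y 1)
          nlinarith
        have e3 : 0 ≤ β / c := by positivity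
        have e4 : β / c * (c * ‖y‖) = β * ‖y‖ := by field_simp
        have e5 : 0 ≤ β * ((‖y‖ ^ 2 + y 1 ^ 2) / ‖y‖) := by positivity
        have e6 : β * ‖y‖ ≤ β * ((‖y‖ ^ 2 + y 1 ^ 2) / ‖y‖) := mul_le_mul_of_nonneg_left e2 hβ0.le
        have e7 : 0 ≤ β / c * (β * ((‖y‖ ^ 2 + y 1 ^ 2) / ‖y‖)) := by positivity
        nlinarith
    have hsub : (1 + β / c) • Body (fun y => c * ‖planeMap y‖ + F1 (planeMap y)) ⊆
        Body (fun y => c * ‖planeMap y‖ + F2 (planeMap y)) := by
      rw [← Body_smul (by positivity)]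
      exact Body_mono hle1
    have hvol := measure_mono (μ := volume) hsub
    rw [Measure.addHaar_smul] at hvol
    replace hvol := hvol.trans v21
    simp only [finrank_euclideanSpace, Fintype.card_fin] at hvol
    have hpos : 0 < volume (Body (fun y => c * ‖planeMap y‖ + F1 (planeMap y))) := by
      have hb : closedBall (0 : EuclideanSpace ℝ (Fin 2)) (c - (Cp + |β| * Cq)) ⊆
          Body (fun y => c * ‖planeMap y‖ + F1 (planeMap y)) := by
        intro p hp y
        rw [mem_closedBall_zero_iff] at hp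
        have h1 := real_inner_le_norm p y
        have h2 := (abs_le.1 ((P1.comp planeMap).bd y)).1
        have h3 := norm_nonneg y
        have h4 : ‖p‖ * ‖y‖ ≤ (c - (Cp + |β| * Cq)) * ‖y‖ := mul_le_mul_of_nonneg_right hp h3
        change ⟪p, y⟫ ≤ c * ‖planeMap y‖ + F1 (planeMap y)
        rw [planeMap.norm_map]
        have h5 : F1 (planeMap y) = ev Pp (planeMap y) * (‖planeMap y‖⁻¹) ^ (1 + 1) +
            β * (ev Pq (planeMap y) * (‖planeMap y‖⁻¹) ^ (4 + 1)) := rfl
        rw [h5]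
        linarith
      exact (Metric.measure_closedBall_pos volume _ (by linarith)).trans_le (measure_mono hb)
    have hfin : volume (Body (fun y => c * ‖planeMap y‖ + F1 (planeMap y))) ≠ ⊤ := by
      exact (S1.comp planeMap).isCompact.measure_lt_top.ne
    have h1 := ENNReal.toReal_mono hfin hvol
    rw [ENNReal.toReal_mul, ENNReal.toReal_ofReal (abs_nonneg _)] at h1
    have h2 := ENNReal.toReal_pos hpos.ne' hfin
    have h3 : 0 < β / c := by positivity
    rw [abs_of_pos (by positivity)] at h1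
    have h4 := mul_pos h3 h2
    have h5 := mul_pos h3 h4
    nlinarith
  · intro u hu
    have hu1 : ‖u‖ = 1 := by simpa using hu
    obtain ⟨a1, b1⟩ := steiner_piece (m := 3) (by norm_num) (frame u hu1) _ (frame_range u hu1) 1
      (orth_finrank u hu1) (by norm_num) P1 hC1 hc0 4 e3 e3_cont e3_spec
    obtain ⟨a2, b2⟩ := steiner_piece (m := 3) (by norm_num) (frame u hu1) _ (frame_range u hu1) 1
      (orth_finrank u hu1) (by norm_num) P2 hC2 hc0 4 e3 e3_cont e3_spec
    refine ⟨_, _, b1, b2, ?_⟩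
    have hRW1 : ∀ y, RW (frame u hu1) (fun x =>
        WW (ev Pp) (gradv Pp) (hessv Pp) 1 x + β • WW (ev Pq) (gradv Pq) (hessv Pq) 4 x) y =
        WR (frame u hu1) Pp 1 y + β • WR (frame u hu1) Pq 4 y := by
      intro y
      simp [RW, WR, ContinuousLinearMap.add_comp, ContinuousLinearMap.comp_add,
        ContinuousLinearMap.smul_comp]
    have hRW2 : ∀ y, RW (frame u hu1) (fun x =>
        (-β) • WW (ev Pq) (gradv Pq) (hessv Pq) 4 x) y =
        (-β) • WR (frame u hu1) Pq 4 y := by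
      intro y
      rw [RW, WR]
      ext w
      simp
    have i1 := int_piece (m := 3) (by norm_num) (frame u hu1) P1 c (e3_cont 1)
    have i2 := int_piece (m := 3) (by norm_num) (frame u hu1) P2 c (e3_cont 1)
    simp_rw [hRW1] at i1 ⊢
    simp_rw [hRW2] at i2 ⊢
    rw [a1_eq u hu1 hcβ i1 i2]

end Pool.MP_f6b738_gt.IV
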