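import Pool.Agent.Work.MP_f6b738_gt.Main

set_option autoImplicit false
open MeasureTheory Pointwise Set Metric MvPolynomial
open scoped RealInnerProductSpace

set_option linter.unusedSectionVars false
set_option maxHeartbeats 4000000

namespace Pool.MP_f6b738_gt.IV

theorem ae_ne {E : Type*} [NormedAddCommGroup E] [InnerProductSpace ℝ E]
    [FiniteDimensional ℝ E] [MeasurableSpace E] [BorelSpace E] [Nontrivial E] :
    ∀ᵐ x ∂(volume.restrict (closedBall (0 : E) 1)), x ≠ 0 := by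
  have h1 : ∀ᵐ x ∂(volume : Measure E), x ≠ 0 := by
    have : volume ({0} : Set E) = 0 := by simp
    rw [ae_iff]
    convert this using 2
    ext x; simp
  exact ae_restrict_of_ae h1

theorem int_key (u : E4) (hu : ‖u‖ = 1) :
    ∫ y in closedBall (0 : E3) 1,
      (75 * s2 (WR (frame u hu) Pp 1 y) + s1 (WR (frame u hu) Pq 4 y)) = 0 := by
  rw [← sextic (cc (u 0) (u 1) (u 2) (u 3)) (cc_sum _ _ _ _)]
  refine integral_congr_ae ?_
  filter_upwards [ae_ne] with y hy
  exact key_pt u hu y hy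

/-- restriction of a derivative field -/
noncomputable def RW {m n : ℕ} (ι : EuclideanSpace ℝ (Fin m) →ₗᵢ[ℝ] EuclideanSpace ℝ (Fin n))
    (W : EuclideanSpace ℝ (Fin n) → EuclideanSpace ℝ (Fin n) →L[ℝ] EuclideanSpace ℝ (Fin n))
    (y : EuclideanSpace ℝ (Fin m)) : EuclideanSpace ℝ (Fin m) →L[ℝ] EuclideanSpace ℝ (Fin m) :=
  (adj ι).comp ((W (ι y)).comp ι.toContinuousLinearMap)

/-- Steiner formula for projections of our bodies -/
theorem steiner_piece {m n : ℕ} (hm : 0 < m)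
    (ι : EuclideanSpace ℝ (Fin m) →ₗᵢ[ℝ] EuclideanSpace ℝ (Fin n))
    (S : Submodule ℝ (EuclideanSpace ℝ (Fin n))) (hS : S = LinearMap.range ι.toLinearMap)
    (d : ℕ) (hd : Module.finrank ℝ (LinearMap.range ι.toLinearMap)ᗮ = d) (hd0 : 0 < d)
    {F : EuclideanSpace ℝ (Fin n) → ℝ} {V : EuclideanSpace ℝ (Fin n) → EuclideanSpace ℝ (Fin n)}
    {W : EuclideanSpace ℝ (Fin n) → EuclideanSpace ℝ (Fin n) →L[ℝ] EuclideanSpace ℝ (Fin n)}
    {C : ℝ} (P : Piece F V W C) {c : ℝ} (hc : C < c) (hc0 : 0 < c)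
    (N : ℕ) (e : ℕ → (EuclideanSpace ℝ (Fin m) →L[ℝ] EuclideanSpace ℝ (Fin m)) → ℝ)
    (hec : ∀ k, Continuous (e k))
    (he : ∀ A : EuclideanSpace ℝ (Fin m) →L[ℝ] EuclideanSpace ℝ (Fin m), ∀ r : ℝ,
      (A + r • ContinuousLinearMap.id ℝ _).det = ∑ k ∈ Finset.range N, e k A * r ^ k) :
    (∀ r : ℝ, 0 ≤ r → volume (Body (fun y => c * ‖ι y‖ + F (ι y)) +
        closedBall (0 : EuclideanSpace ℝ (Fin m)) r) =
      ENNReal.ofReal (∑ k ∈ Finset.range N, (∫ x in closedBall (0 : EuclideanSpace ℝ (Fin m)) 1,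
        e k (c • ContinuousLinearMap.id ℝ _ + RW ι W x)) * r ^ k) ∧
    0 ≤ ∑ k ∈ Finset.range N, (∫ x in closedBall (0 : EuclideanSpace ℝ (Fin m)) 1,
        e k (c • ContinuousLinearMap.id ℝ _ + RW ι W x)) * r ^ k) ∧
    ∀ ε : ℝ, 0 ≤ ε →
      (volume (S.starProjection '' Body (fun x => c * ‖x‖ + F x) +
        closedBall (0 : EuclideanSpace ℝ (Fin n)) ε)).toReal =
      ∑ k ∈ Finset.range N, (∫ x in closedBall (0 : EuclideanSpace ℝ (Fin m)) 1,
        e k (c • ContinuousLinearMap.id ℝ _ + RW ι W x)) *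
        ck (LinearMap.range ι.toLinearMap)ᗮ k * ε ^ (k + d) := by
  have : Nonempty (Fin m) := ⟨⟨0, hm⟩⟩
  have : Nontrivial (EuclideanSpace ℝ (Fin m)) := by
    apply Module.nontrivial_of_finrank_pos (R := ℝ)
    simpa using hm
  have : Nontrivial (LinearMap.range ι.toLinearMap)ᗮ := by
    apply Module.nontrivial_of_finrank_pos (R := ℝ)
    omega
  have PC := P.comp ι
  have H : Supp (fun y => c * ‖ι y‖ + F (ι y))
      (fun y => (c * ‖y‖⁻¹) • y + adj ι (V (ι y))) := by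
    have := PC.supp hc hc0
    simpa only [ι.norm_map] using this
  have h1 : ∀ r : ℝ, 0 ≤ r → volume (Body (fun y => c * ‖ι y‖ + F (ι y)) +
        closedBall (0 : EuclideanSpace ℝ (Fin m)) r) =
      ENNReal.ofReal (∑ k ∈ Finset.range N, (∫ x in closedBall (0 : EuclideanSpace ℝ (Fin m)) 1,
        e k (c • ContinuousLinearMap.id ℝ _ + RW ι W x)) * r ^ k) ∧
    0 ≤ ∑ k ∈ Finset.range N, (∫ x in closedBall (0 : EuclideanSpace ℝ (Fin m)) 1,
        e k (c • ContinuousLinearMap.id ℝ _ + RW ι W x)) * r ^ k := by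
    intro r hr
    refine H.vol_poly (D := fun x => c • ContinuousLinearMap.id ℝ _ + RW ι W x)
      (C := c + C) ?_ ?_ ?_ ?_ N e hec he r hr
    · intro x hx
      exact PC.psi_supp c x hx
    · exact continuousOn_const.add PC.Wc
    · intro x hx
      refine (norm_add_le _ _).trans (add_le_add ?_ (PC.Wb x hx))
      rw [norm_smul, Real.norm_eq_abs, abs_of_pos hc0, ContinuousLinearMap.norm_id, mul_one]
    · intro x hx r hr
      have h2 : c • ContinuousLinearMap.id ℝ (EuclideanSpace ℝ (Fin m)) + RW ι W x +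
          r • ContinuousLinearMap.id ℝ _ =
          (c + r) • ContinuousLinearMap.id ℝ (EuclideanSpace ℝ (Fin m)) + RW ι W x := by
        module
      rw [h2]
      exact (det_pos_of_norm_lt _ ((PC.Wb x hx).trans_lt (by linarith))).le
  refine ⟨h1, ?_⟩
  intro ε hε
  have hK : IsCompact (Body (fun y => c * ‖ι y‖ + F (ι y))) := H.isCompact
  have h3 := steiner ι hK N _ h1 hε
  rw [hd] at h3
  rw [← h3, (P.supp hc hc0).proj ι S hS]

theorem int_piece {m n : ℕ} (hm : 0 < m)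
    (ι : EuclideanSpace ℝ (Fin m) →ₗᵢ[ℝ] EuclideanSpace ℝ (Fin n))
    {F : EuclideanSpace ℝ (Fin n) → ℝ} {V : EuclideanSpace ℝ (Fin n) → EuclideanSpace ℝ (Fin n)}
    {W : EuclideanSpace ℝ (Fin n) → EuclideanSpace ℝ (Fin n) →L[ℝ] EuclideanSpace ℝ (Fin n)}
    {C : ℝ} (P : Piece F V W C) (c : ℝ)
    {e : (EuclideanSpace ℝ (Fin m) →L[ℝ] EuclideanSpace ℝ (Fin m)) → ℝ} (hec : Continuous e) :
    IntegrableOn (fun x => e (c • ContinuousLinearMap.id ℝ _ + RW ι W x))
      (closedBall (0 : EuclideanSpace ℝ (Fin m)) 1) := by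
  have : Nontrivial (EuclideanSpace ℝ (Fin m)) := by
    apply Module.nontrivial_of_finrank_pos (R := ℝ)
    simpa using hm
  have PC := P.comp ι
  refine integrableOn_D (D := fun x => c • ContinuousLinearMap.id ℝ _ + RW ι W x)
    (C := ‖c • ContinuousLinearMap.id ℝ (EuclideanSpace ℝ (Fin m))‖ + C)
    (continuousOn_const.add PC.Wc) ?_ hec
  intro x hx
  exact (norm_add_le _ _).trans (add_le_add le_rfl (PC.Wb x hx))

theorem ck_zero_pos (F : Type*) [NormedAddCommGroup F] [InnerProductSpace ℝ F]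
    [FiniteDimensional ℝ F] [MeasurableSpace F] [BorelSpace F] : 0 < ck F 0 := by
  rw [ck]
  simp only [pow_zero]
  rw [setIntegral_const]
  simp only [smul_eq_mul, mul_one]
  exact ENNReal.toReal_pos (Metric.measure_closedBall_pos volume _ one_pos).ne'
    measure_closedBall_lt_top.ne

theorem s2_add_smul (A : E3 →L[ℝ] E3) (c : ℝ) :
    e3 1 (c • ContinuousLinearMap.id ℝ _ + A) = 3 * c ^ 2 + 2 * c * s1 A + s2 A := by
  simp only [e3, s1, s2, ent_add, ent_smul, ent_id]
  simp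
  ring

/-- the polar form -/
noncomputable def bil (A B : E3 →L[ℝ] E3) : ℝ :=
  ent A 0 0 * ent B 1 1 + ent B 0 0 * ent A 1 1 - ent A 0 1 * ent B 1 0 - ent B 0 1 * ent A 1 0
    + ent A 0 0 * ent B 2 2 + ent B 0 0 * ent A 2 2
      - ent A 0 2 * ent B 2 0 - ent B 0 2 * ent A 2 0
      + ent A 1 1 * ent B 2 2 + ent B 1 1 * ent A 2 2 - ent A 1 2 * ent B 2 1
      - ent B 1 2 * ent A 2 1

theorem s2_comb (A B : E3 →L[ℝ] E3) (β : ℝ) :
    s2 (A + β • B) = s2 A + β * bil A B + β ^ 2 * s2 B := by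
  simp only [s2, bil, ent_add, ent_smul]
  ring

theorem s1_comb (A B : E3 →L[ℝ] E3) (β : ℝ) : s1 (A + β • B) = s1 A + β * s1 B := by
  simp only [s1, ent_add, ent_smul]
  ring

theorem s2_smul (B : E3 →L[ℝ] E3) (β : ℝ) : s2 (β • B) = β ^ 2 * s2 B := by
  simp only [s2, ent_smul]
  ring

theorem s1_smul (B : E3 →L[ℝ] E3) (β : ℝ) : s1 (β • B) = β * s1 B := by
  simp only [s1, ent_smul]
  ring

theorem bil_smul (A B : E3 →L[ℝ] E3) (a b : ℝ) : bil (a • A) (b • B) = a * b * bil A B := by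
  simp only [bil, ent_smul]
  ring

theorem a1_eq (u : E4) (hu : ‖u‖ = 1) {c β : ℝ} (hcβ : 300 * c * β = 1)
    (hint1 : IntegrableOn (fun y => e3 1 (c • ContinuousLinearMap.id ℝ _ +
      (WR (frame u hu) Pp 1 y + β • WR (frame u hu) Pq 4 y))) (closedBall (0 : E3) 1))
    (hint2 : IntegrableOn (fun y => e3 1 (c • ContinuousLinearMap.id ℝ _ +
      (-β) • WR (frame u hu) Pq 4 y)) (closedBall (0 : E3) 1)) :
    ∫ y in closedBall (0 : E3) 1, e3 1 (c • ContinuousLinearMap.id ℝ _ +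
      (WR (frame u hu) Pp 1 y + β • WR (frame u hu) Pq 4 y)) =
    ∫ y in closedBall (0 : E3) 1, e3 1 (c • ContinuousLinearMap.id ℝ _ +
      (-β) • WR (frame u hu) Pq 4 y) := by
  set g : E3 → ℝ := fun y => e3 1 (c • ContinuousLinearMap.id ℝ _ +
      (WR (frame u hu) Pp 1 y + β • WR (frame u hu) Pq 4 y)) -
      e3 1 (c • ContinuousLinearMap.id ℝ _ + (-β) • WR (frame u hu) Pq 4 y) with hg
  have hgi : IntegrableOn g (closedBall (0 : E3) 1) := hint1.sub hint2
  have h1 : ∫ y in closedBall (0 : E3) 1, g (-y) = ∫ y in closedBall (0 : E3) 1, g y :=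
    ball_inv (LinearIsometryEquiv.neg ℝ) g
  have hgi' : IntegrableOn (fun y => g (-y)) (closedBall (0 : E3) 1) := by
    have hmp : MeasurePreserving (LinearIsometryEquiv.neg ℝ : E3 ≃ₗᵢ[ℝ] E3) volume volume :=
      (LinearIsometryEquiv.neg ℝ : E3 ≃ₗᵢ[ℝ] E3).measurePreserving
    have h2 := (hmp.integrableOn_comp_preimage
      (LinearIsometryEquiv.neg ℝ : E3 ≃ₗᵢ[ℝ] E3).toHomeomorph.measurableEmbedding
      (s := closedBall (0 : E3) 1) (f := g)).2 hgi
    have h3 : (LinearIsometryEquiv.neg ℝ : E3 ≃ₗᵢ[ℝ] E3) ⁻¹' closedBall (0 : E3) 1 =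
        closedBall (0 : E3) 1 := by
      ext y; simp
    rw [h3] at h2
    exact h2
  have h4 : ∀ y, g y + g (-y) = (2 / 75) *
      (75 * s2 (WR (frame u hu) Pp 1 y) + s1 (WR (frame u hu) Pq 4 y)) := by
    intro y
    have n1 : WR (frame u hu) Pp 1 (-y) = (-1 : ℝ) • WR (frame u hu) Pp 1 y := by
      have := WR_neg (frame u hu) (j := 1) Pp_hom y
      simpa using this
    have n2 : WR (frame u hu) Pq 4 (-y) = WR (frame u hu) Pq 4 y := by
      have := WR_neg (frame u hu) (j := 4) Pq_hom y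
      rw [this]
      norm_num
    simp only [hg, s2_add_smul, n1, n2, s2_comb, s1_comb, s2_smul, s1_smul]
    have b1 : bil ((-1 : ℝ) • WR (frame u hu) Pp 1 y) (WR (frame u hu) Pq 4 y) =
        - bil (WR (frame u hu) Pp 1 y) (WR (frame u hu) Pq 4 y) := by
      have := bil_smul (WR (frame u hu) Pp 1 y) (WR (frame u hu) Pq 4 y) (-1) 1
      rw [one_smul] at this
      rw [this]; ring
    rw [b1]
    linear_combination (8 / 300 * s1 (WR (frame u hu) Pq 4 y)) * hcβ
  have h5 : ∫ y in closedBall (0 : E3) 1, (g y + g (-y)) = 0 := by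
    simp_rw [h4]
    rw [integral_const_mul, int_key u hu, mul_zero]
  rw [integral_add hgi hgi', h1] at h5
  have h6 : ∫ y in closedBall (0 : E3) 1, g y = 0 := by linarith
  rw [hg, integral_sub hint1 hint2] at h6
  linarith

/-! ### the two bodies -/

theorem plane_evPp (y : EuclideanSpace ℝ (Fin 2)) : ev Pp (planeMap y) = 0 := by
  rw [evPp, planeMap_apply]; simp

theorem plane_evPq (y : EuclideanSpace ℝ (Fin 2)) :
    ev Pq (planeMap y) = -(‖y‖ ^ 4 * (‖y‖ ^ 2 + y 1 ^ 2)) := by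
  have h : ‖y‖ ^ 2 = y 0 ^ 2 + y 1 ^ 2 := by
    rw [EuclideanSpace.norm_eq, Real.sq_sqrt (by positivity)]
    simp [Fin.sum_univ_two]
  have h4 : ‖y‖ ^ 4 = (y 0 ^ 2 + y 1 ^ 2) ^ 2 := by rw [← h]; ring
  rw [evPq, planeMap_apply, h4, h]
  simp

/-- coefficient extraction -/
theorem coeff_sum (N d j : ℕ) (b : ℕ → ℝ) (hj : j ∈ Finset.range N) :
    (∑ k ∈ Finset.range N, Polynomial.C (b k) * Polynomial.X ^ (k + d)).coeff (j + d) = b j := by
  rw [Polynomial.finsetSum_coeff, Finset.sum_eq_single j]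
  · simp
  · intro k _ hk
    rw [Polynomial.coeff_C_mul_X_pow, if_neg]
    omega
  · intro h; exact absurd hj h

theorem eval_sum (N d : ℕ) (b : ℕ → ℝ) (ε : ℝ) :
    (∑ k ∈ Finset.range N, Polynomial.C (b k) * Polynomial.X ^ (k + d)).eval ε =
      ∑ k ∈ Finset.range N, b k * ε ^ (k + d) := by
  rw [Polynomial.eval_finsetSum]
  simp

theorem main_counterexample :
    ¬ (∀ (n i k : ℕ), 1 ≤ i → i ≤ k → k ≤ n - 1 →
  ∀ K₁ K₂ : Set (EuclideanSpace ℝ (Fin n)),
    IsCompact K₁ → Convex ℝ K₁ → IsCompact K₂ → Convex ℝ K₂ →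
    (∀ u ∈ Metric.sphere (0 : EuclideanSpace ℝ (Fin n)) 1,
      ∃ p q : Polynomial ℝ,
        (∀ ε : ℝ, 0 ≤ ε → p.eval ε =
          (volume (((Submodule.orthogonal (Submodule.span ℝ {u})).starProjection '' K₁)
            + Metric.closedBall (0 : EuclideanSpace ℝ (Fin n)) ε)).toReal) ∧
        (∀ ε : ℝ, 0 ≤ ε → q.eval ε =
          (volume (((Submodule.orthogonal (Submodule.span ℝ {u})).starProjection '' K₂)
            + Metric.closedBall (0 : EuclideanSpace ℝ (Fin n)) ε)).toReal) ∧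
        p.coeff (n - i) = q.coeff (n - i)) →
    ∀ S : Submodule ℝ (EuclideanSpace ℝ (Fin n)), Module.finrank ℝ S = k →
      ∃ p q : Polynomial ℝ,
        (∀ ε : ℝ, 0 ≤ ε → p.eval ε =
          (volume ((S.starProjection '' K₁)
            + Metric.closedBall (0 : EuclideanSpace ℝ (Fin n)) ε)).toReal) ∧
        (∀ ε : ℝ, 0 ≤ ε → q.eval ε =
          (volume ((S.starProjection '' K₂)
            + Metric.closedBall (0 : EuclideanSpace ℝ (Fin n)) ε)).toReal) ∧
        p.coeff (n - i) = q.coeff (n - i)) := by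
  intro hall
  obtain ⟨Cp, PP⟩ := Piece.ofMv (j := 1) Pp_hom
  obtain ⟨Cq, PQ⟩ := Piece.ofMv (j := 4) Pq_hom
  obtain ⟨c, hc⟩ : ∃ c : ℝ, c = |Cp| + |Cq| + 1 := ⟨_, rfl⟩
  have hc1 : 1 ≤ c := by
    have := abs_nonneg Cp
    have := abs_nonneg Cq
    linarith
  have hc0 : 0 < c := by linarith
  obtain ⟨β, hβ⟩ : ∃ β : ℝ, β = 1 / (300 * c) := ⟨_, rfl⟩
  have hβ0 : 0 < β := by rw [hβ]; positivity
  have hβ1 : β ≤ 1 := by
    rw [hβ, div_le_one (by positivity)]
    linarith
  have hcβ : 300 * c * β = 1 := by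
    rw [hβ]; field_simp
  have P1 := PP.add (PQ.smul β)
  have P2 := PQ.smul (-β)
  have hC1 : Cp + |β| * Cq < c := by
    rw [abs_of_pos hβ0]
    have h1 := le_abs_self Cp
    have h2 := le_abs_self Cq
    have h3 := abs_nonneg Cq
    have h4 : β * Cq ≤ |Cq| := by nlinarith
    linarith
  have hC2 : |(-β)| * Cq < c := by
    rw [abs_neg, abs_of_pos hβ0]
    have h1 := abs_nonneg Cp
    have h2 := le_abs_self Cq
    have h3 := abs_nonneg Cq
    have h4 : β * Cq ≤ |Cq| := by nlinarith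
    linarith
  have S1 := P1.supp hC1 hc0
  have S2 := P2.supp hC2 hc0
  set F1 : E4 → ℝ := fun x => ev Pp x * (‖x‖⁻¹) ^ (1 + 1) + β * (ev Pq x * (‖x‖⁻¹) ^ (4 + 1))
    with hF1
  set F2 : E4 → ℝ := fun x => -β * (ev Pq x * (‖x‖⁻¹) ^ (4 + 1)) with hF2
  set K₁ : Set E4 := Body (fun x => c * ‖x‖ + F1 x) with hK1
  set K₂ : Set E4 := Body (fun x => c * ‖x‖ + F2 x) with hK2
  have key := hall 4 2 2 (by norm_num) le_rfl (by norm_num) K₁ K₂ S1.isCompact (convex_Body _)
    S2.isCompact (convex_Body _) ?_ (LinearMap.range planeMap.toLinearMap) plane_finrank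
  · -- contradiction
    obtain ⟨p, q, hp, hq, hpq⟩ := key
    obtain ⟨a1, b1⟩ := steiner_piece (m := 2) (by norm_num) planeMap _ rfl 2 plane_orth_finrank
      (by norm_num) P1 hC1 hc0 3 e2 e2_cont e2_spec
    obtain ⟨a2, b2⟩ := steiner_piece (m := 2) (by norm_num) planeMap _ rfl 2 plane_orth_finrank
      (by norm_num) P2 hC2 hc0 3 e2 e2_cont e2_spec
    -- identify the polynomials
    have hid : ∀ (p : Polynomial ℝ) (b : ℕ → ℝ) (f : ℝ → ℝ), (∀ ε, 0 ≤ ε → p.eval ε = f ε) →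
        (∀ ε, 0 ≤ ε → f ε = ∑ k ∈ Finset.range 3, b k * ε ^ (k + 2)) → p.coeff 2 = b 0 := by
      intro p b f h1 h2
      have h3 : p = ∑ k ∈ Finset.range 3, Polynomial.C (b k) * Polynomial.X ^ (k + 2) := by
        apply Polynomial.eq_of_infinite_eval_eq
        refine Set.Infinite.mono ?_ (Set.Ici_infinite (0 : ℝ))
        intro ε hε
        change p.eval ε = _
        rw [eval_sum, h1 ε hε, h2 ε hε]
      rw [h3]
      exact coeff_sum 3 2 0 b (by simp)
    have hp2 := hid p _ _ hp b1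
    have hq2 := hid q _ _ hq b2
    rw [show 4 - 2 = 2 from rfl, hp2, hq2] at hpq
    have hA := mul_right_cancel₀ (ck_zero_pos _).ne' hpq
    have v1 := (a1 0 le_rfl).1
    have v2 := (a2 0 le_rfl).1
    simp only [closedBall_zero, Set.singleton_zero, add_zero] at v1 v2
    have z : ∀ b : ℕ → ℝ, ∑ k ∈ Finset.range 3, b k * (0 : ℝ) ^ k = b 0 := by
      intro b; simp [Finset.sum_range_succ]
    rw [z] at v1 v2
    rw [hA, ← v2] at v1
    -- inclusion
    have hle1 : ∀ y : EuclideanSpace ℝ (Fin 2), (1 + β / c) * (c * ‖planeMap y‖ + F1 (planeMap y)) ≤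
        c * ‖planeMap y‖ + F2 (planeMap y) := by
      intro y
      by_cases hy : y = 0
      · subst hy
        simp only [hF1, hF2, map_zero, norm_zero, mul_zero]
        have e1 : ev Pp (0 : E4) = 0 := by rw [evPp]; simp
        have e2 : ev Pq (0 : E4) = 0 := by rw [evPq]; simp
        rw [e1, e2]
        simp
      · have hyn : 0 < ‖y‖ := norm_pos_iff.2 hy
        simp only [hF1, hF2, planeMap.norm_map, plane_evPp, plane_evPq]
        have e1 : -(‖y‖ ^ 4 * (‖y‖ ^ 2 + y 1 ^ 2)) * ‖y‖⁻¹ ^ (4 + 1) =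
            -((‖y‖ ^ 2 + y 1 ^ 2) / ‖y‖) := by
          rw [inv_pow]
          field_simp
        rw [e1]
        have e2 : ‖y‖ ≤ (‖y‖ ^ 2 + y 1 ^ 2) / ‖y‖ := by
          rw [le_div_iff₀ hyn]
          have := sq_nonneg (y 1)
          nlinarith
        have e3 : 0 ≤ β / c := by positivity
        have e4 : β / c * (c * ‖y‖) = β * ‖y‖ := by field_simp
        have e5 : 0 ≤ β * ((‖y‖ ^ 2 + y 1 ^ 2) / ‖y‖) := by positivity
        have e6 : β * ‖y‖ ≤ β * ((‖y‖ ^ 2 + y 1 ^ 2) / ‖y‖) := mul_le_mul_of_nonneg_left e2 hβ0.le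
        have e7 : 0 ≤ β / c * (β * ((‖y‖ ^ 2 + y 1 ^ 2) / ‖y‖)) := by positivity
        nlinarith
    have hsub : (1 + β / c) • Body (fun y => c * ‖planeMap y‖ + F1 (planeMap y)) ⊆
        Body (fun y => c * ‖planeMap y‖ + F2 (planeMap y)) := by
      rw [← Body_smul (by positivity)]
      exact Body_mono hle1
    have hvol := measure_mono (μ := volume) hsub
    rw [Measure.addHaar_smul, ← v1] at hvol
    simp only [finrank_euclideanSpace, Fintype.card_fin] at hvol
    have hpos : 0 < volume (Body (fun y => c * ‖planeMap y‖ + F1 (planeMap y))) := by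
      have hb : closedBall (0 : EuclideanSpace ℝ (Fin 2)) (c - (Cp + |β| * Cq)) ⊆
          Body (fun y => c * ‖planeMap y‖ + F1 (planeMap y)) := by
        intro p hp y
        rw [mem_closedBall_zero_iff] at hp
        have h1 := real_inner_le_norm p y
        have h2 := (abs_le.1 ((P1.comp planeMap).bd y)).1
        have h3 := norm_nonneg y
        have h4 : ‖p‖ * ‖y‖ ≤ (c - (Cp + |β| * Cq)) * ‖y‖ := mul_le_mul_of_nonneg_right hp h3
        change ⟪p, y⟫ ≤ c * ‖planeMap y‖ + F1 (planeMap y)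
        rw [planeMap.norm_map]
        have h5 : F1 (planeMap y) = ev Pp (planeMap y) * (‖planeMap y‖⁻¹) ^ (1 + 1) +
            β * (ev Pq (planeMap y) * (‖planeMap y‖⁻¹) ^ (4 + 1)) := rfl
        rw [h5]
        linarith
      exact (Metric.measure_closedBall_pos volume _ (by linarith)).trans_le (measure_mono hb)
    have hfin : volume (Body (fun y => c * ‖planeMap y‖ + F1 (planeMap y))) ≠ ⊤ := by
      exact (S1.comp planeMap).isCompact.measure_lt_top.ne
    have h1 := ENNReal.toReal_mono hfin hvol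
    rw [ENNReal.toReal_mul, ENNReal.toReal_ofReal (abs_nonneg _)] at h1
    have h2 := ENNReal.toReal_pos hpos.ne' hfin
    have h3 : 0 < β / c := by positivity
    rw [abs_of_pos (by positivity)] at h1
    have h4 := mul_pos h3 h2
    have h5 := mul_pos h3 h4
    nlinarith
  · intro u hu
    have hu1 : ‖u‖ = 1 := by simpa using hu
    obtain ⟨a1, b1⟩ := steiner_piece (m := 3) (by norm_num) (frame u hu1) _ (frame_range u hu1) 1
      (orth_finrank u hu1) (by norm_num) P1 hC1 hc0 4 e3 e3_cont e3_spec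
    obtain ⟨a2, b2⟩ := steiner_piece (m := 3) (by norm_num) (frame u hu1) _ (frame_range u hu1) 1
      (orth_finrank u hu1) (by norm_num) P2 hC2 hc0 4 e3 e3_cont e3_spec
    refine ⟨∑ k ∈ Finset.range 4, Polynomial.C ((∫ x in closedBall (0 : E3) 1,
        e3 k (c • ContinuousLinearMap.id ℝ _ + RW (frame u hu1) (fun x =>
          WW (ev Pp) (gradv Pp) (hessv Pp) 1 x + β • WW (ev Pq) (gradv Pq) (hessv Pq) 4 x) x)) *
        ck (LinearMap.range (frame u hu1).toLinearMap)ᗮ k) * Polynomial.X ^ (k + 1),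
      ∑ k ∈ Finset.range 4, Polynomial.C ((∫ x in closedBall (0 : E3) 1,
        e3 k (c • ContinuousLinearMap.id ℝ _ + RW (frame u hu1) (fun x =>
          (-β) • WW (ev Pq) (gradv Pq) (hessv Pq) 4 x) x)) *
        ck (LinearMap.range (frame u hu1).toLinearMap)ᗮ k) * Polynomial.X ^ (k + 1), ?_, ?_, ?_⟩
    · intro ε hε
      rw [eval_sum]
      exact (b1 ε hε).symm
    · intro ε hε
      rw [eval_sum]
      exact (b2 ε hε).symm
    · have e1 := coeff_sum 4 1 1
      rw [show 4 - 2 = 1 + 1 from rfl, e1 _ (by simp), e1 _ (by simp)]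
      have hRW1 : ∀ y, RW (frame u hu1) (fun x =>
          WW (ev Pp) (gradv Pp) (hessv Pp) 1 x + β • WW (ev Pq) (gradv Pq) (hessv Pq) 4 x) y =
          WR (frame u hu1) Pp 1 y + β • WR (frame u hu1) Pq 4 y := by
        intro y
        simp [RW, WR, ContinuousLinearMap.add_comp, ContinuousLinearMap.comp_add,
          ContinuousLinearMap.smul_comp]
      have hRW2 : ∀ y, RW (frame u hu1) (fun x =>
          (-β) • WW (ev Pq) (gradv Pq) (hessv Pq) 4 x) y =
          (-β) • WR (frame u hu1) Pq 4 y := by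
        intro y
        rw [RW, WR]
        ext w
        simp
      have i1 := int_piece (m := 3) (by norm_num) (frame u hu1) P1 c (e3_cont 1)
      have i2 := int_piece (m := 3) (by norm_num) (frame u hu1) P2 c (e3_cont 1)
      simp_rw [hRW1] at i1 ⊢
      simp_rw [hRW2] at i2 ⊢
      rw [a1_eq u hu1 hcβ i1 i2]

end Pool.MP_f6b738_gt.IV
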