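import Mathlib

set_option autoImplicit false
open MeasureTheory Pointwise Set Metric
open scoped RealInnerProductSpace

set_option linter.unusedSectionVars false

namespace Pool.MP_f6b738_gt.IV

/-- `h` is a `C¹`, strictly convex, positive support function with gradient `G`. -/
structure Supp {E : Type*} [NormedAddCommGroup E] [InnerProductSpace ℝ E]
    (h : E → ℝ) (G : E → E) : Prop where
  hom : ∀ t : ℝ, 0 < t → ∀ x, h (t • x) = t * h x
  pos : ∀ x, x ≠ 0 → 0 < h x
  grad : ∀ x, x ≠ 0 → HasFDerivAt h (innerSL ℝ (G x)) x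
  Ghom : ∀ t : ℝ, 0 < t → ∀ x, x ≠ 0 → G (t • x) = G x
  euler : ∀ x, x ≠ 0 → ⟪G x, x⟫ = h x
  le : ∀ v, v ≠ 0 → ∀ x, ⟪G v, x⟫ ≤ h x
  strict : ∀ v, v ≠ 0 → ∀ x, x ≠ 0 → ⟪G v, x⟫ = h x → ‖x‖ • v = ‖v‖ • x

/-- the convex body with support function `h` -/
def Body {E : Type*} [NormedAddCommGroup E] [InnerProductSpace ℝ E] (h : E → ℝ) : Set E :=
  {p | ∀ x, ⟪p, x⟫ ≤ h x}

/-- parametrisation of the body -/
def Psi {E : Type*} [NormedAddCommGroup E] [InnerProductSpace ℝ E] (G : E → E) (x : E) : E :=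
  ‖x‖ • G x

section

variable {E : Type*} [NormedAddCommGroup E] [InnerProductSpace ℝ E]
variable {h : E → ℝ} {G : E → E}

theorem Supp.zero (H : Supp h G) : h 0 = 0 := by
  have := H.hom 2 (by norm_num) 0
  rw [smul_zero] at this
  linarith

theorem Supp.nonneg (H : Supp h G) (x : E) : 0 ≤ h x := by
  by_cases hx : x = 0
  · rw [hx, H.zero]
  · exact (H.pos x hx).le

theorem Supp.add_le (H : Supp h G) (x y : E) : h (x + y) ≤ h x + h y := by
  by_cases hxy : x + y = 0
  · rw [hxy, H.zero]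
    exact add_nonneg (H.nonneg x) (H.nonneg y)
  · rw [← H.euler _ hxy, inner_add_right]
    exact add_le_add (H.le _ hxy x) (H.le _ hxy y)

theorem Psi_zero (G : E → E) : Psi G 0 = 0 := by simp [Psi]

theorem Supp.psi_mem (H : Supp h G) {x : E} (hx : ‖x‖ ≤ 1) : Psi G x ∈ Body h := by
  intro y
  by_cases h0 : x = 0
  · rw [h0, Psi_zero, inner_zero_left]; exact H.nonneg y
  · rw [Psi, inner_smul_left]
    have h1 := H.le x h0 y
    have h2 := H.nonneg y
    have h3 := norm_nonneg x
    simp only [conj_trivial]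
    nlinarith

theorem convex_Body (h : E → ℝ) : Convex ℝ (Body h) := by
  have : Body h = ⋂ x, {p : E | ⟪p, x⟫ ≤ h x} := by
    ext p; simp [Body]
  rw [this]
  refine convex_iInter fun x => ?_
  have h1 : IsLinearMap ℝ (fun p : E => ⟪p, x⟫) :=
    ⟨fun a b => inner_add_left _ _ _, fun c a => by simp [inner_smul_left]⟩
  exact convex_halfSpace_le h1 _

theorem isClosed_Body (h : E → ℝ) : IsClosed (Body h) := by
  have : Body h = ⋂ x, {p : E | ⟪p, x⟫ ≤ h x} := by
    ext p; simp [Body]
  rw [this]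
  refine isClosed_iInter fun x => ?_
  exact isClosed_le (by fun_prop) continuous_const

theorem Body_mono {h h' : E → ℝ} (hle : ∀ x, h x ≤ h' x) : Body h ⊆ Body h' :=
  fun _ hp x => (hp x).trans (hle x)

theorem Body_smul {t : ℝ} (ht : 0 < t) : Body (fun x => t * h x) = t • Body h := by
  ext p
  rw [Set.mem_smul_set_iff_inv_smul_mem₀ ht.ne']
  simp only [Body, mem_ofPred_eq, inner_smul_left, conj_trivial]
  refine forall_congr' fun x => ?_
  rw [inv_mul_le_iff₀ ht]

theorem Supp.inj (H : Supp h G) : InjOn (Psi G) {x | x ≠ 0} := by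
  intro x hx y hy hxy
  simp only [mem_ofPred_eq] at hx hy
  have hxn : 0 < ‖x‖ := norm_pos_iff.2 hx
  have hyn : 0 < ‖y‖ := norm_pos_iff.2 hy
  have key : ∀ a b : E, a ≠ 0 → b ≠ 0 → Psi G a = Psi G b → ‖a‖ ≤ ‖b‖ := by
    intro a b ha hb hab
    have h1 : ⟪Psi G a, a⟫ = ⟪Psi G b, a⟫ := by rw [hab]
    rw [Psi, Psi, inner_smul_left, inner_smul_left, H.euler a ha] at h1
    simp only [conj_trivial] at h1
    have h2 := H.le b hb a
    have h3 := H.pos a ha
    by_contra hcon
    push Not at hcon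
    have h4 : ‖b‖ * ⟪G b, a⟫ ≤ ‖b‖ * h a := mul_le_mul_of_nonneg_left h2 (norm_nonneg b)
    nlinarith
  have hn : ‖x‖ = ‖y‖ := le_antisymm (key x y hx hy hxy) (key y x hy hx hxy.symm)
  have h1 : ⟪Psi G x, x⟫ = ⟪Psi G y, x⟫ := by rw [hxy]
  rw [Psi, Psi, inner_smul_left, inner_smul_left, H.euler x hx, hn] at h1
  simp only [conj_trivial] at h1
  have h2 : ⟪G y, x⟫ = h x := by
    have := mul_left_cancel₀ hyn.ne' h1
    exact this.symm
  have h3 := H.strict y hy x hx h2
  rw [hn] at h3
  exact (smul_right_injective E hyn.ne' h3).symm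

theorem Supp.psi_ne (H : Supp h G) {x : E} (hx : x ≠ 0) : Psi G x ≠ 0 := by
  intro h0
  have h1 : ⟪Psi G x, x⟫ = 0 := by rw [h0, inner_zero_left]
  rw [Psi, inner_smul_left, H.euler x hx] at h1
  simp only [conj_trivial] at h1
  have := mul_pos (norm_pos_iff.2 hx) (H.pos x hx)
  linarith

variable [FiniteDimensional ℝ E]

theorem Supp.continuousOn (H : Supp h G) : ContinuousOn h {x | x ≠ 0} := fun x hx =>
  (H.grad x hx).continuousAt.continuousWithinAt

/-- the body is the image of the unit ball under `Psi`. -/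
theorem Supp.body_eq (H : Supp h G) : Body h = Psi G '' closedBall 0 1 := by
  apply Subset.antisymm
  · intro p hp
    by_cases hp0 : p = 0
    · exact ⟨0, by simp, by rw [Psi_zero, hp0]⟩
    have hpn : 0 < ‖p‖ := norm_pos_iff.2 hp0
    -- maximise ⟪p, v⟫ / h v on the sphere
    have hcomp : IsCompact (sphere (0 : E) 1) := isCompact_sphere _ _
    have hsub : sphere (0 : E) 1 ⊆ {x | x ≠ 0} := by
      intro x hx
      have : ‖x‖ = 1 := by simpa using hx
      intro h0
      rw [h0] at this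
      simp at this
    have hne : (sphere (0 : E) 1).Nonempty := ⟨‖p‖⁻¹ • p, by
      simp [norm_smul, inv_mul_cancel₀ hpn.ne']⟩
    have hcont : ContinuousOn (fun v => ⟪p, v⟫ / h v) (sphere (0 : E) 1) := by
      refine ContinuousOn.div (by fun_prop) (H.continuousOn.mono hsub) ?_
      intro x hx
      exact (H.pos x (hsub hx)).ne'
    obtain ⟨v, hv, hmax⟩ := hcomp.exists_isMaxOn hne hcont
    have hv1 : ‖v‖ = 1 := by simpa using hv
    have hv0 : v ≠ 0 := hsub hv
    set t := ⟪p, v⟫ / h v with ht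
    have hpv : ⟪p, v⟫ = t * h v := by
      rw [ht, div_mul_cancel₀ _ (H.pos v hv0).ne']
    have hle : ∀ x, ⟪p, x⟫ ≤ t * h x := by
      intro x
      by_cases hx : x = 0
      · rw [hx, inner_zero_right, H.zero, mul_zero]
      have hxn : 0 < ‖x‖ := norm_pos_iff.2 hx
      have h1 : ‖x‖⁻¹ • x ∈ sphere (0 : E) 1 := by
        simp [norm_smul, inv_mul_cancel₀ hxn.ne']
      have h2 : ⟪p, ‖x‖⁻¹ • x⟫ / h (‖x‖⁻¹ • x) ≤ t := hmax h1
      rw [H.hom _ (inv_pos.2 hxn), inner_smul_right,
        mul_div_mul_left _ _ (inv_ne_zero hxn.ne'), div_le_iff₀ (H.pos x hx)] at h2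
      exact h2
    have ht1 : t ≤ 1 := by
      rw [ht, div_le_one (H.pos v hv0)]
      exact hp v
    have ht0 : 0 < t := by
      by_contra hcon
      push Not at hcon
      have h1 := hle p
      rw [real_inner_self_eq_norm_sq] at h1
      have h2 := H.nonneg p
      nlinarith
    have hcrit : innerSL ℝ p - t • innerSL ℝ (G v) = 0 := by
      have hd : HasFDerivAt (fun x => ⟪p, x⟫ - t * h x) (innerSL ℝ p - t • innerSL ℝ (G v)) v := by
        have h1 : HasFDerivAt (fun x => ⟪p, x⟫) (innerSL ℝ p) v := (innerSL ℝ p).hasFDerivAt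
        exact h1.sub ((H.grad v hv0).const_mul t)
      have hlm : IsLocalMax (fun x => ⟪p, x⟫ - t * h x) v := by
        refine Filter.Eventually.of_forall fun x => ?_
        have h1 := hle x
        change ⟪p, x⟫ - t * h x ≤ ⟪p, v⟫ - t * h v
        rw [hpv]
        linarith
      have := hlm.hasFDerivAt_eq_zero hd
      exact this
    have hpG : p = t • G v := by
      apply ext_inner_right ℝ
      intro y
      have := congrArg (fun L => L y) hcrit
      simp only [sub_apply, smul_apply,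
        innerSL_apply_apply, zero_apply, smul_eq_mul] at this
      rw [inner_smul_left]
      simp only [conj_trivial]
      linarith
    refine ⟨t • v, ?_, ?_⟩
    · simp [norm_smul, hv1, abs_of_pos ht0, ht1]
    · rw [Psi, norm_smul, hv1, mul_one, Real.norm_eq_abs, abs_of_pos ht0, H.Ghom t ht0 v hv0, hpG]
  · rintro _ ⟨x, hx, rfl⟩
    exact H.psi_mem (by simpa using hx)

theorem Supp.isCompact (H : Supp h G) : IsCompact (Body h) := by
  obtain ⟨C, hC⟩ : ∃ C, ∀ v ∈ sphere (0 : E) 1, h v ≤ C := by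
    have hcomp : IsCompact (sphere (0 : E) 1) := isCompact_sphere _ _
    have hsub : sphere (0 : E) 1 ⊆ {x | x ≠ 0} := by
      intro x hx
      have : ‖x‖ = 1 := by simpa using hx
      intro h0
      rw [h0] at this
      simp at this
    obtain ⟨C, hC⟩ := hcomp.bddAbove_image (H.continuousOn.mono hsub)
    exact ⟨C, fun v hv => hC ⟨v, hv, rfl⟩⟩
  refine Metric.isCompact_of_isClosed_isBounded (isClosed_Body h) ?_
  refine (Metric.isBounded_closedBall (x := (0 : E)) (r := |C|)).subset ?_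
  intro p hp
  rw [mem_closedBall_zero_iff]
  by_cases hp0 : p = 0
  · rw [hp0, norm_zero]; positivity
  have hpn : 0 < ‖p‖ := norm_pos_iff.2 hp0
  have h1 : ‖p‖⁻¹ • p ∈ sphere (0 : E) 1 := by
    simp [norm_smul, inv_mul_cancel₀ hpn.ne']
  have h2 := hC _ h1
  have h3 := hp (‖p‖⁻¹ • p)
  rw [inner_smul_right, real_inner_self_eq_norm_sq] at h3
  have h4 : ‖p‖⁻¹ * ‖p‖ ^ 2 = ‖p‖ := by field_simp
  rw [h4] at h3
  exact (h3.trans h2).trans (le_abs_self C)

/-- adding a ball -/
theorem Supp.add_norm (H : Supp h G) {r : ℝ} (hr : 0 ≤ r) :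
    Supp (fun x => h x + r * ‖x‖) (fun x => G x + (r * ‖x‖⁻¹) • x) where
  hom t ht x := by
    simp only [H.hom t ht x, norm_smul, Real.norm_eq_abs, abs_of_pos ht]
    ring
  pos x hx := add_pos_of_pos_of_nonneg (H.pos x hx) (by positivity)
  grad x hx := by
    have h1 : HasFDerivAt (fun x : E => ‖x‖) (innerSL ℝ (‖x‖⁻¹ • x)) x := by
      have h2 := (hasStrictFDerivAt_norm_sq x).hasFDerivAt
      have hxn : 0 < ‖x‖ := norm_pos_iff.2 hx
      have h3 := h2.sqrt (by positivity : ‖x‖ ^ 2 ≠ 0)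
      have h4 : (fun y : E => Real.sqrt (‖y‖ ^ 2)) = fun y => ‖y‖ := by
        funext y; exact Real.sqrt_sq (norm_nonneg y)
      rw [h4, Real.sqrt_sq (norm_nonneg x)] at h3
      convert h3 using 1
      ext y
      simp
      field_simp
    have h5 := (H.grad x hx).add (h1.const_mul r)
    refine h5.congr_fderiv ?_
    simp only [map_add, mul_smul, map_smul]
  Ghom t ht x hx := by
    rw [H.Ghom t ht x hx, smul_smul, norm_smul, Real.norm_eq_abs, abs_of_pos ht]
    congr 2
    field_simp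
  euler x hx := by
    have hxn : 0 < ‖x‖ := norm_pos_iff.2 hx
    rw [inner_add_left, H.euler x hx, inner_smul_left, real_inner_self_eq_norm_sq]
    simp only [conj_trivial]
    field_simp
  le v hv x := by
    rw [inner_add_left, inner_smul_left]
    have h1 := H.le v hv x
    have hvn : 0 < ‖v‖ := norm_pos_iff.2 hv
    have h2 := real_inner_le_norm v x
    simp only [conj_trivial]
    have h3 : r * ‖v‖⁻¹ * ⟪v, x⟫ ≤ r * ‖v‖⁻¹ * (‖v‖ * ‖x‖) :=
      mul_le_mul_of_nonneg_left h2 (by positivity)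
    have h4 : r * ‖v‖⁻¹ * (‖v‖ * ‖x‖) = r * ‖x‖ := by field_simp
    linarith
  strict v hv x hx heq := by
    rw [inner_add_left, inner_smul_left] at heq
    have h1 := H.le v hv x
    have hvn : 0 < ‖v‖ := norm_pos_iff.2 hv
    have h2 := real_inner_le_norm v x
    simp only [conj_trivial] at heq
    have h3 : r * ‖v‖⁻¹ * ⟪v, x⟫ ≤ r * ‖v‖⁻¹ * (‖v‖ * ‖x‖) :=
      mul_le_mul_of_nonneg_left h2 (by positivity)
    have h4 : r * ‖v‖⁻¹ * (‖v‖ * ‖x‖) = r * ‖x‖ := by field_simp
    exact H.strict v hv x hx (by linarith)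

theorem Psi_add_norm (G : E → E) (r : ℝ) (x : E) :
    Psi (fun x => G x + (r * ‖x‖⁻¹) • x) x = Psi G x + r • x := by
  by_cases hx : x = 0
  · simp [hx, Psi]
  have hxn : 0 < ‖x‖ := norm_pos_iff.2 hx
  rw [Psi, smul_add, smul_smul, Psi]
  congr 2
  field_simp

theorem Supp.body_add (H : Supp h G) {r : ℝ} (hr : 0 ≤ r) :
    Body h + closedBall 0 r = Body (fun x => h x + r * ‖x‖) := by
  apply Subset.antisymm
  · rintro _ ⟨p, hp, q, hq, rfl⟩ x
    have h1 := hp x
    have h2 := real_inner_le_norm q x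
    have h3 : ‖q‖ ≤ r := by simpa using hq
    have h4 := norm_nonneg x
    simp only [inner_add_left]
    nlinarith
  · intro p hp
    rw [(H.add_norm hr).body_eq] at hp
    obtain ⟨x, hx, rfl⟩ := hp
    rw [Psi_add_norm]
    have hx' : ‖x‖ ≤ 1 := by simpa using hx
    refine ⟨_, H.psi_mem hx', r • x, ?_, rfl⟩
    simp only [mem_closedBall_zero_iff, norm_smul, Real.norm_eq_abs, abs_of_nonneg hr]
    nlinarith

section vol

variable [MeasurableSpace E] [BorelSpace E]

theorem Supp.vol [Nontrivial E] (H : Supp h G) {D : E → E →L[ℝ] E}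
    (hD : ∀ x, x ≠ 0 → HasFDerivAt (Psi G) (D x) x) :
    volume (Body h) = ∫⁻ x in closedBall 0 1, ENNReal.ofReal |(D x).det| := by
  have hms : MeasurableSet (closedBall (0 : E) 1 \ {0}) :=
    measurableSet_closedBall.diff (measurableSet_singleton _)
  have h1 : volume (Psi G '' (closedBall 0 1 \ {0})) =
      ∫⁻ x in closedBall 0 1 \ {0}, ENNReal.ofReal |(D x).det| := by
    symm
    apply lintegral_abs_det_fderiv_eq_addHaar_image volume hms
    · intro x hx
      exact (hD x hx.2).hasFDerivWithinAt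
    · exact H.inj.mono fun x hx => hx.2
  have h2 : Body h = insert 0 (Psi G '' (closedBall 0 1 \ {0})) := by
    rw [H.body_eq]
    have : closedBall (0 : E) 1 = insert 0 (closedBall 0 1 \ {0}) := by
      rw [insert_sdiff_singleton, insert_eq_of_mem]
      simp
    conv_lhs => rw [this]
    rw [image_insert_eq, Psi_zero]
  have h3 : volume (Body h) = volume (Psi G '' (closedBall 0 1 \ {0})) := by
    apply measure_congr
    rw [h2]
    exact insert_ae_eq_self _ _
  rw [h3, h1]
  apply setLIntegral_congr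
  exact sdiff_null_ae_eq_self (by simp)

end vol

end

end Pool.MP_f6b738_gt.IV
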