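import Pool.Agent.Work.MP_f6b738_gt.Polys

set_option autoImplicit false
open MeasureTheory Pointwise Set Metric MvPolynomial
open scoped RealInnerProductSpace

set_option linter.unusedSectionVars false

namespace Pool.MP_f6b738_gt.IV

abbrev E4 := EuclideanSpace ℝ (Fin 4)

noncomputable def frameMap (u : E4) : E3 →ₗ[ℝ] E4 where
  toFun y := !₂[-u 1 * y 0 - u 2 * y 1 - u 3 * y 2, u 0 * y 0 - u 3 * y 1 + u 2 * y 2,
    u 3 * y 0 + u 0 * y 1 - u 1 * y 2, -u 2 * y 0 + u 1 * y 1 + u 0 * y 2]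
  map_add' x y := by ext i; fin_cases i <;> simp <;> ring
  map_smul' c x := by ext i; fin_cases i <;> simp <;> ring

theorem norm_E4 (y : E4) : ‖y‖ = Real.sqrt (y 0 ^ 2 + y 1 ^ 2 + y 2 ^ 2 + y 3 ^ 2) := by
  rw [EuclideanSpace.norm_eq]
  simp [Fin.sum_univ_four]

theorem unit_sq {u : E4} (hu : ‖u‖ = 1) : u 0 ^ 2 + u 1 ^ 2 + u 2 ^ 2 + u 3 ^ 2 = 1 := by
  rw [norm_E4] at hu
  have h := congrArg (fun t => t ^ 2) hu
  simp only [one_pow] at h
  rwa [Real.sq_sqrt (by positivity)] at h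

/-- the quaternionic frame of `u^⊥`. -/
noncomputable def frame (u : E4) (hu : ‖u‖ = 1) : E3 →ₗᵢ[ℝ] E4 where
  toLinearMap := frameMap u
  norm_map' y := by
    rw [norm_E4, norm_E3]
    congr 1
    have h := unit_sq hu
    simp [frameMap]
    linear_combination (y 0 ^ 2 + y 1 ^ 2 + y 2 ^ 2) * h

theorem frame_apply (u : E4) (hu : ‖u‖ = 1) (y : E3) : frame u hu y =
    !₂[-u 1 * y 0 - u 2 * y 1 - u 3 * y 2, u 0 * y 0 - u 3 * y 1 + u 2 * y 2,
    u 3 * y 0 + u 0 * y 1 - u 1 * y 2, -u 2 * y 0 + u 1 * y 1 + u 0 * y 2] := rfl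

theorem frame_range (u : E4) (hu : ‖u‖ = 1) :
    (Submodule.span ℝ {u})ᗮ = LinearMap.range (frame u hu).toLinearMap := by
  symm
  have hu0 : u ≠ 0 := by
    intro h; rw [h, norm_zero] at hu; exact zero_ne_one hu
  apply Submodule.eq_of_le_of_finrank_eq
  · rintro _ ⟨y, rfl⟩
    rw [Submodule.mem_orthogonal_singleton_iff_inner_right]
    change ⟪u, frame u hu y⟫ = 0
    rw [frame_apply]
    simp [PiLp.inner_apply, Fin.sum_univ_four]
    ring
  · haveI : Fact (Module.finrank ℝ E4 = 3 + 1) := ⟨by simp⟩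
    rw [Submodule.finrank_orthogonal_span_singleton (n := 3) hu0,
      LinearMap.finrank_range_of_inj (frame u hu).injective]
    simp

theorem orth_finrank (u : E4) (hu : ‖u‖ = 1) :
    Module.finrank ℝ (LinearMap.range (frame u hu).toLinearMap)ᗮ = 1 := by
  have h1 := Submodule.finrank_add_finrank_orthogonal (LinearMap.range (frame u hu).toLinearMap)
  rw [LinearMap.finrank_range_of_inj (frame u hu).injective] at h1
  simp at h1
  omega

/-- the plane spanned by `e₀, e₃`. -/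
noncomputable def planeMap : EuclideanSpace ℝ (Fin 2) →ₗᵢ[ℝ] E4 where
  toFun y := !₂[y 0, 0, 0, y 1]
  map_add' x y := by ext i; fin_cases i <;> simp
  map_smul' c x := by ext i; fin_cases i <;> simp
  norm_map' y := by
    change ‖(!₂[y 0, 0, 0, y 1] : E4)‖ = ‖y‖
    rw [norm_E4, EuclideanSpace.norm_eq]
    simp [Fin.sum_univ_two]

theorem planeMap_apply (y : EuclideanSpace ℝ (Fin 2)) : planeMap y = !₂[y 0, 0, 0, y 1] := rfl

theorem plane_finrank : Module.finrank ℝ (LinearMap.range planeMap.toLinearMap) = 2 := by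
  rw [LinearMap.finrank_range_of_inj planeMap.injective]
  simp

theorem plane_orth_finrank : Module.finrank ℝ (LinearMap.range planeMap.toLinearMap)ᗮ = 2 := by
  have h1 := Submodule.finrank_add_finrank_orthogonal (LinearMap.range planeMap.toLinearMap)
  rw [plane_finrank] at h1
  simp at h1
  omega

/-! ### entries of the derivative -/

section

variable {m n : ℕ}

/-- the derivative matrix after restriction -/
noncomputable def WR (ι : EuclideanSpace ℝ (Fin m) →ₗᵢ[ℝ] EuclideanSpace ℝ (Fin n))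
    (P : MvPolynomial (Fin n) ℝ) (j : ℕ) (y : EuclideanSpace ℝ (Fin m)) :
    EuclideanSpace ℝ (Fin m) →L[ℝ] EuclideanSpace ℝ (Fin m) :=
  (adj ι).comp ((WW (ev P) (gradv P) (hessv P) j (ι y)).comp ι.toContinuousLinearMap)

/-- first derivatives -/
noncomputable def av (ι : EuclideanSpace ℝ (Fin m) →ₗᵢ[ℝ] EuclideanSpace ℝ (Fin n))
    (P : MvPolynomial (Fin n) ℝ) (y : EuclideanSpace ℝ (Fin m)) (i : Fin m) : ℝ :=
  ∑ l, ev (pderiv l P) (ι y) * (ι (EuclideanSpace.single i 1)) l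

/-- second derivatives -/
noncomputable def hv (ι : EuclideanSpace ℝ (Fin m) →ₗᵢ[ℝ] EuclideanSpace ℝ (Fin n))
    (P : MvPolynomial (Fin n) ℝ) (y : EuclideanSpace ℝ (Fin m)) (i k : Fin m) : ℝ :=
  ∑ l, (∑ r, ev (pderiv r (pderiv l P)) (ι y) * (ι (EuclideanSpace.single k 1)) r) *
    (ι (EuclideanSpace.single i 1)) l

theorem ent_WR (ι : EuclideanSpace ℝ (Fin m) →ₗᵢ[ℝ] EuclideanSpace ℝ (Fin n))
    (P : MvPolynomial (Fin n) ℝ) (j : ℕ) (y : EuclideanSpace ℝ (Fin m)) (i k : Fin m) :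
    ent (WR ι P j y) i k = (‖y‖⁻¹) ^ j * hv ι P y i k
      - j * (‖y‖⁻¹) ^ (j + 2) * y k * av ι P y i
      - (j + 1) * (‖y‖⁻¹) ^ (j + 2) * av ι P y k * y i
      + (j + 1) * (j + 2) * ev P (ι y) * (‖y‖⁻¹) ^ (j + 4) * y k * y i
      - (j + 1) * ev P (ι y) * (‖y‖⁻¹) ^ (j + 2) * (if i = k then 1 else 0) := by
  have hinner : ∀ (v : EuclideanSpace ℝ (Fin m)) (i : Fin m),
      v i = ⟪v, EuclideanSpace.single i (1 : ℝ)⟫ := by
    intro v i
    simp [EuclideanSpace.inner_single_right]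
  have h0 : ent (WR ι P j y) i k =
      ⟪WW (ev P) (gradv P) (hessv P) j (ι y) (ι (EuclideanSpace.single k 1)),
        ι (EuclideanSpace.single i 1)⟫ := by
    rw [ent, hinner, WR, ContinuousLinearMap.comp_apply, adj_inner]
    rfl
  have h1 : ⟪gradv P (ι y), ι (EuclideanSpace.single i 1)⟫ = av ι P y i := by
    simp [gradv, av, PiLp.inner_apply, mul_comm]
  have h1' : ⟪gradv P (ι y), ι (EuclideanSpace.single k 1)⟫ = av ι P y k := by
    simp [gradv, av, PiLp.inner_apply, mul_comm]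
  have h2 : ⟪hessv P (ι y) (ι (EuclideanSpace.single k 1)), ι (EuclideanSpace.single i 1)⟫ =
      hv ι P y i k := by
    simp [hessv, hv, PiLp.inner_apply, opOf_apply, mul_comm]
  have h3 : ⟪ι y, ι (EuclideanSpace.single k 1)⟫ = y k := by
    rw [ι.inner_map_map, ← hinner]
  have h4 : ⟪ι y, ι (EuclideanSpace.single i 1)⟫ = y i := by
    rw [ι.inner_map_map, ← hinner]
  have h5 : ⟪ι (EuclideanSpace.single k (1 : ℝ)), ι (EuclideanSpace.single i 1)⟫ =
      if i = k then 1 else 0 := by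
    rw [ι.inner_map_map, ← hinner]
    simp
  rw [h0, WW]
  simp only [sub_apply, add_apply, smul_apply, ContinuousLinearMap.smulRight_apply,
    innerSL_apply_apply, ContinuousLinearMap.id_apply, inner_sub_left, inner_add_left,
    inner_smul_left, conj_trivial]
  rw [h1, h1', h2, h3, h4, h5, ι.norm_map]
  ring

theorem WR_neg (ι : EuclideanSpace ℝ (Fin m) →ₗᵢ[ℝ] EuclideanSpace ℝ (Fin n))
    {P : MvPolynomial (Fin n) ℝ} {j : ℕ} (hP : P.IsHomogeneous (j + 2))
    (y : EuclideanSpace ℝ (Fin m)) :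
    WR ι P j (-y) = (-1 : ℝ) ^ j • WR ι P j y := by
  have h0 : ι (-y) = (-1 : ℝ) • ι y := by rw [map_neg, neg_one_smul]
  have h1 : WW (ev P) (gradv P) (hessv P) j ((-1 : ℝ) • ι y) =
      (-1 : ℝ) ^ j • WW (ev P) (gradv P) (hessv P) j (ι y) := by
    ext w : 1
    simp only [WW, ev_smul hP, gradv_smul hP, hessv_smul hP, sub_apply, add_apply, smul_apply,
      ContinuousLinearMap.smulRight_apply, innerSL_apply_apply, ContinuousLinearMap.id_apply,
      inner_smul_left, conj_trivial, norm_smul, norm_neg, norm_one, one_mul]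
    simp only [pow_succ]
    module
  rw [WR, h0, h1, WR]
  simp

end

end Pool.MP_f6b738_gt.IV
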