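import Pool.Agent.Work.MP_f6b738_gt.Body

set_option autoImplicit false
open MeasureTheory Pointwise Set Metric
open scoped RealInnerProductSpace

set_option linter.unusedSectionVars false

namespace Pool.MP_f6b738_gt.IV

section

variable {E : Type*} [NormedAddCommGroup E] [InnerProductSpace ℝ E] [FiniteDimensional ℝ E]
variable {E' : Type*} [NormedAddCommGroup E'] [InnerProductSpace ℝ E'] [FiniteDimensional ℝ E']
variable {h : E → ℝ} {G : E → E}

/-- adjoint of an isometry -/
noncomputable abbrev adj (ι : E' →ₗᵢ[ℝ] E) : E →L[ℝ] E' :=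
  ContinuousLinearMap.adjoint ι.toContinuousLinearMap

theorem adj_inner (ι : E' →ₗᵢ[ℝ] E) (x : E) (y : E') : ⟪adj ι x, y⟫ = ⟪x, ι y⟫ := by
  rw [adj, ContinuousLinearMap.adjoint_inner_left]
  rfl

theorem Supp.comp (H : Supp h G) (ι : E' →ₗᵢ[ℝ] E) :
    Supp (fun y => h (ι y)) (fun y => adj ι (G (ι y))) where
  hom t ht x := by simp only [map_smul]; exact H.hom t ht _
  pos x hx := H.pos _ ((map_ne_zero_iff ι ι.injective).2 hx)
  grad x hx := by
    have hx' : ι x ≠ 0 := (map_ne_zero_iff ι ι.injective).2 hx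
    have h1 := (H.grad _ hx').comp x ι.toContinuousLinearMap.hasFDerivAt
    refine h1.congr_fderiv ?_
    ext y
    simp only [ContinuousLinearMap.comp_apply, innerSL_apply_apply, adj_inner]
    rfl
  Ghom t ht x hx := by
    have hx' : ι x ≠ 0 := (map_ne_zero_iff ι ι.injective).2 hx
    simp only [map_smul, H.Ghom t ht _ hx']
  euler x hx := by
    have hx' : ι x ≠ 0 := (map_ne_zero_iff ι ι.injective).2 hx
    rw [adj_inner, H.euler _ hx']
  le v hv x := by
    have hv' : ι v ≠ 0 := (map_ne_zero_iff ι ι.injective).2 hv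
    rw [adj_inner]; exact H.le _ hv' _
  strict v hv x hx heq := by
    have hv' : ι v ≠ 0 := (map_ne_zero_iff ι ι.injective).2 hv
    have hx' : ι x ≠ 0 := (map_ne_zero_iff ι ι.injective).2 hx
    rw [adj_inner] at heq
    have h1 := H.strict _ hv' _ hx' heq
    rw [ι.norm_map, ι.norm_map, ← map_smul, ← map_smul] at h1
    exact ι.injective h1

/-- projections of bodies -/
theorem Supp.proj (H : Supp h G) (ι : E' →ₗᵢ[ℝ] E) (S : Submodule ℝ E)
    (hS : S = LinearMap.range ι.toLinearMap) :
    S.starProjection '' Body h = ι '' Body (fun y => h (ι y)) := by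
  subst hS
  set S : Submodule ℝ E := LinearMap.range ι.toLinearMap with hS
  apply Subset.antisymm
  · rintro _ ⟨p, hp, rfl⟩
    obtain ⟨y, hy⟩ : S.starProjection p ∈ S := S.starProjection_apply_mem p
    refine ⟨y, ?_, hy⟩
    intro x
    have h1 : ⟪y, x⟫ = ⟪S.starProjection p, ι x⟫ := by
      rw [← hy]; exact (ι.inner_map_map y x).symm
    have h2 : ⟪p - S.starProjection p, ι x⟫ = 0 :=
      Submodule.starProjection_inner_eq_zero p _ ⟨x, rfl⟩
    rw [inner_sub_left] at h2
    rw [h1]
    have h3 := hp (ι x)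
    linarith
  · rintro _ ⟨y, hy, rfl⟩
    -- Hahn–Banach
    let f : E →ₗ.[ℝ] ℝ := ⟨S, (innerₛₗ ℝ (ι y)).comp S.subtype⟩
    obtain ⟨g, hg1, hg2⟩ := exists_extension_of_le_sublinear f h (fun c hc x => H.hom c hc x)
      H.add_le (by
        rintro ⟨x, hx⟩
        obtain ⟨z, rfl⟩ := hx
        have h1 := hy z
        change ⟪ι y, ι z⟫ ≤ h (ι z)
        rw [ι.inner_map_map]
        exact h1)
    let p : E := (InnerProductSpace.toDual ℝ E).symm (LinearMap.toContinuousLinearMap g)
    have hpg : ∀ x, ⟪p, x⟫ = g x := by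
      intro x
      simp only [p, InnerProductSpace.toDual_symm_apply]
      rfl
    refine ⟨p, ?_, ?_⟩
    · intro x
      rw [hpg]; exact hg2 x
    · apply Submodule.eq_starProjection_of_mem_of_inner_eq_zero
      · exact ⟨y, rfl⟩
      · intro w hw
        rw [inner_sub_left, hpg]
        have := hg1 ⟨w, hw⟩
        rw [this]
        change ⟪ι y, w⟫ - ⟪ι y, w⟫ = 0
        ring

variable [MeasurableSpace E] [BorelSpace E] [MeasurableSpace E'] [BorelSpace E']

/-- Fubini for parallel bodies of lower dimensional sets. -/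
theorem fubini (ι : E' →ₗᵢ[ℝ] E) {K : Set E'} (hK : IsCompact K) {ε : ℝ} (hε : 0 ≤ ε) :
    volume (ι '' K + closedBall (0 : E) ε) =
      ∫⁻ b in closedBall (0 : (LinearMap.range ι.toLinearMap)ᗮ) ε,
        volume (K + closedBall (0 : E') (Real.sqrt (ε ^ 2 - ‖b‖ ^ 2))) := by
  set S : Submodule ℝ E := LinearMap.range ι.toLinearMap with hS
  set A : Set E := ι '' K + closedBall (0 : E) ε with hA
  let e : E' ≃ₗᵢ[ℝ] S := ι.equivRange
  have he : ∀ y, (e y : E) = ι y := fun y => rfl
  have hAc : IsClosed A := by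
    have h1 : IsCompact (ι '' K) := hK.image ι.continuous
    exact (h1.add (isCompact_closedBall _ _)).isClosed
  let T : Set (E' × Sᗮ) := (fun z : E' × Sᗮ => ι z.1 + (z.2 : E)) ⁻¹' A
  have hT : IsClosed T := hAc.preimage (by fun_prop)
  have mp : MeasurePreserving (fun x : E => (e.symm (S.orthogonalProjectionOnto x),
      Sᗮ.orthogonalProjectionOnto x)) volume (volume.prod volume) := by
    have h1 : MeasurePreserving (fun x : E => (S.orthogonalProjectionOnto x,
      Sᗮ.orthogonalProjectionOnto x)) volume (volume.prod volume) := by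
      have h2 := (WithLp.volume_preserving_ofLp S Sᗮ).comp
        S.orthogonalDecomposition.measurePreserving
      have h3 : (WithLp.ofLp ∘ S.orthogonalDecomposition : E → S × Sᗮ) =
          fun x : E => (S.orthogonalProjectionOnto x, Sᗮ.orthogonalProjectionOnto x) := by
        funext x
        simp
      rw [h3] at h2
      exact h2
    have h3 : MeasurePreserving (Prod.map e.symm id : S × Sᗮ → E' × Sᗮ)
        (volume.prod volume) (volume.prod volume) :=
      (e.symm.measurePreserving).prod (MeasurePreserving.id _)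
    exact h3.comp h1
  have hAT : A = (fun x : E => (e.symm (S.orthogonalProjectionOnto x),
      Sᗮ.orthogonalProjectionOnto x)) ⁻¹' T := by
    ext x
    simp only [T, mem_preimage]
    have h1 : ι (e.symm (S.orthogonalProjectionOnto x)) = S.orthogonalProjectionOnto x := by
      rw [← he, e.apply_symm_apply]
    rw [h1]
    have h2 : (S.orthogonalProjectionOnto x : E) + (Sᗮ.orthogonalProjectionOnto x : E) = x := by
      have := S.starProjection_add_starProjection_orthogonal x
      exact this
    rw [h2]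
  rw [hAT, mp.measure_preimage hT.measurableSet.nullMeasurableSet,
    Measure.prod_apply_symm hT.measurableSet]
  have hslice : ∀ b : Sᗮ, volume ((fun y : E' => (y, b)) ⁻¹' T) =
      (closedBall (0 : Sᗮ) ε).indicator
        (fun b => volume (K + closedBall (0 : E') (Real.sqrt (ε ^ 2 - ‖b‖ ^ 2)))) b := by
    intro b
    have hpyth : ∀ y k : E', ‖ι y + (b : E) - ι k‖ ^ 2 = ‖y - k‖ ^ 2 + ‖b‖ ^ 2 := by
      intro y k
      have h1 : ι y + (b : E) - ι k = ι (y - k) + (b : E) := by
        rw [map_sub]; abel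
      have h2 : ⟪ι (y - k), (b : E)⟫ = 0 :=
        Submodule.inner_right_of_mem_orthogonal (K := S) ⟨y - k, rfl⟩ b.2
      rw [h1, norm_add_sq_real, h2, ι.norm_map]
      simp
    by_cases hb : b ∈ closedBall (0 : Sᗮ) ε
    · rw [indicator_of_mem hb]
      have hb' : ‖b‖ ≤ ε := by simpa using hb
      have hnn : 0 ≤ ε ^ 2 - ‖b‖ ^ 2 := by
        have := norm_nonneg b
        nlinarith
      congr 1
      ext y
      simp only [mem_preimage, T]
      constructor
      · rintro ⟨_, ⟨k, hk, rfl⟩, q, hq, hkq⟩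
        have hkq' : ι k + q = ι y + (b : E) := hkq
        refine ⟨k, hk, y - k, ?_, add_sub_cancel _ _⟩
        rw [mem_closedBall_zero_iff] at hq ⊢
        apply Real.le_sqrt_of_sq_le
        have h1 := hpyth y k
        have h2 : ι y + (b : E) - ι k = q := by rw [← hkq']; abel
        rw [h2] at h1
        have := norm_nonneg q
        nlinarith
      · rintro ⟨k, hk, q, hq, rfl⟩
        refine ⟨ι k, ⟨k, hk, rfl⟩, ι q + (b : E), ?_, ?_⟩
        · rw [mem_closedBall_zero_iff] at hq ⊢
          have h1 := hpyth (k + q) k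
          have h2 : ι (k + q) + (b : E) - ι k = ι q + (b : E) := by rw [map_add]; abel
          rw [h2, add_sub_cancel_left] at h1
          have h3 : ‖q‖ ^ 2 ≤ ε ^ 2 - ‖b‖ ^ 2 := by
            have := Real.sq_sqrt hnn
            rw [← this]
            exact pow_le_pow_left₀ (norm_nonneg q) hq 2
          exact le_of_sq_le_sq (by linarith) hε
        · change ι k + (ι q + (b : E)) = ι (k + q) + (b : E)
          rw [map_add]; abel
    · rw [indicator_of_notMem hb]
      have hb' : ε < ‖b‖ := by simpa using hb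
      have : (fun y : E' => (y, b)) ⁻¹' T = ∅ := by
        rw [Set.eq_empty_iff_forall_notMem]
        rintro y ⟨_, ⟨k, hk, rfl⟩, q, hq, hkq⟩
        have hkq' : ι k + q = ι y + (b : E) := hkq
        rw [mem_closedBall_zero_iff] at hq
        have h1 := hpyth y k
        have h2 : ι y + (b : E) - ι k = q := by rw [← hkq']; abel
        rw [h2] at h1
        have h3 := norm_nonneg q
        nlinarith [sq_nonneg ‖y - k‖]
      rw [this, measure_empty]
  simp_rw [hslice]
  rw [lintegral_indicator measurableSet_closedBall]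

end

/-- the constants of the parallel volume -/
noncomputable def ck (F : Type*) [NormedAddCommGroup F] [InnerProductSpace ℝ F]
    [FiniteDimensional ℝ F] [MeasurableSpace F] [BorelSpace F] (k : ℕ) : ℝ :=
  ∫ b in closedBall (0 : F) 1, (Real.sqrt (1 - ‖b‖ ^ 2)) ^ k

section scale

variable {F : Type*} [NormedAddCommGroup F] [InnerProductSpace ℝ F]
    [FiniteDimensional ℝ F] [MeasurableSpace F] [BorelSpace F]

theorem ck_scale [Nontrivial F] (k : ℕ) {ε : ℝ} (hε : 0 ≤ ε) :
    ∫ b in closedBall (0 : F) ε, (Real.sqrt (ε ^ 2 - ‖b‖ ^ 2)) ^ k =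
      ck F k * ε ^ (k + Module.finrank ℝ F) := by
  rcases hε.eq_or_lt with h0 | hpos
  · subst h0
    have h1 : volume (closedBall (0 : F) 0) = 0 := by
      rw [closedBall_zero]; simp
    rw [Measure.restrict_eq_zero.2 h1, integral_zero_measure]
    have : 0 < Module.finrank ℝ F := Module.finrank_pos
    rw [zero_pow (by omega), mul_zero]
  · have h1 := Measure.setIntegral_comp_smul_of_pos (volume : Measure F)
      (fun b => (Real.sqrt (ε ^ 2 - ‖b‖ ^ 2)) ^ k) (closedBall (0 : F) 1) hpos
    rw [smul_closedBall ε (0 : F) zero_le_one, smul_zero, Real.norm_eq_abs, abs_of_pos hpos,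
      mul_one] at h1
    have h2 : ∀ x : F, (Real.sqrt (ε ^ 2 - ‖ε • x‖ ^ 2)) ^ k =
        ε ^ k * (Real.sqrt (1 - ‖x‖ ^ 2)) ^ k := by
      intro x
      rw [norm_smul, Real.norm_eq_abs, abs_of_pos hpos, ← mul_pow]
      congr 1
      rw [show ε ^ 2 - (ε * ‖x‖) ^ 2 = ε ^ 2 * (1 - ‖x‖ ^ 2) by ring,
        Real.sqrt_mul (by positivity), Real.sqrt_sq hε]
    simp_rw [h2] at h1
    rw [integral_const_mul] at h1
    have hp : ε ^ Module.finrank ℝ F ≠ 0 := by positivity
    rw [smul_eq_mul, eq_inv_mul_iff_mul_eq₀ hp] at h1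
    rw [← h1, ck, pow_add]
    ring

end scale

end Pool.MP_f6b738_gt.IV
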