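import Pool.Agent.Work.MP_f6b738_gt.Frame

set_option autoImplicit false
open MeasureTheory Pointwise Set Metric MvPolynomial
open scoped RealInnerProductSpace

set_option linter.unusedSectionVars false
set_option maxHeartbeats 4000000
set_option maxRecDepth 100000

namespace Pool.MP_f6b738_gt.IV

def c00 (u0 u1 u2 u3 : ℝ) : ℝ :=
  -2 * u0 ^ 6 + 31 * u0 ^ 4 * u1 ^ 2 + 31 * u0 ^ 4 * u2 ^ 2 - 2 * u0 ^ 4 * u3 ^ 2 + 68 * u0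
      ^ 2 * u1 ^ 4 - 264 * u0 ^ 2 * u1 ^ 2 * u2 ^ 2 + 150 * u0 ^ 2 * u1 ^ 2 * u3 ^ 2 + 68 * u0 ^
      2 * u2 ^ 4 + 150 * u0 ^ 2 * u2 ^ 2 * u3 ^ 2 + 2 * u0 ^ 2 * u3 ^ 4 + 30 * u0 * u1 ^ 3 * u2
      * u3 - 30 * u0 * u1 * u2 ^ 3 * u3 + 35 * u1 ^ 6 + 125 * u1 ^ 4 * u2 ^ 2 - 268 * u1 ^ 4 *
      u3 ^ 2 + 125 * u1 ^ 2 * u2 ^ 4 - 1536 * u1 ^ 2 * u2 ^ 2 * u3 ^ 2 + 119 * u1 ^ 2 * u3 ^ 4 +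
      35 * u2 ^ 6 - 268 * u2 ^ 4 * u3 ^ 2 + 119 * u2 ^ 2 * u3 ^ 4 + 2 * u3 ^ 6

def c01 (u0 u1 u2 u3 : ℝ) : ℝ :=
  -74 * u0 ^ 5 * u1 - 60 * u0 ^ 4 * u2 * u3 - 148 * u0 ^ 3 * u1 ^ 3 + 592 * u0 ^ 3 * u1 * u2
      ^ 2 - 248 * u0 ^ 3 * u1 * u3 ^ 2 + 780 * u0 ^ 2 * u1 ^ 2 * u2 * u3 + 130 * u0 ^ 2 * u2 ^ 3
      * u3 - 220 * u0 ^ 2 * u2 * u3 ^ 3 - 74 * u0 * u1 ^ 5 - 218 * u0 * u1 ^ 3 * u2 ^ 2 + 562 *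
      u0 * u1 ^ 3 * u3 ^ 2 - 204 * u0 * u1 * u2 ^ 4 + 3462 * u0 * u1 * u2 ^ 2 * u3 ^ 2 - 174 *
      u0 * u1 * u3 ^ 4 - 780 * u1 ^ 4 * u2 * u3 - 3500 * u1 ^ 2 * u2 ^ 3 * u3 + 3650 * u1 ^ 2 *
      u2 * u3 ^ 3 - 680 * u2 ^ 5 * u3 + 840 * u2 ^ 3 * u3 ^ 3 - 160 * u2 * u3 ^ 5

def c02 (u0 u1 u2 u3 : ℝ) : ℝ :=
  31 * u0 ^ 6 + 130 * u0 ^ 4 * u1 ^ 2 - 233 * u0 ^ 4 * u2 ^ 2 + 148 * u0 ^ 4 * u3 ^ 2 - 1650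
      * u0 ^ 3 * u1 * u2 * u3 + 167 * u0 ^ 2 * u1 ^ 4 - 12 * u0 ^ 2 * u1 ^ 2 * u2 ^ 2 - 330 * u0
      ^ 2 * u1 ^ 2 * u3 ^ 2 + 371 * u0 ^ 2 * u2 ^ 4 - 1806 * u0 ^ 2 * u2 ^ 2 * u3 ^ 2 + 203 * u0
      ^ 2 * u3 ^ 4 + 1680 * u0 * u1 ^ 3 * u2 * u3 + 7530 * u0 * u1 * u2 ^ 3 * u3 - 7560 * u0 *
      u1 * u2 * u3 ^ 3 + 68 * u1 ^ 6 - 139 * u1 ^ 4 * u2 ^ 2 - 118 * u1 ^ 4 * u3 ^ 2 - 1462 * u1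
      ^ 2 * u2 ^ 4 + 7848 * u1 ^ 2 * u2 ^ 2 * u3 ^ 2 - 1570 * u1 ^ 2 * u3 ^ 4 - 235 * u2 ^ 6 +
      1316 * u2 ^ 4 * u3 ^ 2 - 463 * u2 ^ 2 * u3 ^ 4 + 86 * u3 ^ 6

def c03 (u0 u1 u2 u3 : ℝ) : ℝ :=
  -148 * u0 ^ 5 * u1 + 720 * u0 ^ 4 * u2 * u3 - 296 * u0 ^ 3 * u1 ^ 3 + 374 * u0 ^ 3 * u1 *
      u2 ^ 2 + 314 * u0 ^ 3 * u1 * u3 ^ 2 - 3930 * u0 ^ 2 * u2 ^ 3 * u3 + 3690 * u0 ^ 2 * u2 *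
      u3 ^ 3 - 148 * u0 * u1 ^ 5 + 374 * u0 * u1 ^ 3 * u2 ^ 2 + 314 * u0 * u1 ^ 3 * u3 ^ 2 +
      3372 * u0 * u1 * u2 ^ 4 - 15756 * u0 * u1 * u2 ^ 2 * u3 ^ 2 + 3432 * u0 * u1 * u3 ^ 4 -
      720 * u1 ^ 4 * u2 * u3 + 3930 * u1 ^ 2 * u2 ^ 3 * u3 - 3690 * u1 ^ 2 * u2 * u3 ^ 3

def c04 (u0 u1 u2 u3 : ℝ) : ℝ :=
  68 * u0 ^ 6 + 167 * u0 ^ 4 * u1 ^ 2 - 139 * u0 ^ 4 * u2 ^ 2 - 118 * u0 ^ 4 * u3 ^ 2 - 1680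
      * u0 ^ 3 * u1 * u2 * u3 + 130 * u0 ^ 2 * u1 ^ 4 - 12 * u0 ^ 2 * u1 ^ 2 * u2 ^ 2 - 330 * u0
      ^ 2 * u1 ^ 2 * u3 ^ 2 - 1462 * u0 ^ 2 * u2 ^ 4 + 7848 * u0 ^ 2 * u2 ^ 2 * u3 ^ 2 - 1570 *
      u0 ^ 2 * u3 ^ 4 + 1650 * u0 * u1 ^ 3 * u2 * u3 - 7530 * u0 * u1 * u2 ^ 3 * u3 + 7560 * u0
      * u1 * u2 * u3 ^ 3 + 31 * u1 ^ 6 - 233 * u1 ^ 4 * u2 ^ 2 + 148 * u1 ^ 4 * u3 ^ 2 + 371 *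
      u1 ^ 2 * u2 ^ 4 - 1806 * u1 ^ 2 * u2 ^ 2 * u3 ^ 2 + 203 * u1 ^ 2 * u3 ^ 4 - 235 * u2 ^ 6 +
      1316 * u2 ^ 4 * u3 ^ 2 - 463 * u2 ^ 2 * u3 ^ 4 + 86 * u3 ^ 6

def c05 (u0 u1 u2 u3 : ℝ) : ℝ :=
  -74 * u0 ^ 5 * u1 + 780 * u0 ^ 4 * u2 * u3 - 148 * u0 ^ 3 * u1 ^ 3 - 218 * u0 ^ 3 * u1 *
      u2 ^ 2 + 562 * u0 ^ 3 * u1 * u3 ^ 2 - 780 * u0 ^ 2 * u1 ^ 2 * u2 * u3 + 3500 * u0 ^ 2 * u2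
      ^ 3 * u3 - 3650 * u0 ^ 2 * u2 * u3 ^ 3 - 74 * u0 * u1 ^ 5 + 592 * u0 * u1 ^ 3 * u2 ^ 2 -
      248 * u0 * u1 ^ 3 * u3 ^ 2 - 204 * u0 * u1 * u2 ^ 4 + 3462 * u0 * u1 * u2 ^ 2 * u3 ^ 2 -
      174 * u0 * u1 * u3 ^ 4 + 60 * u1 ^ 4 * u2 * u3 - 130 * u1 ^ 2 * u2 ^ 3 * u3 + 220 * u1 ^ 2
      * u2 * u3 ^ 3 + 680 * u2 ^ 5 * u3 - 840 * u2 ^ 3 * u3 ^ 3 + 160 * u2 * u3 ^ 5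

def c06 (u0 u1 u2 u3 : ℝ) : ℝ :=
  35 * u0 ^ 6 + 68 * u0 ^ 4 * u1 ^ 2 + 125 * u0 ^ 4 * u2 ^ 2 - 268 * u0 ^ 4 * u3 ^ 2 - 30 *
      u0 ^ 3 * u1 * u2 * u3 + 31 * u0 ^ 2 * u1 ^ 4 - 264 * u0 ^ 2 * u1 ^ 2 * u2 ^ 2 + 150 * u0 ^
      2 * u1 ^ 2 * u3 ^ 2 + 125 * u0 ^ 2 * u2 ^ 4 - 1536 * u0 ^ 2 * u2 ^ 2 * u3 ^ 2 + 119 * u0 ^
      2 * u3 ^ 4 + 30 * u0 * u1 * u2 ^ 3 * u3 - 2 * u1 ^ 6 + 31 * u1 ^ 4 * u2 ^ 2 - 2 * u1 ^ 4 *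
      u3 ^ 2 + 68 * u1 ^ 2 * u2 ^ 4 + 150 * u1 ^ 2 * u2 ^ 2 * u3 ^ 2 + 2 * u1 ^ 2 * u3 ^ 4 + 35
      * u2 ^ 6 - 268 * u2 ^ 4 * u3 ^ 2 + 119 * u2 ^ 2 * u3 ^ 4 + 2 * u3 ^ 6

def c10 (u0 u1 u2 u3 : ℝ) : ℝ :=
  74 * u0 ^ 5 * u2 - 60 * u0 ^ 4 * u1 * u3 - 592 * u0 ^ 3 * u1 ^ 2 * u2 + 148 * u0 ^ 3 * u2
      ^ 3 + 248 * u0 ^ 3 * u2 * u3 ^ 2 + 130 * u0 ^ 2 * u1 ^ 3 * u3 + 780 * u0 ^ 2 * u1 * u2 ^ 2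
      * u3 - 220 * u0 ^ 2 * u1 * u3 ^ 3 + 204 * u0 * u1 ^ 4 * u2 + 218 * u0 * u1 ^ 2 * u2 ^ 3 -
      3462 * u0 * u1 ^ 2 * u2 * u3 ^ 2 + 74 * u0 * u2 ^ 5 - 562 * u0 * u2 ^ 3 * u3 ^ 2 + 174 *
      u0 * u2 * u3 ^ 4 - 680 * u1 ^ 5 * u3 - 3500 * u1 ^ 3 * u2 ^ 2 * u3 + 840 * u1 ^ 3 * u3 ^ 3
      - 780 * u1 * u2 ^ 4 * u3 + 3650 * u1 * u2 ^ 2 * u3 ^ 3 - 160 * u1 * u3 ^ 5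

def c11 (u0 u1 u2 u3 : ℝ) : ℝ :=
  1374 * u0 ^ 4 * u1 * u2 + 360 * u0 ^ 3 * u1 ^ 2 * u3 - 360 * u0 ^ 3 * u2 ^ 2 * u3 - 102 *
      u0 ^ 2 * u1 ^ 3 * u2 - 102 * u0 ^ 2 * u1 * u2 ^ 3 + 5358 * u0 ^ 2 * u1 * u2 * u3 ^ 2 +
      1230 * u0 * u1 ^ 4 * u3 + 2580 * u0 * u1 ^ 2 * u3 ^ 3 - 1230 * u0 * u2 ^ 4 * u3 - 2580 *
      u0 * u2 ^ 2 * u3 ^ 3 - 606 * u1 ^ 5 * u2 - 3252 * u1 ^ 3 * u2 ^ 3 + 9108 * u1 ^ 3 * u2 *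
      u3 ^ 2 - 606 * u1 * u2 ^ 5 + 9108 * u1 * u2 ^ 3 * u3 ^ 2 - 7836 * u1 * u2 * u3 ^ 4

def c12 (u0 u1 u2 u3 : ℝ) : ℝ :=
  -532 * u0 ^ 5 * u2 - 1290 * u0 ^ 4 * u1 * u3 - 694 * u0 ^ 3 * u1 ^ 2 * u2 + 676 * u0 ^ 3 *
      u2 ^ 3 - 1984 * u0 ^ 3 * u2 * u3 ^ 2 - 230 * u0 ^ 2 * u1 ^ 3 * u3 + 12120 * u0 ^ 2 * u1 *
      u2 ^ 2 * u3 - 6580 * u0 ^ 2 * u1 * u3 ^ 3 + 1578 * u0 * u1 ^ 4 * u2 + 3896 * u0 * u1 ^ 2 *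
      u2 ^ 3 - 9444 * u0 * u1 ^ 2 * u2 * u3 ^ 2 - 532 * u0 * u2 ^ 5 - 6574 * u0 * u2 ^ 3 * u3 ^
      2 + 7458 * u0 * u2 * u3 ^ 4 - 680 * u1 ^ 5 * u3 + 8200 * u1 ^ 3 * u2 ^ 2 * u3 - 2940 * u1
      ^ 3 * u3 ^ 3 + 4230 * u1 * u2 ^ 4 * u3 - 16450 * u1 * u2 ^ 2 * u3 ^ 3 + 3620 * u1 * u3 ^ 5

def c13 (u0 u1 u2 u3 : ℝ) : ℝ :=
  680 * u0 ^ 5 * u3 + 1578 * u0 ^ 4 * u1 * u2 + 230 * u0 ^ 3 * u1 ^ 2 * u3 - 8200 * u0 ^ 3 *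
      u2 ^ 2 * u3 + 2940 * u0 ^ 3 * u3 ^ 3 - 694 * u0 ^ 2 * u1 ^ 3 * u2 + 3896 * u0 ^ 2 * u1 *
      u2 ^ 3 - 9444 * u0 ^ 2 * u1 * u2 * u3 ^ 2 + 1290 * u0 * u1 ^ 4 * u3 - 12120 * u0 * u1 ^ 2
      * u2 ^ 2 * u3 + 6580 * u0 * u1 ^ 2 * u3 ^ 3 - 4230 * u0 * u2 ^ 4 * u3 + 16450 * u0 * u2 ^
      2 * u3 ^ 3 - 3620 * u0 * u3 ^ 5 - 532 * u1 ^ 5 * u2 + 676 * u1 ^ 3 * u2 ^ 3 - 1984 * u1 ^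
      3 * u2 * u3 ^ 2 - 532 * u1 * u2 ^ 5 - 6574 * u1 * u2 ^ 3 * u3 ^ 2 + 7458 * u1 * u2 * u3 ^
      4

def c14 (u0 u1 u2 u3 : ℝ) : ℝ :=
  -606 * u0 ^ 5 * u2 - 1230 * u0 ^ 4 * u1 * u3 - 102 * u0 ^ 3 * u1 ^ 2 * u2 - 3252 * u0 ^ 3
      * u2 ^ 3 + 9108 * u0 ^ 3 * u2 * u3 ^ 2 - 360 * u0 ^ 2 * u1 ^ 3 * u3 - 2580 * u0 ^ 2 * u1 *
      u3 ^ 3 + 1374 * u0 * u1 ^ 4 * u2 - 102 * u0 * u1 ^ 2 * u2 ^ 3 + 5358 * u0 * u1 ^ 2 * u2 *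
      u3 ^ 2 - 606 * u0 * u2 ^ 5 + 9108 * u0 * u2 ^ 3 * u3 ^ 2 - 7836 * u0 * u2 * u3 ^ 4 + 360 *
      u1 ^ 3 * u2 ^ 2 * u3 + 1230 * u1 * u2 ^ 4 * u3 + 2580 * u1 * u2 ^ 2 * u3 ^ 3

def c15 (u0 u1 u2 u3 : ℝ) : ℝ :=
  680 * u0 ^ 5 * u3 + 204 * u0 ^ 4 * u1 * u2 - 130 * u0 ^ 3 * u1 ^ 2 * u3 + 3500 * u0 ^ 3 *
      u2 ^ 2 * u3 - 840 * u0 ^ 3 * u3 ^ 3 - 592 * u0 ^ 2 * u1 ^ 3 * u2 + 218 * u0 ^ 2 * u1 * u2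
      ^ 3 - 3462 * u0 ^ 2 * u1 * u2 * u3 ^ 2 + 60 * u0 * u1 ^ 4 * u3 - 780 * u0 * u1 ^ 2 * u2 ^
      2 * u3 + 220 * u0 * u1 ^ 2 * u3 ^ 3 + 780 * u0 * u2 ^ 4 * u3 - 3650 * u0 * u2 ^ 2 * u3 ^ 3
      + 160 * u0 * u3 ^ 5 + 74 * u1 ^ 5 * u2 + 148 * u1 ^ 3 * u2 ^ 3 + 248 * u1 ^ 3 * u2 * u3 ^
      2 + 74 * u1 * u2 ^ 5 - 562 * u1 * u2 ^ 3 * u3 ^ 2 + 174 * u1 * u2 * u3 ^ 4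

def c20 (u0 u1 u2 u3 : ℝ) : ℝ :=
  31 * u0 ^ 6 - 233 * u0 ^ 4 * u1 ^ 2 + 130 * u0 ^ 4 * u2 ^ 2 + 148 * u0 ^ 4 * u3 ^ 2 + 1650
      * u0 ^ 3 * u1 * u2 * u3 + 371 * u0 ^ 2 * u1 ^ 4 - 12 * u0 ^ 2 * u1 ^ 2 * u2 ^ 2 - 1806 *
      u0 ^ 2 * u1 ^ 2 * u3 ^ 2 + 167 * u0 ^ 2 * u2 ^ 4 - 330 * u0 ^ 2 * u2 ^ 2 * u3 ^ 2 + 203 *
      u0 ^ 2 * u3 ^ 4 - 7530 * u0 * u1 ^ 3 * u2 * u3 - 1680 * u0 * u1 * u2 ^ 3 * u3 + 7560 * u0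
      * u1 * u2 * u3 ^ 3 - 235 * u1 ^ 6 - 1462 * u1 ^ 4 * u2 ^ 2 + 1316 * u1 ^ 4 * u3 ^ 2 - 139
      * u1 ^ 2 * u2 ^ 4 + 7848 * u1 ^ 2 * u2 ^ 2 * u3 ^ 2 - 463 * u1 ^ 2 * u3 ^ 4 + 68 * u2 ^ 6
      - 118 * u2 ^ 4 * u3 ^ 2 - 1570 * u2 ^ 2 * u3 ^ 4 + 86 * u3 ^ 6

def c21 (u0 u1 u2 u3 : ℝ) : ℝ :=
  532 * u0 ^ 5 * u1 - 1290 * u0 ^ 4 * u2 * u3 - 676 * u0 ^ 3 * u1 ^ 3 + 694 * u0 ^ 3 * u1 *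
      u2 ^ 2 + 1984 * u0 ^ 3 * u1 * u3 ^ 2 + 12120 * u0 ^ 2 * u1 ^ 2 * u2 * u3 - 230 * u0 ^ 2 *
      u2 ^ 3 * u3 - 6580 * u0 ^ 2 * u2 * u3 ^ 3 + 532 * u0 * u1 ^ 5 - 3896 * u0 * u1 ^ 3 * u2 ^
      2 + 6574 * u0 * u1 ^ 3 * u3 ^ 2 - 1578 * u0 * u1 * u2 ^ 4 + 9444 * u0 * u1 * u2 ^ 2 * u3 ^
      2 - 7458 * u0 * u1 * u3 ^ 4 + 4230 * u1 ^ 4 * u2 * u3 + 8200 * u1 ^ 2 * u2 ^ 3 * u3 -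
      16450 * u1 ^ 2 * u2 * u3 ^ 3 - 680 * u2 ^ 5 * u3 - 2940 * u2 ^ 3 * u3 ^ 3 + 3620 * u2 * u3
      ^ 5

def c22 (u0 u1 u2 u3 : ℝ) : ℝ :=
  -204 * u0 ^ 6 + 138 * u0 ^ 4 * u1 ^ 2 + 138 * u0 ^ 4 * u2 ^ 2 - 6 * u0 ^ 4 * u3 ^ 2 + 138
      * u0 ^ 2 * u1 ^ 4 + 12096 * u0 ^ 2 * u1 ^ 2 * u2 ^ 2 - 15732 * u0 ^ 2 * u1 ^ 2 * u3 ^ 2 +
      138 * u0 ^ 2 * u2 ^ 4 - 15732 * u0 ^ 2 * u2 ^ 2 * u3 ^ 2 + 7380 * u0 ^ 2 * u3 ^ 4 - 204 *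
      u1 ^ 6 + 138 * u1 ^ 4 * u2 ^ 2 - 6 * u1 ^ 4 * u3 ^ 2 + 138 * u1 ^ 2 * u2 ^ 4 - 15732 * u1
      ^ 2 * u2 ^ 2 * u3 ^ 2 + 7380 * u1 ^ 2 * u3 ^ 4 - 204 * u2 ^ 6 - 6 * u2 ^ 4 * u3 ^ 2 + 7380
      * u2 ^ 2 * u3 ^ 4 - 1638 * u3 ^ 6

def c23 (u0 u1 u2 u3 : ℝ) : ℝ :=
  532 * u0 ^ 5 * u1 - 4230 * u0 ^ 4 * u2 * u3 - 676 * u0 ^ 3 * u1 ^ 3 - 3896 * u0 ^ 3 * u1 *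
      u2 ^ 2 + 6574 * u0 ^ 3 * u1 * u3 ^ 2 - 12120 * u0 ^ 2 * u1 ^ 2 * u2 * u3 - 8200 * u0 ^ 2 *
      u2 ^ 3 * u3 + 16450 * u0 ^ 2 * u2 * u3 ^ 3 + 532 * u0 * u1 ^ 5 + 694 * u0 * u1 ^ 3 * u2 ^
      2 + 1984 * u0 * u1 ^ 3 * u3 ^ 2 - 1578 * u0 * u1 * u2 ^ 4 + 9444 * u0 * u1 * u2 ^ 2 * u3 ^
      2 - 7458 * u0 * u1 * u3 ^ 4 + 1290 * u1 ^ 4 * u2 * u3 + 230 * u1 ^ 2 * u2 ^ 3 * u3 + 6580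
      * u1 ^ 2 * u2 * u3 ^ 3 + 680 * u2 ^ 5 * u3 + 2940 * u2 ^ 3 * u3 ^ 3 - 3620 * u2 * u3 ^ 5

def c24 (u0 u1 u2 u3 : ℝ) : ℝ :=
  -235 * u0 ^ 6 + 371 * u0 ^ 4 * u1 ^ 2 - 1462 * u0 ^ 4 * u2 ^ 2 + 1316 * u0 ^ 4 * u3 ^ 2 +
      7530 * u0 ^ 3 * u1 * u2 * u3 - 233 * u0 ^ 2 * u1 ^ 4 - 12 * u0 ^ 2 * u1 ^ 2 * u2 ^ 2 -
      1806 * u0 ^ 2 * u1 ^ 2 * u3 ^ 2 - 139 * u0 ^ 2 * u2 ^ 4 + 7848 * u0 ^ 2 * u2 ^ 2 * u3 ^ 2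
      - 463 * u0 ^ 2 * u3 ^ 4 - 1650 * u0 * u1 ^ 3 * u2 * u3 + 1680 * u0 * u1 * u2 ^ 3 * u3 -
      7560 * u0 * u1 * u2 * u3 ^ 3 + 31 * u1 ^ 6 + 130 * u1 ^ 4 * u2 ^ 2 + 148 * u1 ^ 4 * u3 ^ 2
      + 167 * u1 ^ 2 * u2 ^ 4 - 330 * u1 ^ 2 * u2 ^ 2 * u3 ^ 2 + 203 * u1 ^ 2 * u3 ^ 4 + 68 * u2
      ^ 6 - 118 * u2 ^ 4 * u3 ^ 2 - 1570 * u2 ^ 2 * u3 ^ 4 + 86 * u3 ^ 6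

def c30 (u0 u1 u2 u3 : ℝ) : ℝ :=
  148 * u0 ^ 5 * u2 + 720 * u0 ^ 4 * u1 * u3 - 374 * u0 ^ 3 * u1 ^ 2 * u2 + 296 * u0 ^ 3 *
      u2 ^ 3 - 314 * u0 ^ 3 * u2 * u3 ^ 2 - 3930 * u0 ^ 2 * u1 ^ 3 * u3 + 3690 * u0 ^ 2 * u1 *
      u3 ^ 3 - 3372 * u0 * u1 ^ 4 * u2 - 374 * u0 * u1 ^ 2 * u2 ^ 3 + 15756 * u0 * u1 ^ 2 * u2 *
      u3 ^ 2 + 148 * u0 * u2 ^ 5 - 314 * u0 * u2 ^ 3 * u3 ^ 2 - 3432 * u0 * u2 * u3 ^ 4 + 3930 *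
      u1 ^ 3 * u2 ^ 2 * u3 - 720 * u1 * u2 ^ 4 * u3 - 3690 * u1 * u2 ^ 2 * u3 ^ 3

def c31 (u0 u1 u2 u3 : ℝ) : ℝ :=
  -680 * u0 ^ 5 * u3 + 1578 * u0 ^ 4 * u1 * u2 + 8200 * u0 ^ 3 * u1 ^ 2 * u3 - 230 * u0 ^ 3
      * u2 ^ 2 * u3 - 2940 * u0 ^ 3 * u3 ^ 3 + 3896 * u0 ^ 2 * u1 ^ 3 * u2 - 694 * u0 ^ 2 * u1 *
      u2 ^ 3 - 9444 * u0 ^ 2 * u1 * u2 * u3 ^ 2 + 4230 * u0 * u1 ^ 4 * u3 + 12120 * u0 * u1 ^ 2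
      * u2 ^ 2 * u3 - 16450 * u0 * u1 ^ 2 * u3 ^ 3 - 1290 * u0 * u2 ^ 4 * u3 - 6580 * u0 * u2 ^
      2 * u3 ^ 3 + 3620 * u0 * u3 ^ 5 - 532 * u1 ^ 5 * u2 + 676 * u1 ^ 3 * u2 ^ 3 - 6574 * u1 ^
      3 * u2 * u3 ^ 2 - 532 * u1 * u2 ^ 5 - 1984 * u1 * u2 ^ 3 * u3 ^ 2 + 7458 * u1 * u2 * u3 ^
      4

def c32 (u0 u1 u2 u3 : ℝ) : ℝ :=
  -532 * u0 ^ 5 * u2 - 4230 * u0 ^ 4 * u1 * u3 + 3896 * u0 ^ 3 * u1 ^ 2 * u2 + 676 * u0 ^ 3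
      * u2 ^ 3 - 6574 * u0 ^ 3 * u2 * u3 ^ 2 - 8200 * u0 ^ 2 * u1 ^ 3 * u3 - 12120 * u0 ^ 2 * u1
      * u2 ^ 2 * u3 + 16450 * u0 ^ 2 * u1 * u3 ^ 3 + 1578 * u0 * u1 ^ 4 * u2 - 694 * u0 * u1 ^ 2
      * u2 ^ 3 - 9444 * u0 * u1 ^ 2 * u2 * u3 ^ 2 - 532 * u0 * u2 ^ 5 - 1984 * u0 * u2 ^ 3 * u3
      ^ 2 + 7458 * u0 * u2 * u3 ^ 4 + 680 * u1 ^ 5 * u3 + 230 * u1 ^ 3 * u2 ^ 2 * u3 + 2940 * u1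
      ^ 3 * u3 ^ 3 + 1290 * u1 * u2 ^ 4 * u3 + 6580 * u1 * u2 ^ 2 * u3 ^ 3 - 3620 * u1 * u3 ^ 5

def c33 (u0 u1 u2 u3 : ℝ) : ℝ :=
  -3372 * u0 ^ 4 * u1 * u2 + 3930 * u0 ^ 3 * u1 ^ 2 * u3 - 3930 * u0 ^ 3 * u2 ^ 2 * u3 - 374
      * u0 ^ 2 * u1 ^ 3 * u2 - 374 * u0 ^ 2 * u1 * u2 ^ 3 + 15756 * u0 ^ 2 * u1 * u2 * u3 ^ 2 -
      720 * u0 * u1 ^ 4 * u3 - 3690 * u0 * u1 ^ 2 * u3 ^ 3 + 720 * u0 * u2 ^ 4 * u3 + 3690 * u0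
      * u2 ^ 2 * u3 ^ 3 + 148 * u1 ^ 5 * u2 + 296 * u1 ^ 3 * u2 ^ 3 - 314 * u1 ^ 3 * u2 * u3 ^ 2
      + 148 * u1 * u2 ^ 5 - 314 * u1 * u2 ^ 3 * u3 ^ 2 - 3432 * u1 * u2 * u3 ^ 4

def c40 (u0 u1 u2 u3 : ℝ) : ℝ :=
  68 * u0 ^ 6 - 139 * u0 ^ 4 * u1 ^ 2 + 167 * u0 ^ 4 * u2 ^ 2 - 118 * u0 ^ 4 * u3 ^ 2 + 1680
      * u0 ^ 3 * u1 * u2 * u3 - 1462 * u0 ^ 2 * u1 ^ 4 - 12 * u0 ^ 2 * u1 ^ 2 * u2 ^ 2 + 7848 *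
      u0 ^ 2 * u1 ^ 2 * u3 ^ 2 + 130 * u0 ^ 2 * u2 ^ 4 - 330 * u0 ^ 2 * u2 ^ 2 * u3 ^ 2 - 1570 *
      u0 ^ 2 * u3 ^ 4 + 7530 * u0 * u1 ^ 3 * u2 * u3 - 1650 * u0 * u1 * u2 ^ 3 * u3 - 7560 * u0
      * u1 * u2 * u3 ^ 3 - 235 * u1 ^ 6 + 371 * u1 ^ 4 * u2 ^ 2 + 1316 * u1 ^ 4 * u3 ^ 2 - 233 *
      u1 ^ 2 * u2 ^ 4 - 1806 * u1 ^ 2 * u2 ^ 2 * u3 ^ 2 - 463 * u1 ^ 2 * u3 ^ 4 + 31 * u2 ^ 6 +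
      148 * u2 ^ 4 * u3 ^ 2 + 203 * u2 ^ 2 * u3 ^ 4 + 86 * u3 ^ 6

def c41 (u0 u1 u2 u3 : ℝ) : ℝ :=
  606 * u0 ^ 5 * u1 - 1230 * u0 ^ 4 * u2 * u3 + 3252 * u0 ^ 3 * u1 ^ 3 + 102 * u0 ^ 3 * u1 *
      u2 ^ 2 - 9108 * u0 ^ 3 * u1 * u3 ^ 2 - 360 * u0 ^ 2 * u2 ^ 3 * u3 - 2580 * u0 ^ 2 * u2 *
      u3 ^ 3 + 606 * u0 * u1 ^ 5 + 102 * u0 * u1 ^ 3 * u2 ^ 2 - 9108 * u0 * u1 ^ 3 * u3 ^ 2 -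
      1374 * u0 * u1 * u2 ^ 4 - 5358 * u0 * u1 * u2 ^ 2 * u3 ^ 2 + 7836 * u0 * u1 * u3 ^ 4 +
      1230 * u1 ^ 4 * u2 * u3 + 360 * u1 ^ 2 * u2 ^ 3 * u3 + 2580 * u1 ^ 2 * u2 * u3 ^ 3

def c42 (u0 u1 u2 u3 : ℝ) : ℝ :=
  -235 * u0 ^ 6 - 1462 * u0 ^ 4 * u1 ^ 2 + 371 * u0 ^ 4 * u2 ^ 2 + 1316 * u0 ^ 4 * u3 ^ 2 -
      7530 * u0 ^ 3 * u1 * u2 * u3 - 139 * u0 ^ 2 * u1 ^ 4 - 12 * u0 ^ 2 * u1 ^ 2 * u2 ^ 2 +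
      7848 * u0 ^ 2 * u1 ^ 2 * u3 ^ 2 - 233 * u0 ^ 2 * u2 ^ 4 - 1806 * u0 ^ 2 * u2 ^ 2 * u3 ^ 2
      - 463 * u0 ^ 2 * u3 ^ 4 - 1680 * u0 * u1 ^ 3 * u2 * u3 + 1650 * u0 * u1 * u2 ^ 3 * u3 +
      7560 * u0 * u1 * u2 * u3 ^ 3 + 68 * u1 ^ 6 + 167 * u1 ^ 4 * u2 ^ 2 - 118 * u1 ^ 4 * u3 ^ 2
      + 130 * u1 ^ 2 * u2 ^ 4 - 330 * u1 ^ 2 * u2 ^ 2 * u3 ^ 2 - 1570 * u1 ^ 2 * u3 ^ 4 + 31 *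
      u2 ^ 6 + 148 * u2 ^ 4 * u3 ^ 2 + 203 * u2 ^ 2 * u3 ^ 4 + 86 * u3 ^ 6

def c50 (u0 u1 u2 u3 : ℝ) : ℝ :=
  74 * u0 ^ 5 * u2 + 780 * u0 ^ 4 * u1 * u3 + 218 * u0 ^ 3 * u1 ^ 2 * u2 + 148 * u0 ^ 3 * u2
      ^ 3 - 562 * u0 ^ 3 * u2 * u3 ^ 2 + 3500 * u0 ^ 2 * u1 ^ 3 * u3 - 780 * u0 ^ 2 * u1 * u2 ^
      2 * u3 - 3650 * u0 ^ 2 * u1 * u3 ^ 3 + 204 * u0 * u1 ^ 4 * u2 - 592 * u0 * u1 ^ 2 * u2 ^ 3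
      - 3462 * u0 * u1 ^ 2 * u2 * u3 ^ 2 + 74 * u0 * u2 ^ 5 + 248 * u0 * u2 ^ 3 * u3 ^ 2 + 174 *
      u0 * u2 * u3 ^ 4 + 680 * u1 ^ 5 * u3 - 130 * u1 ^ 3 * u2 ^ 2 * u3 - 840 * u1 ^ 3 * u3 ^ 3
      + 60 * u1 * u2 ^ 4 * u3 + 220 * u1 * u2 ^ 2 * u3 ^ 3 + 160 * u1 * u3 ^ 5

def c51 (u0 u1 u2 u3 : ℝ) : ℝ :=
  -680 * u0 ^ 5 * u3 + 204 * u0 ^ 4 * u1 * u2 - 3500 * u0 ^ 3 * u1 ^ 2 * u3 + 130 * u0 ^ 3 *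
      u2 ^ 2 * u3 + 840 * u0 ^ 3 * u3 ^ 3 + 218 * u0 ^ 2 * u1 ^ 3 * u2 - 592 * u0 ^ 2 * u1 * u2
      ^ 3 - 3462 * u0 ^ 2 * u1 * u2 * u3 ^ 2 - 780 * u0 * u1 ^ 4 * u3 + 780 * u0 * u1 ^ 2 * u2 ^
      2 * u3 + 3650 * u0 * u1 ^ 2 * u3 ^ 3 - 60 * u0 * u2 ^ 4 * u3 - 220 * u0 * u2 ^ 2 * u3 ^ 3
      - 160 * u0 * u3 ^ 5 + 74 * u1 ^ 5 * u2 + 148 * u1 ^ 3 * u2 ^ 3 - 562 * u1 ^ 3 * u2 * u3 ^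
      2 + 74 * u1 * u2 ^ 5 + 248 * u1 * u2 ^ 3 * u3 ^ 2 + 174 * u1 * u2 * u3 ^ 4

def c60 (u0 u1 u2 u3 : ℝ) : ℝ :=
  35 * u0 ^ 6 + 125 * u0 ^ 4 * u1 ^ 2 + 68 * u0 ^ 4 * u2 ^ 2 - 268 * u0 ^ 4 * u3 ^ 2 + 30 *
      u0 ^ 3 * u1 * u2 * u3 + 125 * u0 ^ 2 * u1 ^ 4 - 264 * u0 ^ 2 * u1 ^ 2 * u2 ^ 2 - 1536 * u0
      ^ 2 * u1 ^ 2 * u3 ^ 2 + 31 * u0 ^ 2 * u2 ^ 4 + 150 * u0 ^ 2 * u2 ^ 2 * u3 ^ 2 + 119 * u0 ^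
      2 * u3 ^ 4 - 30 * u0 * u1 ^ 3 * u2 * u3 + 35 * u1 ^ 6 + 68 * u1 ^ 4 * u2 ^ 2 - 268 * u1 ^
      4 * u3 ^ 2 + 31 * u1 ^ 2 * u2 ^ 4 + 150 * u1 ^ 2 * u2 ^ 2 * u3 ^ 2 + 119 * u1 ^ 2 * u3 ^ 4
      - 2 * u2 ^ 6 - 2 * u2 ^ 4 * u3 ^ 2 + 2 * u2 ^ 2 * u3 ^ 4 + 2 * u3 ^ 6

def cc (u0 u1 u2 u3 : ℝ) : ℕ → ℕ → ℝ
  | 0, 0 => c00 u0 u1 u2 u3
  | 0, 1 => c01 u0 u1 u2 u3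
  | 0, 2 => c02 u0 u1 u2 u3
  | 0, 3 => c03 u0 u1 u2 u3
  | 0, 4 => c04 u0 u1 u2 u3
  | 0, 5 => c05 u0 u1 u2 u3
  | 0, 6 => c06 u0 u1 u2 u3
  | 1, 0 => c10 u0 u1 u2 u3
  | 1, 1 => c11 u0 u1 u2 u3
  | 1, 2 => c12 u0 u1 u2 u3
  | 1, 3 => c13 u0 u1 u2 u3
  | 1, 4 => c14 u0 u1 u2 u3
  | 1, 5 => c15 u0 u1 u2 u3
  | 2, 0 => c20 u0 u1 u2 u3
  | 2, 1 => c21 u0 u1 u2 u3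
  | 2, 2 => c22 u0 u1 u2 u3
  | 2, 3 => c23 u0 u1 u2 u3
  | 2, 4 => c24 u0 u1 u2 u3
  | 3, 0 => c30 u0 u1 u2 u3
  | 3, 1 => c31 u0 u1 u2 u3
  | 3, 2 => c32 u0 u1 u2 u3
  | 3, 3 => c33 u0 u1 u2 u3
  | 4, 0 => c40 u0 u1 u2 u3
  | 4, 1 => c41 u0 u1 u2 u3
  | 4, 2 => c42 u0 u1 u2 u3
  | 5, 0 => c50 u0 u1 u2 u3
  | 5, 1 => c51 u0 u1 u2 u3
  | 6, 0 => c60 u0 u1 u2 u3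
  | _, _ => 0

/-- explicit hessian of `Pq` -/
def HQ (x0 x1 x2 x3 : ℝ) : Fin 4 → Fin 4 → ℝ :=
  ![![-30 * x0 ^ 4 + 204 * x0 ^ 2 * x1 ^ 2 + 204 * x0 ^ 2 * x2 ^ 2 - 48 * x0 ^ 2 * x3 ^ 2 + 34 * x1 ^ 4 + 228 * x1 ^ 2 * x2 ^ 2 + 24 * x1 ^ 2 * x3 ^ 2 + 34 * x2 ^ 4 + 24 * x2 ^ 2 * x3 ^ 2 - 10 * x3 ^ 4,
    136 * x0 ^ 3 * x1 + 136 * x0 * x1 ^ 3 + 456 * x0 * x1 * x2 ^ 2 + 48 * x0 * x1 * x3 ^ 2,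
    136 * x0 ^ 3 * x2 + 456 * x0 * x1 ^ 2 * x2 + 136 * x0 * x2 ^ 3 + 48 * x0 * x2 * x3 ^ 2,
    -32 * x0 ^ 3 * x3 + 48 * x0 * x1 ^ 2 * x3 + 48 * x0 * x2 ^ 2 * x3 - 40 * x0 * x3 ^ 3],
   ![136 * x0 ^ 3 * x1 + 136 * x0 * x1 ^ 3 + 456 * x0 * x1 * x2 ^ 2 + 48 * x0 * x1 * x3 ^ 2,
    34 * x0 ^ 4 + 204 * x0 ^ 2 * x1 ^ 2 + 228 * x0 ^ 2 * x2 ^ 2 + 24 * x0 ^ 2 * x3 ^ 2 - 30 * x1 ^ 4 + 204 * x1 ^ 2 * x2 ^ 2 - 48 * x1 ^ 2 * x3 ^ 2 + 34 * x2 ^ 4 + 24 * x2 ^ 2 * x3 ^ 2 - 10 * x3 ^ 4,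
    456 * x0 ^ 2 * x1 * x2 + 136 * x1 ^ 3 * x2 + 136 * x1 * x2 ^ 3 + 48 * x1 * x2 * x3 ^ 2,
    48 * x0 ^ 2 * x1 * x3 - 32 * x1 ^ 3 * x3 + 48 * x1 * x2 ^ 2 * x3 - 40 * x1 * x3 ^ 3],
   ![136 * x0 ^ 3 * x2 + 456 * x0 * x1 ^ 2 * x2 + 136 * x0 * x2 ^ 3 + 48 * x0 * x2 * x3 ^ 2,
    456 * x0 ^ 2 * x1 * x2 + 136 * x1 ^ 3 * x2 + 136 * x1 * x2 ^ 3 + 48 * x1 * x2 * x3 ^ 2,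
    34 * x0 ^ 4 + 228 * x0 ^ 2 * x1 ^ 2 + 204 * x0 ^ 2 * x2 ^ 2 + 24 * x0 ^ 2 * x3 ^ 2 + 34 * x1 ^ 4 + 204 * x1 ^ 2 * x2 ^ 2 + 24 * x1 ^ 2 * x3 ^ 2 - 30 * x2 ^ 4 - 48 * x2 ^ 2 * x3 ^ 2 - 10 * x3 ^ 4,
    48 * x0 ^ 2 * x2 * x3 + 48 * x1 ^ 2 * x2 * x3 - 32 * x2 ^ 3 * x3 - 40 * x2 * x3 ^ 3],
   ![-32 * x0 ^ 3 * x3 + 48 * x0 * x1 ^ 2 * x3 + 48 * x0 * x2 ^ 2 * x3 - 40 * x0 * x3 ^ 3,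
    48 * x0 ^ 2 * x1 * x3 - 32 * x1 ^ 3 * x3 + 48 * x1 * x2 ^ 2 * x3 - 40 * x1 * x3 ^ 3,
    48 * x0 ^ 2 * x2 * x3 + 48 * x1 ^ 2 * x2 * x3 - 32 * x2 ^ 3 * x3 - 40 * x2 * x3 ^ 3,
    -8 * x0 ^ 4 + 24 * x0 ^ 2 * x1 ^ 2 + 24 * x0 ^ 2 * x2 ^ 2 - 60 * x0 ^ 2 * x3 ^ 2 - 8 * x1 ^ 4 + 24 * x1 ^ 2 * x2 ^ 2 - 60 * x1 ^ 2 * x3 ^ 2 - 8 * x2 ^ 4 - 60 * x2 ^ 2 * x3 ^ 2 - 60 * x3 ^ 4]]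

theorem HQ_spec (x : E4) (i j : Fin 4) :
    ev (pderiv j (pderiv i Pq)) x = HQ (x 0) (x 1) (x 2) (x 3) i j := by
  fin_cases i <;> fin_cases j
  · exact Hq00 x
  · exact Hq01 x
  · exact Hq02 x
  · exact Hq03 x
  · exact Hq10 x
  · exact Hq11 x
  · exact Hq12 x
  · exact Hq13 x
  · exact Hq20 x
  · exact Hq21 x
  · exact Hq22 x
  · exact Hq23 x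
  · exact Hq30 x
  · exact Hq31 x
  · exact Hq32 x
  · exact Hq33 x

/-- quadratic expression in the cubic -/
def QP (h00 h01 h02 h11 h12 h22 a0 a1 a2 f r : ℝ) : ℝ :=
  r ^ 2 * (h00 * h11 - h01 ^ 2 + h00 * h22 - h02 ^ 2 + h11 * h22 - h12 ^ 2) +
    r * (4 * (a0 ^ 2 + a1 ^ 2 + a2 ^ 2) - 7 * f * (h00 + h11 + h22)) + 6 * f ^ 2

theorem e2_alg (h00 h01 h02 h11 h12 h22 a0 a1 a2 f y0 y1 y2 τ : ℝ)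
    (hτ : τ ^ 2 * (y0 ^ 2 + y1 ^ 2 + y2 ^ 2) = 1)
    (ha0 : 2 * a0 = h00 * y0 + h01 * y1 + h02 * y2)
    (ha1 : 2 * a1 = h01 * y0 + h11 * y1 + h12 * y2)
    (ha2 : 2 * a2 = h02 * y0 + h12 * y1 + h22 * y2)
    (hf : 3 * f = a0 * y0 + a1 * y1 + a2 * y2)
    (M : Fin 3 → Fin 3 → ℝ)
    (h : Fin 3 → Fin 3 → ℝ) (hh : h = ![![h00, h01, h02], ![h01, h11, h12], ![h02, h12, h22]])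
    (a : Fin 3 → ℝ) (haa : a = ![a0, a1, a2]) (y : Fin 3 → ℝ) (hy : y = ![y0, y1, y2])
    (hM : ∀ i k, M i k = τ * h i k - τ ^ 3 * y k * a i - 2 * τ ^ 3 * a k * y i
      + 6 * f * τ ^ 5 * y k * y i - 2 * f * τ ^ 3 * (if i = k then 1 else 0)) :
    M 0 0 * M 1 1 - M 0 1 * M 1 0 + M 0 0 * M 2 2 - M 0 2 * M 2 0 + M 1 1 * M 2 2
      - M 1 2 * M 2 1 = τ ^ 6 * QP h00 h01 h02 h11 h12 h22 a0 a1 a2 f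
        (y0 ^ 2 + y1 ^ 2 + y2 ^ 2) := by
  obtain ⟨r, hr⟩ : ∃ r, r = y0 ^ 2 + y1 ^ 2 + y2 ^ 2 := ⟨_, rfl⟩
  rw [← hr] at hτ ⊢
  have hN : ∀ i k, M i k = τ ^ 5 * (r ^ 2 * h i k - r * (y k * a i + 2 * a k * y i
      + 2 * f * (if i = k then 1 else 0)) + 6 * f * y k * y i) := by
    intro i k
    rw [hM i k]
    linear_combination (-(τ * h i k) * (τ ^ 2 * r + 1) + τ ^ 3 * (y k * a i + 2 * a k * y i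
      + 2 * f * (if i = k then 1 else 0))) * hτ
  have e0 : a0 = (h00 * y0 + h01 * y1 + h02 * y2) / 2 := by linarith
  have e1 : a1 = (h01 * y0 + h11 * y1 + h12 * y2) / 2 := by linarith
  have e2 : a2 = (h02 * y0 + h12 * y1 + h22 * y2) / 2 := by linarith
  have ef : f = (a0 * y0 + a1 * y1 + a2 * y2) / 3 := by linarith
  have key : M 0 0 * M 1 1 - M 0 1 * M 1 0 + M 0 0 * M 2 2 - M 0 2 * M 2 0 + M 1 1 * M 2 2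
      - M 1 2 * M 2 1 = τ ^ 10 * (r ^ 2 * QP h00 h01 h02 h11 h12 h22 a0 a1 a2 f r) := by
    rw [hN 0 0, hN 1 1, hN 0 1, hN 1 0, hN 2 2, hN 0 2, hN 2 0, hN 1 2, hN 2 1]
    subst hh haa hy
    simp only [Matrix.cons_val, Fin.isValue, if_true, Fin.reduceEq, if_false]
    rw [QP, ef, e0, e1, e2, hr]
    simp
    ring
  rw [key]
  have : τ ^ 10 * (r ^ 2 * QP h00 h01 h02 h11 h12 h22 a0 a1 a2 f r) =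
      τ ^ 6 * (τ ^ 2 * r) ^ 2 * QP h00 h01 h02 h11 h12 h22 a0 a1 a2 f r := by ring
  rw [this, hτ]
  ring

theorem key_alg (u0 u1 u2 u3 y0 y1 y2 : ℝ) (x0 x1 x2 x3 r s : ℝ)
    (hx0 : x0 = -u1 * y0 - u2 * y1 - u3 * y2) (hx1 : x1 = u0 * y0 - u3 * y1 + u2 * y2)
    (hx2 : x2 = u3 * y0 + u0 * y1 - u1 * y2) (hx3 : x3 = -u2 * y0 + u1 * y1 + u0 * y2)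
    (hr : r = y0 ^ 2 + y1 ^ 2 + y2 ^ 2) (hs : s = x0 ^ 2 + x1 ^ 2 + x2 ^ 2 + x3 ^ 2) :
    75 * QP (2 * (x2 * (-u1) * u0 + x1 * (-u1) * u3 + x0 * u0 * u3))
      (x2 * (-u1 * (-u3) + (-u2) * u0) + x1 * (-u1 * u0 + (-u2) * u3) + x0 * (u0 * u0 + (-u3) * u3))
      (x2 * (-u1 * u2 + (-u3) * u0) + x1 * (-u1 * (-u1) + (-u3) * u3) + x0 * (u0 * (-u1) + u2 * u3))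
      (2 * (x2 * (-u2) * (-u3) + x1 * (-u2) * u0 + x0 * (-u3) * u0))
      (x2 * (-u2 * u2 + (-u3) * (-u3)) + x1 * (-u2 * (-u1) + (-u3) * u0)
        + x0 * (-u3 * (-u1) + u2 * u0))
      (2 * (x2 * (-u3) * u2 + x1 * (-u3) * (-u1) + x0 * u2 * (-u1)))
      (x1 * x2 * (-u1) + x0 * x2 * u0 + x0 * x1 * u3)
      (x1 * x2 * (-u2) + x0 * x2 * (-u3) + x0 * x1 * u0)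
      (x1 * x2 * (-u3) + x0 * x2 * u2 + x0 * x1 * (-u1))
      (x0 * x1 * x2) r
    + (r * ((u0 ^ 2 + u1 ^ 2 + u2 ^ 2 + u3 ^ 2) * (HQ x0 x1 x2 x3 0 0 + HQ x0 x1 x2 x3 1 1 +
        HQ x0 x1 x2 x3 2 2 + HQ x0 x1 x2 x3 3 3)
      - (HQ x0 x1 x2 x3 0 0 * u0 ^ 2 + HQ x0 x1 x2 x3 1 1 * u1 ^ 2 + HQ x0 x1 x2 x3 2 2 * u2 ^ 2
        + HQ x0 x1 x2 x3 3 3 * u3 ^ 2 + 2 * HQ x0 x1 x2 x3 0 1 * u0 * u1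
        + 2 * HQ x0 x1 x2 x3 0 2 * u0 * u2 + 2 * HQ x0 x1 x2 x3 0 3 * u0 * u3
        + 2 * HQ x0 x1 x2 x3 1 2 * u1 * u2 + 2 * HQ x0 x1 x2 x3 1 3 * u1 * u3
        + 2 * HQ x0 x1 x2 x3 2 3 * u2 * u3))
      - 39 * (-(s ^ 2 * (s + x3 ^ 2)) + 20 * (s * (x0 ^ 2 * x1 ^ 2 + x0 ^ 2 * x2 ^ 2
        + x1 ^ 2 * x2 ^ 2)) + 60 * (x0 ^ 2 * x1 ^ 2 * x2 ^ 2)))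
    = ∑ a ∈ Finset.range 7, ∑ b ∈ Finset.range (7 - a),
        cc u0 u1 u2 u3 a b * (y0 ^ a * y1 ^ b * y2 ^ (6 - a - b)) := by
  simp only [Finset.sum_range_succ, Finset.sum_range_zero, zero_add, Nat.sub_zero, Nat.reduceSub,
    cc, c00, c01, c02, c03, c04, c05, c06, c10, c11, c12, c13, c14, c15, c20, c21, c22, c23, c24, c30, c31, c32, c33, c40, c41, c42, c50, c51, c60, QP, HQ, Matrix.cons_val]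
  subst hs
  subst hx0 hx1 hx2 hx3 hr
  ring

theorem cc_sum (u0 u1 u2 u3 : ℝ) :
    15 * (cc u0 u1 u2 u3 6 0 + cc u0 u1 u2 u3 0 6 + cc u0 u1 u2 u3 0 0)
    + 3 * (cc u0 u1 u2 u3 4 2 + cc u0 u1 u2 u3 4 0 + cc u0 u1 u2 u3 2 4 + cc u0 u1 u2 u3 0 4
      + cc u0 u1 u2 u3 2 0 + cc u0 u1 u2 u3 0 2) + cc u0 u1 u2 u3 2 2 = 0 := by
  simp only [cc, c60, c06, c00, c42, c40, c24, c04, c20, c02, c22]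
  ring

end Pool.MP_f6b738_gt.IV
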