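import Pool.Agent.Work.MP_f6b738_gt.Ident

set_option autoImplicit false
open MeasureTheory Pointwise Set Metric MvPolynomial
open scoped RealInnerProductSpace

set_option linter.unusedSectionVars false
set_option maxHeartbeats 4000000

namespace Pool.MP_f6b738_gt.IV

theorem av_sum {m n : ℕ} (ι : EuclideanSpace ℝ (Fin m) →ₗᵢ[ℝ] EuclideanSpace ℝ (Fin n))
    {P : MvPolynomial (Fin n) ℝ} {d : ℕ} (hP : P.IsHomogeneous d)
    (y : EuclideanSpace ℝ (Fin m)) : ∑ i, av ι P y i * y i = d * ev P (ι y) := by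
  rw [← ev_euler hP]
  have h1 : y = ∑ i, y i • EuclideanSpace.single i (1 : ℝ) := by
    ext k
    simp [Pi.single_apply]
  have key : ∀ g : EuclideanSpace ℝ (Fin n),
      ⟪g, ι y⟫ = ∑ i, y i * ⟪g, ι (EuclideanSpace.single i 1)⟫ := by
    intro g
    have h3 : ι y = ι (∑ i, y i • EuclideanSpace.single i (1 : ℝ)) := by rw [← h1]
    rw [h3, map_sum, inner_sum]
    refine Finset.sum_congr rfl fun i _ => ?_
    rw [map_smul, inner_smul_right]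
  have h2 := key (gradv P (ι y))
  rw [h2]
  refine Finset.sum_congr rfl fun i _ => ?_
  rw [mul_comm]
  congr 1
  simp [gradv, av, PiLp.inner_apply, mul_comm]

/-- second elementary symmetric function -/
noncomputable def s2 (A : E3 →L[ℝ] E3) : ℝ :=
  ent A 0 0 * ent A 1 1 - ent A 0 1 * ent A 1 0 + ent A 0 0 * ent A 2 2
      - ent A 0 2 * ent A 2 0 + ent A 1 1 * ent A 2 2 - ent A 1 2 * ent A 2 1

noncomputable def s1 (A : E3 →L[ℝ] E3) : ℝ := ent A 0 0 + ent A 1 1 + ent A 2 2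

theorem norm_sq_E3 (y : E3) : ‖y‖ ^ 2 = y 0 ^ 2 + y 1 ^ 2 + y 2 ^ 2 := by
  rw [norm_E3, Real.sq_sqrt (by positivity)]

theorem evPp (x : E4) : ev Pp x = x 0 * x 1 * x 2 := by simp [ev, Pp]

theorem evPq (x : E4) : ev Pq x = -((x 0 ^ 2 + x 1 ^ 2 + x 2 ^ 2 + x 3 ^ 2) ^ 2 *
      ((x 0 ^ 2 + x 1 ^ 2 + x 2 ^ 2 + x 3 ^ 2) + x 3 ^ 2)) +
      20 * ((x 0 ^ 2 + x 1 ^ 2 + x 2 ^ 2 + x 3 ^ 2) * (x 0 ^ 2 * x 1 ^ 2 + x 0 ^ 2 * x 2 ^ 2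
        + x 1 ^ 2 * x 2 ^ 2)) + 60 * (x 0 ^ 2 * x 1 ^ 2 * x 2 ^ 2) := by
  simp [ev, Pq, RR]

theorem key_pt (u : E4) (hu : ‖u‖ = 1) (y : E3) (hy : y ≠ 0) :
    75 * s2 (WR (frame u hu) Pp 1 y) + s1 (WR (frame u hu) Pq 4 y) =
      ∑ a ∈ Finset.range 7, ∑ b ∈ Finset.range (7 - a),
        cc (u 0) (u 1) (u 2) (u 3) a b * mon a b (6 - a - b) y := by
  have hyn : 0 < ‖y‖ := norm_pos_iff.2 hy
  set τ := ‖y‖⁻¹ with hτd
  have hτ : τ ^ 2 * (y 0 ^ 2 + y 1 ^ 2 + y 2 ^ 2) = 1 := by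
    rw [← norm_sq_E3, hτd, ← mul_pow, inv_mul_cancel₀ hyn.ne', one_pow]
  set x := frame u hu y with hx
  have hx0 : x 0 = -u 1 * y 0 - u 2 * y 1 - u 3 * y 2 := by rw [hx, frame_apply]; simp
  have hx1 : x 1 = u 0 * y 0 - u 3 * y 1 + u 2 * y 2 := by rw [hx, frame_apply]; simp
  have hx2 : x 2 = u 3 * y 0 + u 0 * y 1 - u 1 * y 2 := by rw [hx, frame_apply]; simp
  have hx3 : x 3 = -u 2 * y 0 + u 1 * y 1 + u 0 * y 2 := by rw [hx, frame_apply]; simp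
  -- p part
  have ha : ∀ i, av (frame u hu) Pp y i = ![(x 1 * x 2 * (-u 1) + x 0 * x 2 * u 0 + x 0 * x 1 * u 3),
      (x 1 * x 2 * (-u 2) + x 0 * x 2 * (-u 3) + x 0 * x 1 * u 0),
      (x 1 * x 2 * (-u 3) + x 0 * x 2 * u 2 + x 0 * x 1 * (-u 1))] i := by
    intro i
    fin_cases i <;> simp [av, Fin.sum_univ_four, Gp, frame_apply, ← hx]
  have hh : ∀ i k, hv (frame u hu) Pp y i k =
      ![![2 * (x 2 * (-u 1) * u 0 + x 1 * (-u 1) * u 3 + x 0 * u 0 * u 3),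
        x 2 * (-u 1 * (-u 3) + (-u 2) * u 0) + x 1 * (-u 1 * u 0 + (-u 2) * u 3)
          + x 0 * (u 0 * u 0 + (-u 3) * u 3),
        x 2 * (-u 1 * u 2 + (-u 3) * u 0) + x 1 * (-u 1 * (-u 1) + (-u 3) * u 3)
          + x 0 * (u 0 * (-u 1) + u 2 * u 3)],
        ![x 2 * (-u 1 * (-u 3) + (-u 2) * u 0) + x 1 * (-u 1 * u 0 + (-u 2) * u 3)
          + x 0 * (u 0 * u 0 + (-u 3) * u 3),
        2 * (x 2 * (-u 2) * (-u 3) + x 1 * (-u 2) * u 0 + x 0 * (-u 3) * u 0),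
        x 2 * (-u 2 * u 2 + (-u 3) * (-u 3)) + x 1 * (-u 2 * (-u 1) + (-u 3) * u 0)
          + x 0 * (-u 3 * (-u 1) + u 2 * u 0)],
        ![x 2 * (-u 1 * u 2 + (-u 3) * u 0) + x 1 * (-u 1 * (-u 1) + (-u 3) * u 3)
          + x 0 * (u 0 * (-u 1) + u 2 * u 3),
        x 2 * (-u 2 * u 2 + (-u 3) * (-u 3)) + x 1 * (-u 2 * (-u 1) + (-u 3) * u 0)
          + x 0 * (-u 3 * (-u 1) + u 2 * u 0),
        2 * (x 2 * (-u 3) * u 2 + x 1 * (-u 3) * (-u 1) + x 0 * u 2 * (-u 1))]] i k := by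
    intro i k
    fin_cases i <;> fin_cases k <;> simp [hv, Fin.sum_univ_four, Hp, frame_apply, ← hx] <;> ring
  have hp := e2_alg
      (2 * (x 2 * (-u 1) * u 0 + x 1 * (-u 1) * u 3 + x 0 * u 0 * u 3))
      (x 2 * (-u 1 * (-u 3) + (-u 2) * u 0) + x 1 * (-u 1 * u 0 + (-u 2) * u 3)
        + x 0 * (u 0 * u 0 + (-u 3) * u 3))
      (x 2 * (-u 1 * u 2 + (-u 3) * u 0) + x 1 * (-u 1 * (-u 1) + (-u 3) * u 3)
        + x 0 * (u 0 * (-u 1) + u 2 * u 3))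
      (2 * (x 2 * (-u 2) * (-u 3) + x 1 * (-u 2) * u 0 + x 0 * (-u 3) * u 0))
      (x 2 * (-u 2 * u 2 + (-u 3) * (-u 3)) + x 1 * (-u 2 * (-u 1) + (-u 3) * u 0)
        + x 0 * (-u 3 * (-u 1) + u 2 * u 0))
      (2 * (x 2 * (-u 3) * u 2 + x 1 * (-u 3) * (-u 1) + x 0 * u 2 * (-u 1)))
      (x 1 * x 2 * (-u 1) + x 0 * x 2 * u 0 + x 0 * x 1 * u 3)
      (x 1 * x 2 * (-u 2) + x 0 * x 2 * (-u 3) + x 0 * x 1 * u 0)
      (x 1 * x 2 * (-u 3) + x 0 * x 2 * u 2 + x 0 * x 1 * (-u 1))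
      (x 0 * x 1 * x 2) (y 0) (y 1) (y 2) τ hτ
      (by rw [hx0, hx1, hx2]; ring) (by rw [hx0, hx1, hx2]; ring) (by rw [hx0, hx1, hx2]; ring)
      (by rw [hx0, hx1, hx2]; ring)
      (fun i k => ent (WR (frame u hu) Pp 1 y) i k) _ rfl _ rfl _ rfl
      (by
        intro i k
        rw [ent_WR, hh i k, ha i, ha k, ← hx, evPp]
        have hyk : ∀ k : Fin 3, (![y 0, y 1, y 2] : Fin 3 → ℝ) k = y k := by
          intro k; fin_cases k <;> rfl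
        rw [hyk, hyk]
        push_cast
        ring)
  have hs2 : s2 (WR (frame u hu) Pp 1 y) = τ ^ 6 * QP
      (2 * (x 2 * (-u 1) * u 0 + x 1 * (-u 1) * u 3 + x 0 * u 0 * u 3))
      (x 2 * (-u 1 * (-u 3) + (-u 2) * u 0) + x 1 * (-u 1 * u 0 + (-u 2) * u 3)
        + x 0 * (u 0 * u 0 + (-u 3) * u 3))
      (x 2 * (-u 1 * u 2 + (-u 3) * u 0) + x 1 * (-u 1 * (-u 1) + (-u 3) * u 3)
        + x 0 * (u 0 * (-u 1) + u 2 * u 3))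
      (2 * (x 2 * (-u 2) * (-u 3) + x 1 * (-u 2) * u 0 + x 0 * (-u 3) * u 0))
      (x 2 * (-u 2 * u 2 + (-u 3) * (-u 3)) + x 1 * (-u 2 * (-u 1) + (-u 3) * u 0)
        + x 0 * (-u 3 * (-u 1) + u 2 * u 0))
      (2 * (x 2 * (-u 3) * u 2 + x 1 * (-u 3) * (-u 1) + x 0 * u 2 * (-u 1)))
      (x 1 * x 2 * (-u 1) + x 0 * x 2 * u 0 + x 0 * x 1 * u 3)
      (x 1 * x 2 * (-u 2) + x 0 * x 2 * (-u 3) + x 0 * x 1 * u 0)
      (x 1 * x 2 * (-u 3) + x 0 * x 2 * u 2 + x 0 * x 1 * (-u 1))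
      (x 0 * x 1 * x 2) (y 0 ^ 2 + y 1 ^ 2 + y 2 ^ 2) := hp
  -- q part
  have hus := unit_sq hu
  have htr : hv (frame u hu) Pq y 0 0 + hv (frame u hu) Pq y 1 1 + hv (frame u hu) Pq y 2 2 =
      (u 0 ^ 2 + u 1 ^ 2 + u 2 ^ 2 + u 3 ^ 2) * (HQ (x 0) (x 1) (x 2) (x 3) 0 0
        + HQ (x 0) (x 1) (x 2) (x 3) 1 1 + HQ (x 0) (x 1) (x 2) (x 3) 2 2
        + HQ (x 0) (x 1) (x 2) (x 3) 3 3)
      - (HQ (x 0) (x 1) (x 2) (x 3) 0 0 * u 0 ^ 2 + HQ (x 0) (x 1) (x 2) (x 3) 1 1 * u 1 ^ 2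
        + HQ (x 0) (x 1) (x 2) (x 3) 2 2 * u 2 ^ 2
        + HQ (x 0) (x 1) (x 2) (x 3) 3 3 * u 3 ^ 2 + 2 * HQ (x 0) (x 1) (x 2) (x 3) 0 1 * u 0 * u 1
        + 2 * HQ (x 0) (x 1) (x 2) (x 3) 0 2 * u 0 * u 2
        + 2 * HQ (x 0) (x 1) (x 2) (x 3) 0 3 * u 0 * u 3
        + 2 * HQ (x 0) (x 1) (x 2) (x 3) 1 2 * u 1 * u 2
        + 2 * HQ (x 0) (x 1) (x 2) (x 3) 1 3 * u 1 * u 3
        + 2 * HQ (x 0) (x 1) (x 2) (x 3) 2 3 * u 2 * u 3) := by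
    have hsym : ∀ i j, HQ (x 0) (x 1) (x 2) (x 3) i j = HQ (x 0) (x 1) (x 2) (x 3) j i := by
      intro i j
      fin_cases i <;> fin_cases j <;> simp [HQ]
    have s01 := hsym 1 0
    have s02 := hsym 2 0
    have s03 := hsym 3 0
    have s12 := hsym 2 1
    have s13 := hsym 3 1
    have s23 := hsym 3 2
    simp only [hv, Fin.sum_univ_four, HQ_spec, ← hx]
    rw [s01, s02, s03, s12, s13, s23]
    simp [frame_apply]
    ring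
  have hs1 : s1 (WR (frame u hu) Pq 4 y) = τ ^ 6 * ((y 0 ^ 2 + y 1 ^ 2 + y 2 ^ 2) *
      (hv (frame u hu) Pq y 0 0 + hv (frame u hu) Pq y 1 1 + hv (frame u hu) Pq y 2 2)
      - 39 * ev Pq x) := by
    have h1 := av_sum (frame u hu) Pq_hom y
    rw [Fin.sum_univ_three, ← hx] at h1
    push_cast at h1
    rw [s1, ent_WR, ent_WR, ent_WR, ← hx, ← hτd]
    simp only [if_true]
    push_cast
    linear_combination (-9 * τ ^ 6) * h1 + (30 * ev Pq x * τ ^ 6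
      - τ ^ 4 * (hv (frame u hu) Pq y 0 0 + hv (frame u hu) Pq y 1 1
        + hv (frame u hu) Pq y 2 2)) * hτ
  have hk := key_alg (u 0) (u 1) (u 2) (u 3) (y 0) (y 1) (y 2) (x 0) (x 1) (x 2) (x 3)
    (y 0 ^ 2 + y 1 ^ 2 + y 2 ^ 2) (x 0 ^ 2 + x 1 ^ 2 + x 2 ^ 2 + x 3 ^ 2) hx0 hx1 hx2 hx3 rfl rfl
  have hmon : ∀ a b c : ℕ, mon a b c y = τ ^ 6 * (y 0 ^ a * y 1 ^ b * y 2 ^ c) := by
    intro a b c; rw [mon]; ring
  have hsum : ∑ a ∈ Finset.range 7, ∑ b ∈ Finset.range (7 - a),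
        cc (u 0) (u 1) (u 2) (u 3) a b * mon a b (6 - a - b) y =
      τ ^ 6 * ∑ a ∈ Finset.range 7, ∑ b ∈ Finset.range (7 - a),
        cc (u 0) (u 1) (u 2) (u 3) a b * (y 0 ^ a * y 1 ^ b * y 2 ^ (6 - a - b)) := by
    simp_rw [hmon, Finset.mul_sum]
    refine Finset.sum_congr rfl fun a _ => Finset.sum_congr rfl fun b _ => ?_
    ring
  rw [hsum, ← hk, hs2, hs1, htr, evPq]
  ring

end Pool.MP_f6b738_gt.IV
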