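import Pool.Agent.Work.MP_f6b738_gt.Mv

set_option autoImplicit false
open MeasureTheory Pointwise Set Metric
open scoped RealInnerProductSpace

set_option linter.unusedSectionVars false

namespace Pool.MP_f6b738_gt.IV

abbrev E3 := EuclideanSpace ℝ (Fin 3)

theorem ball_inv {E : Type*} [NormedAddCommGroup E] [InnerProductSpace ℝ E]
    [FiniteDimensional ℝ E] [MeasurableSpace E] [BorelSpace E] (ρ : E ≃ₗᵢ[ℝ] E) (f : E → ℝ) :
    ∫ y in closedBall (0 : E) 1, f (ρ y) = ∫ y in closedBall (0 : E) 1, f y := by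
  have h1 := ρ.measurePreserving
  have h2 := h1.setIntegral_preimage_emb ρ.toHomeomorph.measurableEmbedding f
    (closedBall (0 : E) 1)
  have h3 : ρ ⁻¹' closedBall (0 : E) 1 = closedBall (0 : E) 1 := by
    ext y; simp
  rw [h3] at h2
  exact h2

/-- the monomials -/
noncomputable def mon (a b c : ℕ) (y : E3) : ℝ := (y 0) ^ a * (y 1) ^ b * (y 2) ^ c * (‖y‖⁻¹) ^ 6

theorem mon_meas (a b c : ℕ) : Measurable (mon a b c) := by
  unfold mon
  have h0 : ∀ i : Fin 3, Measurable fun y : E3 => y i := fun i => by fun_prop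
  have h1 : Measurable fun y : E3 => ‖y‖⁻¹ := measurable_norm.inv
  exact ((((h0 0).pow_const a).mul ((h0 1).pow_const b)).mul ((h0 2).pow_const c)).mul
    (h1.pow_const 6)

theorem mon_bound {a b c : ℕ} (h : a + b + c = 6) (y : E3) : |mon a b c y| ≤ 1 := by
  by_cases hy : y = 0
  · subst hy
    simp [mon]
  have hyn : 0 < ‖y‖ := norm_pos_iff.2 hy
  have h0 : ∀ i : Fin 3, |y i| ≤ ‖y‖ := fun i => by
    have := PiLp.norm_apply_le y i
    simpa using this
  have h1 : |mon a b c y| ≤ ‖y‖ ^ a * ‖y‖ ^ b * ‖y‖ ^ c * (‖y‖⁻¹) ^ 6 := by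
    rw [mon, abs_mul, abs_mul, abs_mul, abs_pow, abs_pow, abs_pow]
    have e1 := pow_le_pow_left₀ (abs_nonneg _) (h0 0) a
    have e2 := pow_le_pow_left₀ (abs_nonneg _) (h0 1) b
    have e3 := pow_le_pow_left₀ (abs_nonneg _) (h0 2) c
    rw [abs_of_nonneg (by positivity : 0 ≤ (‖y‖⁻¹) ^ 6)]
    gcongr
  refine h1.trans (le_of_eq ?_)
  rw [← pow_add, ← pow_add, h, ← mul_pow, mul_inv_cancel₀ hyn.ne', one_pow]

theorem mon_int {a b c : ℕ} (h : a + b + c = 6) :
    IntegrableOn (mon a b c) (closedBall (0 : E3) 1) :=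
  IntegrableOn.of_bound measure_closedBall_lt_top (mon_meas a b c).aestronglyMeasurable 1
    (Filter.Eventually.of_forall fun y => by simpa using mon_bound h y)

noncomputable def J (a b c : ℕ) : ℝ := ∫ y in closedBall (0 : E3) 1, mon a b c y

/-- an isometry from a norm-preserving linear involution -/
noncomputable def mkIso (f : E3 → E3) (hadd : ∀ x y, f (x + y) = f x + f y)
    (hsmul : ∀ (c : ℝ) x, f (c • x) = c • f x) (hinv : ∀ x, f (f x) = x)
    (hn : ∀ x, ‖f x‖ = ‖x‖) : E3 ≃ₗᵢ[ℝ] E3 where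
  toFun := f
  map_add' := hadd
  map_smul' := hsmul
  invFun := f
  left_inv := hinv
  right_inv := hinv
  norm_map' := hn

theorem norm_E3 (y : E3) : ‖y‖ = Real.sqrt (y 0 ^ 2 + y 1 ^ 2 + y 2 ^ 2) := by
  rw [EuclideanSpace.norm_eq]
  simp [Fin.sum_univ_three]

/-- reflection -/
noncomputable def refl0 : E3 ≃ₗᵢ[ℝ] E3 :=
  mkIso (fun y => !₂[-y 0, y 1, y 2]) (by intro x y; ext i; fin_cases i <;> simp; ring)
    (by intro c x; ext i; fin_cases i <;> simp) (by intro x; ext i; fin_cases i <;> simp)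
    (by intro x; rw [norm_E3, norm_E3]; simp)

noncomputable def refl1 : E3 ≃ₗᵢ[ℝ] E3 :=
  mkIso (fun y => !₂[y 0, -y 1, y 2]) (by intro x y; ext i; fin_cases i <;> simp; ring)
    (by intro c x; ext i; fin_cases i <;> simp) (by intro x; ext i; fin_cases i <;> simp)
    (by intro x; rw [norm_E3, norm_E3]; simp)

noncomputable def refl2 : E3 ≃ₗᵢ[ℝ] E3 :=
  mkIso (fun y => !₂[y 0, y 1, -y 2]) (by intro x y; ext i; fin_cases i <;> simp; ring)
    (by intro c x; ext i; fin_cases i <;> simp) (by intro x; ext i; fin_cases i <;> simp)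
    (by intro x; rw [norm_E3, norm_E3]; simp)

/-- swaps -/
noncomputable def sw01 : E3 ≃ₗᵢ[ℝ] E3 :=
  mkIso (fun y => !₂[y 1, y 0, y 2]) (by intro x y; ext i; fin_cases i <;> simp)
    (by intro c x; ext i; fin_cases i <;> simp) (by intro x; ext i; fin_cases i <;> simp)
    (by intro x; rw [norm_E3, norm_E3]; simp; congr 1; ring)

noncomputable def sw12 : E3 ≃ₗᵢ[ℝ] E3 :=
  mkIso (fun y => !₂[y 0, y 2, y 1]) (by intro x y; ext i; fin_cases i <;> simp)
    (by intro c x; ext i; fin_cases i <;> simp) (by intro x; ext i; fin_cases i <;> simp)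
    (by intro x; rw [norm_E3, norm_E3]; simp; congr 1; ring)

theorem sqrt2_inv_sq : (Real.sqrt 2)⁻¹ * (Real.sqrt 2)⁻¹ = 1 / 2 := by
  rw [← mul_inv, Real.mul_self_sqrt (by norm_num)]; norm_num

/-- the 45 degree reflection -/
noncomputable def rot : E3 ≃ₗᵢ[ℝ] E3 :=
  mkIso (fun y => !₂[(Real.sqrt 2)⁻¹ * (y 0 + y 1), (Real.sqrt 2)⁻¹ * (y 0 - y 1), y 2])
    (by intro x y; ext i; fin_cases i <;> simp <;> ring)
    (by intro c x; ext i; fin_cases i <;> simp <;> ring)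
    (by
      intro x
      have h := sqrt2_inv_sq
      ext i; fin_cases i <;> simp
      · linear_combination (2 * x 0) * h
      · linear_combination (2 * x 1) * h)
    (by
      intro x
      have h := sqrt2_inv_sq
      rw [norm_E3, norm_E3]; simp; congr 1
      have h2 : (Real.sqrt 2)⁻¹ ^ 2 = 1 / 2 := by rw [sq]; exact h
      linear_combination ((x 0 + x 1) ^ 2 + (x 0 - x 1) ^ 2) * h2)

theorem J_odd0 {a b c : ℕ} (h : Odd a) : J a b c = 0 := by
  have h1 := ball_inv refl0 (mon a b c)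
  have h2 : ∀ y, mon a b c (refl0 y) = -mon a b c y := by
    intro y
    rw [mon, mon, refl0.norm_map]
    have : (refl0 y) 0 = - y 0 ∧ (refl0 y) 1 = y 1 ∧ (refl0 y) 2 = y 2 := by
      refine ⟨?_, ?_, ?_⟩ <;> simp [refl0, mkIso]
    rw [this.1, this.2.1, this.2.2, h.neg_pow]
    ring
  simp_rw [h2] at h1
  rw [integral_neg] at h1
  change -J a b c = J a b c at h1
  linarith

theorem J_odd1 {a b c : ℕ} (h : Odd b) : J a b c = 0 := by
  have h1 := ball_inv refl1 (mon a b c)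
  have h2 : ∀ y, mon a b c (refl1 y) = -mon a b c y := by
    intro y
    rw [mon, mon, refl1.norm_map]
    have : (refl1 y) 0 = y 0 ∧ (refl1 y) 1 = -y 1 ∧ (refl1 y) 2 = y 2 := by
      refine ⟨?_, ?_, ?_⟩ <;> simp [refl1, mkIso]
    rw [this.1, this.2.1, this.2.2, h.neg_pow]
    ring
  simp_rw [h2] at h1
  rw [integral_neg] at h1
  change -J a b c = J a b c at h1
  linarith

theorem J_odd2 {a b c : ℕ} (h : Odd c) : J a b c = 0 := by
  have h1 := ball_inv refl2 (mon a b c)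
  have h2 : ∀ y, mon a b c (refl2 y) = -mon a b c y := by
    intro y
    rw [mon, mon, refl2.norm_map]
    have : (refl2 y) 0 = y 0 ∧ (refl2 y) 1 = y 1 ∧ (refl2 y) 2 = -y 2 := by
      refine ⟨?_, ?_, ?_⟩ <;> simp [refl2, mkIso]
    rw [this.1, this.2.1, this.2.2, h.neg_pow]
    ring
  simp_rw [h2] at h1
  rw [integral_neg] at h1
  change -J a b c = J a b c at h1
  linarith

theorem J_sw01 (a b c : ℕ) : J a b c = J b a c := by
  have h1 := ball_inv sw01 (mon a b c)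
  have h2 : ∀ y, mon a b c (sw01 y) = mon b a c y := by
    intro y
    rw [mon, mon, sw01.norm_map]
    have : (sw01 y) 0 = y 1 ∧ (sw01 y) 1 = y 0 ∧ (sw01 y) 2 = y 2 := by
      refine ⟨?_, ?_, ?_⟩ <;> simp [sw01, mkIso]
    rw [this.1, this.2.1, this.2.2]
    ring
  simp_rw [h2] at h1
  exact h1.symm

theorem J_sw12 (a b c : ℕ) : J a b c = J a c b := by
  have h1 := ball_inv sw12 (mon a b c)
  have h2 : ∀ y, mon a b c (sw12 y) = mon a c b y := by
    intro y
    rw [mon, mon, sw12.norm_map]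
    have : (sw12 y) 0 = y 0 ∧ (sw12 y) 1 = y 2 ∧ (sw12 y) 2 = y 1 := by
      refine ⟨?_, ?_, ?_⟩ <;> simp [sw12, mkIso]
    rw [this.1, this.2.1, this.2.2]
    ring
  simp_rw [h2] at h1
  exact h1.symm

theorem rot_apply (y : E3) : (rot y) 0 = (Real.sqrt 2)⁻¹ * (y 0 + y 1) ∧
    (rot y) 1 = (Real.sqrt 2)⁻¹ * (y 0 - y 1) ∧ (rot y) 2 = y 2 := by
  refine ⟨?_, ?_, ?_⟩ <;> simp [rot, mkIso]

theorem J6 : J 6 0 0 = 5 * J 4 2 0 := by
  have h1 := ball_inv rot (mon 6 0 0)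
  have e2 : ((Real.sqrt 2)⁻¹) ^ 2 = 1 / 2 := by rw [sq]; exact sqrt2_inv_sq
  have e6 : ((Real.sqrt 2)⁻¹) ^ 6 = 1 / 8 := by
    have : ((Real.sqrt 2)⁻¹) ^ 6 = (((Real.sqrt 2)⁻¹) ^ 2) ^ 3 := by ring
    rw [this, e2]; norm_num
  have h2 : ∀ y, mon 6 0 0 (rot y) = (1 / 8) * (mon 6 0 0 y + 6 * mon 5 1 0 y + 15 * mon 4 2 0 y
      + 20 * mon 3 3 0 y + 15 * mon 2 4 0 y + 6 * mon 1 5 0 y + mon 0 6 0 y) := by
    intro y
    simp only [mon]
    rw [rot.norm_map, (rot_apply y).1, mul_pow, e6]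
    ring
  simp_rw [h2] at h1
  rw [integral_const_mul] at h1
  have i : ∀ a b c : ℕ, a + b + c = 6 → IntegrableOn (mon a b c) (closedBall (0 : E3) 1) :=
    fun a b c h => mon_int h
  have h3 : ∫ y in closedBall (0 : E3) 1, (mon 6 0 0 y + 6 * mon 5 1 0 y + 15 * mon 4 2 0 y
      + 20 * mon 3 3 0 y + 15 * mon 2 4 0 y + 6 * mon 1 5 0 y + mon 0 6 0 y) =
      J 6 0 0 + 6 * J 5 1 0 + 15 * J 4 2 0 + 20 * J 3 3 0 + 15 * J 2 4 0 + 6 * J 1 5 0
      + J 0 6 0 := by
    have j6 := i 6 0 0 rfl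
    have j5 := (i 5 1 0 rfl).const_mul 6
    have j4 := (i 4 2 0 rfl).const_mul 15
    have j3 := (i 3 3 0 rfl).const_mul 20
    have j2 := (i 2 4 0 rfl).const_mul 15
    have j1 := (i 1 5 0 rfl).const_mul 6
    have j0 := i 0 6 0 rfl
    have k5 : IntegrableOn (fun y => mon 6 0 0 y + 6 * mon 5 1 0 y) (closedBall (0 : E3) 1) :=
      j6.add j5
    have k4 : IntegrableOn (fun y => mon 6 0 0 y + 6 * mon 5 1 0 y + 15 * mon 4 2 0 y)
      (closedBall (0 : E3) 1) := k5.add j4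
    have k3 : IntegrableOn (fun y => mon 6 0 0 y + 6 * mon 5 1 0 y + 15 * mon 4 2 0 y
      + 20 * mon 3 3 0 y) (closedBall (0 : E3) 1) := k4.add j3
    have k2 : IntegrableOn (fun y => mon 6 0 0 y + 6 * mon 5 1 0 y + 15 * mon 4 2 0 y
      + 20 * mon 3 3 0 y + 15 * mon 2 4 0 y) (closedBall (0 : E3) 1) := k3.add j2
    have k1 : IntegrableOn (fun y => mon 6 0 0 y + 6 * mon 5 1 0 y + 15 * mon 4 2 0 y
      + 20 * mon 3 3 0 y + 15 * mon 2 4 0 y + 6 * mon 1 5 0 y) (closedBall (0 : E3) 1) := k2.add j1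
    rw [integral_add k1 j0, integral_add k2 j1, integral_add k3 j2, integral_add k4 j3,
      integral_add k5 j4, integral_add j6 j5]
    simp only [integral_const_mul]
    rfl
  rw [h3] at h1
  change _ = J 6 0 0 at h1
  rw [J_odd0 (a := 5) (by decide), J_odd0 (a := 3) (by decide), J_odd0 (a := 1) (by decide),
    J_sw01 2 4 0, J_sw01 0 6 0] at h1
  linarith

theorem J42 : J 4 2 0 = 3 * J 2 2 2 := by
  have h1 := ball_inv rot (mon 4 0 2)
  have e2 : ((Real.sqrt 2)⁻¹) ^ 2 = 1 / 2 := by rw [sq]; exact sqrt2_inv_sq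
  have e4 : ((Real.sqrt 2)⁻¹) ^ 4 = 1 / 4 := by
    have : ((Real.sqrt 2)⁻¹) ^ 4 = (((Real.sqrt 2)⁻¹) ^ 2) ^ 2 := by ring
    rw [this, e2]; norm_num
  have h2 : ∀ y, mon 4 0 2 (rot y) = (1 / 4) * (mon 4 0 2 y + 4 * mon 3 1 2 y + 6 * mon 2 2 2 y
      + 4 * mon 1 3 2 y + mon 0 4 2 y) := by
    intro y
    simp only [mon]
    rw [rot.norm_map, (rot_apply y).1, (rot_apply y).2.2, mul_pow, e4]
    ring
  simp_rw [h2] at h1
  rw [integral_const_mul] at h1
  have i : ∀ a b c : ℕ, a + b + c = 6 → IntegrableOn (mon a b c) (closedBall (0 : E3) 1) :=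
    fun a b c h => mon_int h
  have h3 : ∫ y in closedBall (0 : E3) 1, (mon 4 0 2 y + 4 * mon 3 1 2 y + 6 * mon 2 2 2 y
      + 4 * mon 1 3 2 y + mon 0 4 2 y) =
      J 4 0 2 + 4 * J 3 1 2 + 6 * J 2 2 2 + 4 * J 1 3 2 + J 0 4 2 := by
    have j4 := i 4 0 2 rfl
    have j3 := (i 3 1 2 rfl).const_mul 4
    have j2 := (i 2 2 2 rfl).const_mul 6
    have j1 := (i 1 3 2 rfl).const_mul 4
    have j0 := i 0 4 2 rfl
    have k3 : IntegrableOn (fun y => mon 4 0 2 y + 4 * mon 3 1 2 y) (closedBall (0 : E3) 1) :=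
      j4.add j3
    have k2 : IntegrableOn (fun y => mon 4 0 2 y + 4 * mon 3 1 2 y + 6 * mon 2 2 2 y)
      (closedBall (0 : E3) 1) := k3.add j2
    have k1 : IntegrableOn (fun y => mon 4 0 2 y + 4 * mon 3 1 2 y + 6 * mon 2 2 2 y
      + 4 * mon 1 3 2 y) (closedBall (0 : E3) 1) := k2.add j1
    rw [integral_add k1 j0, integral_add k2 j1, integral_add k3 j2, integral_add j4 j3]
    simp only [integral_const_mul]
    rfl
  rw [h3] at h1
  change _ = J 4 0 2 at h1
  rw [J_odd0 (a := 3) (by decide), J_odd0 (a := 1) (by decide),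
    J_sw01 0 4 2, J_sw12 4 0 2] at h1
  linarith

/-- integral of a sextic form over the ball, divided by `‖y‖^6`. -/
theorem sextic (c : ℕ → ℕ → ℝ) 
    (h0 : 15 * (c 6 0 + c 0 6 + c 0 0) + 3 * (c 4 2 + c 4 0 + c 2 4 + c 0 4 + c 2 0 + c 0 2)
      + c 2 2 = 0) :
    ∫ y in closedBall (0 : E3) 1, (∑ a ∈ Finset.range 7, ∑ b ∈ Finset.range (7 - a),
      c a b * mon a b (6 - a - b) y) = 0 := by
  have h1 : ∫ y in closedBall (0 : E3) 1, (∑ a ∈ Finset.range 7, ∑ b ∈ Finset.range (7 - a),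
      c a b * mon a b (6 - a - b) y) =
      ∑ a ∈ Finset.range 7, ∑ b ∈ Finset.range (7 - a), c a b * J a b (6 - a - b) := by
    have hint : ∀ a ∈ Finset.range 7, ∀ b ∈ Finset.range (7 - a),
        IntegrableOn (fun y => c a b * mon a b (6 - a - b) y) (closedBall (0 : E3) 1) := by
      intro a ha b hb
      rw [Finset.mem_range] at ha hb
      exact (mon_int (by omega)).const_mul _
    rw [integral_finsetSum]
    · refine Finset.sum_congr rfl fun a ha => ?_
      rw [integral_finsetSum]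
      · refine Finset.sum_congr rfl fun b hb => ?_
        rw [integral_const_mul]
        rfl
      · intro b hb
        exact hint a ha b hb
    · intro a ha
      exact integrable_finsetSum _ fun b hb => hint a ha b hb
  rw [h1]
  have z015 : J 0 1 5 = 0 := J_odd1 (by decide)
  have z033 : J 0 3 3 = 0 := J_odd1 (by decide)
  have z051 : J 0 5 1 = 0 := J_odd1 (by decide)
  have z105 : J 1 0 5 = 0 := J_odd0 (by decide)
  have z114 : J 1 1 4 = 0 := J_odd0 (by decide)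
  have z123 : J 1 2 3 = 0 := J_odd0 (by decide)
  have z132 : J 1 3 2 = 0 := J_odd0 (by decide)
  have z141 : J 1 4 1 = 0 := J_odd0 (by decide)
  have z150 : J 1 5 0 = 0 := J_odd0 (by decide)
  have z213 : J 2 1 3 = 0 := J_odd1 (by decide)
  have z231 : J 2 3 1 = 0 := J_odd1 (by decide)
  have z303 : J 3 0 3 = 0 := J_odd0 (by decide)
  have z312 : J 3 1 2 = 0 := J_odd0 (by decide)
  have z321 : J 3 2 1 = 0 := J_odd0 (by decide)
  have z330 : J 3 3 0 = 0 := J_odd0 (by decide)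
  have z411 : J 4 1 1 = 0 := J_odd1 (by decide)
  have z501 : J 5 0 1 = 0 := J_odd0 (by decide)
  have z510 : J 5 1 0 = 0 := J_odd0 (by decide)
  have v1 : J 6 0 0 = 15 * J 2 2 2 := by rw [J6, J42]; ring
  have v2 : J 0 6 0 = 15 * J 2 2 2 := by rw [J_sw01, v1]
  have v3 : J 0 0 6 = 15 * J 2 2 2 := by rw [J_sw12, v2]
  have w1 : J 4 2 0 = 3 * J 2 2 2 := J42
  have w2 : J 4 0 2 = 3 * J 2 2 2 := by rw [J_sw12, w1]
  have w3 : J 2 4 0 = 3 * J 2 2 2 := by rw [J_sw01, w1]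
  have w4 : J 0 4 2 = 3 * J 2 2 2 := by rw [J_sw01, w2]
  have w5 : J 2 0 4 = 3 * J 2 2 2 := by rw [J_sw12, w3]
  have w6 : J 0 2 4 = 3 * J 2 2 2 := by rw [J_sw12, w4]
  simp only [Finset.sum_range_succ, Finset.sum_range_zero, zero_add, Nat.sub_zero, Nat.reduceSub]
  rw [v1, v2, v3, w1, w2, w3, w4, w5, w6, z015, z033, z051, z105, z114, z123, z132, z141, z150, z213, z231, z303, z312, z321, z330, z411, z501, z510]
  linear_combination (J 2 2 2) * h0

end Pool.MP_f6b738_gt.IV
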