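import Pool.Agent.Work.MP_f6b738_gt.OfHom

set_option autoImplicit false
open MeasureTheory Pointwise Set Metric MvPolynomial
open scoped RealInnerProductSpace

set_option linter.unusedSectionVars false

namespace Pool.MP_f6b738_gt.IV

section

variable {n : ℕ}

/-- evaluation of polynomials on euclidean space -/
noncomputable def ev (P : MvPolynomial (Fin n) ℝ) (x : EuclideanSpace ℝ (Fin n)) : ℝ :=
  MvPolynomial.eval (fun i => x i) P

theorem ev_hasFDerivAt (P : MvPolynomial (Fin n) ℝ) (x : EuclideanSpace ℝ (Fin n)) :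
    HasFDerivAt (ev P) (∑ j, ev (pderiv j P) x • (EuclideanSpace.proj j :
      EuclideanSpace ℝ (Fin n) →L[ℝ] ℝ)) x := by
  induction P using MvPolynomial.induction_on with
  | C a =>
    have h1 : (ev (C a) : EuclideanSpace ℝ (Fin n) → ℝ) = fun _ => a := by
      funext y; simp [ev]
    rw [h1]
    refine (hasFDerivAt_const a x).congr_fderiv ?_
    simp [ev]
  | add p q hp hq =>
    have h1 : (ev (p + q) : EuclideanSpace ℝ (Fin n) → ℝ) = fun y => ev p y + ev q y := by
      funext y; simp [ev]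
    rw [h1]
    refine (hp.add hq).congr_fderiv ?_
    simp only [← Finset.sum_add_distrib, ← add_smul]
    refine Finset.sum_congr rfl fun j _ => ?_
    congr 1
    simp [ev]
  | mul_X p i hp =>
    have h1 : (ev (p * X i) : EuclideanSpace ℝ (Fin n) → ℝ) = fun y => ev p y * y i := by
      funext y; simp [ev]
    rw [h1]
    have h2 : HasFDerivAt (fun y : EuclideanSpace ℝ (Fin n) => y i)
      (EuclideanSpace.proj i : EuclideanSpace ℝ (Fin n) →L[ℝ] ℝ) x :=
      (EuclideanSpace.proj i : EuclideanSpace ℝ (Fin n) →L[ℝ] ℝ).hasFDerivAt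
    refine (hp.mul h2).congr_fderiv ?_
    ext w
    simp only [add_apply, smul_apply, sum_apply, smul_eq_mul]
    have h3 : ∀ j, ev (pderiv j (p * X i)) x =
        ev p x * (if i = j then 1 else 0) + ev (pderiv j p) x * x i := by
      intro j
      rw [Derivation.leibniz, pderiv_X]
      simp only [ev, smul_eq_mul, map_add, map_mul, eval_X]
      by_cases hij : i = j
      · subst hij; simp; ring
      · simp [hij]; ring
    simp_rw [h3, add_mul, Finset.sum_add_distrib]
    simp [Finset.mul_sum]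
    refine Finset.sum_congr rfl fun j _ => ?_
    ring

/-- gradient vector -/
noncomputable def gradv (P : MvPolynomial (Fin n) ℝ) (x : EuclideanSpace ℝ (Fin n)) :
    EuclideanSpace ℝ (Fin n) := WithLp.toLp 2 fun i => ev (pderiv i P) x

/-- operator with matrix `H` -/
noncomputable def opOf (H : Fin n → Fin n → ℝ) :
    EuclideanSpace ℝ (Fin n) →L[ℝ] EuclideanSpace ℝ (Fin n) :=
  ∑ i, ∑ j, H i j • ((EuclideanSpace.proj j :
    EuclideanSpace ℝ (Fin n) →L[ℝ] ℝ).smulRight (EuclideanSpace.single i (1 : ℝ)))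

theorem opOf_apply (H : Fin n → Fin n → ℝ) (w : EuclideanSpace ℝ (Fin n)) (i : Fin n) :
    (opOf H w) i = ∑ j, H i j * w j := by
  simp only [opOf, sum_apply, smul_apply, ContinuousLinearMap.smulRight_apply,
    PiLp.proj_apply, WithLp.ofLp_sum, WithLp.ofLp_smul, Finset.sum_apply, Pi.smul_apply,
    smul_eq_mul, PiLp.single_apply]
  rw [Finset.sum_eq_single i]
  · simp
  · intro b _ hb
    simp [hb.symm]
  · simp

/-- hessian -/
noncomputable def hessv (P : MvPolynomial (Fin n) ℝ) (x : EuclideanSpace ℝ (Fin n)) :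
    EuclideanSpace ℝ (Fin n) →L[ℝ] EuclideanSpace ℝ (Fin n) :=
  opOf fun i j => ev (pderiv j (pderiv i P)) x

theorem gradv_spec (P : MvPolynomial (Fin n) ℝ) (x : EuclideanSpace ℝ (Fin n)) :
    HasFDerivAt (ev P) (innerSL ℝ (gradv P x)) x := by
  refine (ev_hasFDerivAt P x).congr_fderiv ?_
  ext w
  simp [gradv, PiLp.inner_apply, mul_comm]

theorem hessv_spec (P : MvPolynomial (Fin n) ℝ) (x : EuclideanSpace ℝ (Fin n)) :
    HasFDerivAt (gradv P) (hessv P x) x := by
  rw [← hasFDerivWithinAt_univ, hasFDerivWithinAt_euclidean]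
  intro i
  rw [hasFDerivWithinAt_univ]
  refine (ev_hasFDerivAt (pderiv i P) x).congr_fderiv ?_
  ext w
  simp [hessv, opOf_apply]

theorem ev_smul {P : MvPolynomial (Fin n) ℝ} {d : ℕ} (hP : P.IsHomogeneous d) (t : ℝ)
    (x : EuclideanSpace ℝ (Fin n)) : ev P (t • x) = t ^ d * ev P x := by
  rw [ev, eval_eq', ev, eval_eq', Finset.mul_sum]
  refine Finset.sum_congr rfl fun m hm => ?_
  have hd : ∑ i, m i = d := by
    by_contra hne
    have h1 := hP.coeff_eq_zero (d := m) (by rwa [Finsupp.degree_eq_sum])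
    exact (mem_support_iff.1 hm) h1
  have h2 : ∏ i, (t • x) i ^ m i = t ^ d * ∏ i, x i ^ m i := by
    simp [mul_pow, Finset.prod_mul_distrib, Finset.prod_pow_eq_pow_sum, hd]
  rw [h2]
  ring

theorem gradv_smul {P : MvPolynomial (Fin n) ℝ} {j : ℕ} (hP : P.IsHomogeneous (j + 2)) (t : ℝ)
    (x : EuclideanSpace ℝ (Fin n)) : gradv P (t • x) = t ^ (j + 1) • gradv P x := by
  ext i
  have h1 : (pderiv i P).IsHomogeneous (j + 1) := hP.pderiv
  simp [gradv, ev_smul h1]

theorem hessv_smul {P : MvPolynomial (Fin n) ℝ} {j : ℕ} (hP : P.IsHomogeneous (j + 2)) (t : ℝ)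
    (x : EuclideanSpace ℝ (Fin n)) : hessv P (t • x) = t ^ j • hessv P x := by
  ext w i
  have h1 : ∀ k, (pderiv k (pderiv i P)).IsHomogeneous j := fun k =>
    (hP.pderiv (i := i)).pderiv (i := k)
  simp [hessv, opOf_apply, ev_smul (h1 _), Finset.mul_sum, mul_assoc]

theorem ev_euler {P : MvPolynomial (Fin n) ℝ} {d : ℕ} (hP : P.IsHomogeneous d)
    (x : EuclideanSpace ℝ (Fin n)) : ⟪gradv P x, x⟫ = d * ev P x := by
  have h1 := congrArg (fun Q => ev Q x) hP.sum_X_mul_pderiv
  simp only [ev, map_sum, map_mul, eval_X, nsmul_eq_mul] at h1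
  simp only [gradv, PiLp.inner_apply, ev]
  simp only [map_natCast] at h1
  rw [← h1]
  simp

theorem ev_continuous (P : MvPolynomial (Fin n) ℝ) : Continuous (ev P) :=
  continuous_iff_continuousAt.2 fun x => (ev_hasFDerivAt P x).continuousAt

theorem hessv_continuous (P : MvPolynomial (Fin n) ℝ) : Continuous (hessv P) := by
  unfold hessv opOf
  refine continuous_finsetSum _ fun i _ => continuous_finsetSum _ fun j _ => ?_
  exact (ev_continuous _).smul continuous_const

theorem Piece.ofMv {P : MvPolynomial (Fin n) ℝ} {j : ℕ} (hP : P.IsHomogeneous (j + 2)) :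
    ∃ C, Piece (fun x => ev P x * (‖x‖⁻¹) ^ (j + 1)) (VV (ev P) (gradv P) j)
      (WW (ev P) (gradv P) (hessv P) j) C := by
  refine Piece.ofHom (ev P) (gradv P) (hessv P) j (gradv_spec P) (hessv_spec P)
    (hessv_continuous P) (fun t _ x => ev_smul hP t x) (fun t _ x => gradv_smul hP t x)
    (fun t _ x => hessv_smul hP t x) ?_
  intro x
  rw [ev_euler hP]
  push_cast
  ring

end

end Pool.MP_f6b738_gt.IV
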