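import Pool.Agent.Work.MP_f6b738_gt.Piece

set_option autoImplicit false
open MeasureTheory Pointwise Set Metric
open scoped RealInnerProductSpace

set_option linter.unusedSectionVars false

namespace Pool.MP_f6b738_gt.IV

section

variable {E : Type*} [NormedAddCommGroup E] [InnerProductSpace ℝ E] [FiniteDimensional ℝ E]

theorem hasFDerivAt_inv_norm_pow (m : ℕ) {x : E} (hx : x ≠ 0) :
    HasFDerivAt (fun x : E => (‖x‖⁻¹) ^ m) (-(m * (‖x‖⁻¹) ^ (m + 2)) • innerSL ℝ x) x := by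
  have hxn : 0 < ‖x‖ := norm_pos_iff.2 hx
  have h2 := (hasStrictFDerivAt_norm_sq x).hasFDerivAt
  have h3 := h2.sqrt (by positivity : ‖x‖ ^ 2 ≠ 0)
  have h4 : (fun y : E => Real.sqrt (‖y‖ ^ 2)) = fun y => ‖y‖ := by
    funext y; exact Real.sqrt_sq (norm_nonneg y)
  rw [h4, Real.sqrt_sq (norm_nonneg x)] at h3
  have h5 := ((hasDerivAt_inv hxn.ne').comp_hasFDerivAt x h3).pow m
  refine h5.congr_fderiv ?_
  ext y
  rcases m with _ | m
  · simp
  · simp
    field_simp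
    ring

/-- derivative of `‖x‖ V x` -/
noncomputable def WW (Φ : E → ℝ) (A : E → E) (Hs : E → E →L[ℝ] E) (j : ℕ) (x : E) : E →L[ℝ] E :=
  ((‖x‖⁻¹) ^ j) • Hs x - (j * (‖x‖⁻¹) ^ (j + 2)) • (innerSL ℝ x).smulRight (A x)
    - ((j + 1) * (‖x‖⁻¹) ^ (j + 2)) • (innerSL ℝ (A x)).smulRight x
    + ((j + 1) * (j + 2) * Φ x * (‖x‖⁻¹) ^ (j + 4)) • (innerSL ℝ x).smulRight x
    - ((j + 1) * Φ x * (‖x‖⁻¹) ^ (j + 2)) • ContinuousLinearMap.id ℝ E

/-- gradient of `Φ x / ‖x‖^(j+1)` -/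
noncomputable def VV (Φ : E → ℝ) (A : E → E) (j : ℕ) (x : E) : E :=
  ((‖x‖⁻¹) ^ (j + 1)) • A x - ((j + 1) * Φ x * (‖x‖⁻¹) ^ (j + 3)) • x

theorem Piece.ofHom (Φ : E → ℝ) (A : E → E) (Hs : E → E →L[ℝ] E) (j : ℕ)
    (hΦ : ∀ x, HasFDerivAt Φ (innerSL ℝ (A x)) x) (hA : ∀ x, HasFDerivAt A (Hs x) x)
    (hHc : Continuous Hs)
    (h1 : ∀ t : ℝ, 0 < t → ∀ x, Φ (t • x) = t ^ (j + 2) * Φ x)
    (h2 : ∀ t : ℝ, 0 < t → ∀ x, A (t • x) = t ^ (j + 1) • A x)
    (h3 : ∀ t : ℝ, 0 < t → ∀ x, Hs (t • x) = t ^ j • Hs x)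
    (heul : ∀ x, ⟪A x, x⟫ = (j + 2) * Φ x) :
    ∃ C, Piece (fun x => Φ x * (‖x‖⁻¹) ^ (j + 1)) (VV Φ A j) (WW Φ A Hs j) C := by
  have hΦc : Continuous Φ := continuous_iff_continuousAt.2 fun x => (hΦ x).continuousAt
  have hAc : Continuous A := continuous_iff_continuousAt.2 fun x => (hA x).continuousAt
  -- Taylor
  obtain ⟨C1, hC1⟩ : ∃ C1, ∀ x ∈ closedBall (0 : E) 1, ‖Hs x‖ ≤ C1 :=
    (isCompact_closedBall (0 : E) 1).exists_bound_of_continuousOn hHc.continuousOn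
  have hC10 : 0 ≤ C1 := (norm_nonneg _).trans (hC1 0 (by simp))
  obtain ⟨C2, hC2⟩ : ∃ C2, ∀ x ∈ closedBall (0 : E) 1, ‖Φ x‖ ≤ C2 :=
    (isCompact_closedBall (0 : E) 1).exists_bound_of_continuousOn hΦc.continuousOn
  have hC20 : 0 ≤ C2 := (norm_nonneg _).trans (hC2 0 (by simp))
  have hAlip : ∀ z ∈ closedBall (0 : E) 1, ∀ v ∈ closedBall (0 : E) 1,
      ‖A z - A v‖ ≤ C1 * ‖z - v‖ := by
    intro z hz v hv
    exact (convex_closedBall (0 : E) 1).norm_image_sub_le_of_norm_hasFDerivWithin_le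
      (fun x _ => (hA x).hasFDerivWithinAt) hC1 hv hz
  have htay : ∀ z ∈ closedBall (0 : E) 1, ∀ v ∈ closedBall (0 : E) 1,
      |Φ z - Φ v - ⟪A v, z - v⟫| ≤ C1 * ‖z - v‖ ^ 2 := by
    intro z hz v hv
    have hconv : Convex ℝ (closedBall (0 : E) 1 ∩ closedBall v ‖z - v‖) :=
      (convex_closedBall (0 : E) 1).inter (convex_closedBall v _)
    have h5 : ∀ x ∈ closedBall (0 : E) 1 ∩ closedBall v ‖z - v‖,
        HasFDerivWithinAt (fun x => Φ x - ⟪A v, x⟫) (innerSL ℝ (A x) - innerSL ℝ (A v))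
        (closedBall (0 : E) 1 ∩ closedBall v ‖z - v‖) x := by
      intro x _
      exact ((hΦ x).sub (innerSL ℝ (A v)).hasFDerivAt).hasFDerivWithinAt
    have h6 : ∀ x ∈ closedBall (0 : E) 1 ∩ closedBall v ‖z - v‖,
        ‖innerSL ℝ (A x) - innerSL ℝ (A v)‖ ≤ C1 * ‖z - v‖ := by
      intro x hx
      rw [← map_sub, innerSL_apply_norm]
      refine (hAlip x hx.1 v hv).trans ?_
      refine mul_le_mul_of_nonneg_left ?_ hC10
      have := hx.2
      rwa [mem_closedBall, dist_eq_norm] at this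
    have h7 := hconv.norm_image_sub_le_of_norm_hasFDerivWithin_le h5 h6
      ⟨hv, by simp⟩ ⟨hz, by simp [dist_eq_norm]⟩
    have h8 : Φ z - Φ v - ⟪A v, z - v⟫ = (Φ z - ⟪A v, z⟫) - (Φ v - ⟪A v, v⟫) := by
      rw [inner_sub_right]; ring
    rw [h8, ← Real.norm_eq_abs]
    refine h7.trans ?_
    rw [sq, mul_assoc]
  -- continuity of W
  have hinvc : ∀ m : ℕ, ContinuousOn (fun x : E => (‖x‖⁻¹) ^ m) {x | x ≠ 0} := by
    intro m
    refine ContinuousOn.pow ?_ m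
    refine ContinuousOn.inv₀ continuous_norm.continuousOn ?_
    intro x hx
    exact norm_ne_zero_iff.2 hx
  have hWc : ContinuousOn (WW Φ A Hs j) {x | x ≠ 0} := by
    unfold WW
    have i1 := hinvc j
    have i2 := hinvc (j + 2)
    have i4 := hinvc (j + 4)
    have k1 : Continuous fun x : E => (innerSL ℝ x).smulRight (A x) := by
      have : Continuous fun x : E => ContinuousLinearMap.smulRightL ℝ E E (innerSL ℝ x) (A x) := by
        fun_prop
      exact this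
    have k2 : Continuous fun x : E => (innerSL ℝ (A x)).smulRight x := by
      have : Continuous fun x : E => ContinuousLinearMap.smulRightL ℝ E E (innerSL ℝ (A x)) x := by
        fun_prop
      exact this
    have k3 : Continuous fun x : E => (innerSL ℝ x).smulRight x := by
      have : Continuous fun x : E => ContinuousLinearMap.smulRightL ℝ E E (innerSL ℝ x) x := by
        fun_prop
      exact this
    refine ContinuousOn.sub (ContinuousOn.add (ContinuousOn.sub (ContinuousOn.sub ?_ ?_) ?_) ?_) ?_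
    · exact i1.smul hHc.continuousOn
    · exact (continuousOn_const.mul i2).smul k1.continuousOn
    · exact (continuousOn_const.mul i2).smul k2.continuousOn
    · exact ((continuousOn_const.mul hΦc.continuousOn).mul i4).smul k3.continuousOn
    · exact ((continuousOn_const.mul hΦc.continuousOn).mul i2).smul continuousOn_const
  have hWhom : ∀ t : ℝ, 0 < t → ∀ x, x ≠ 0 → WW Φ A Hs j (t • x) = WW Φ A Hs j x := by
    intro t ht x hx
    have hxn : 0 < ‖x‖ := norm_pos_iff.2 hx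
    ext y
    simp only [WW, h1 t ht, h2 t ht, h3 t ht, norm_smul, Real.norm_eq_abs, abs_of_pos ht,
      sub_apply, add_apply, smul_apply, ContinuousLinearMap.smulRight_apply, innerSL_apply_apply,
      inner_smul_left, conj_trivial, smul_smul, mul_inv, mul_pow]
    have e : ∀ n : ℕ, (t⁻¹) ^ n * t ^ n = 1 := by
      intro n; rw [← mul_pow, inv_mul_cancel₀ ht.ne', one_pow]
    congr 1
    · congr 1
      · congr 1
        · congr 1
          · congr 1
            linear_combination (‖x‖⁻¹) ^ j * e j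
          · congr 1
            linear_combination (j * (‖x‖⁻¹) ^ (j + 2) * ⟪x, y⟫) * e (j + 2)
        · congr 1
          linear_combination ((j + 1) * (‖x‖⁻¹) ^ (j + 2) * ⟪A x, y⟫) * e (j + 2)
      · congr 1
        linear_combination ((j + 1) * (j + 2) * Φ x * (‖x‖⁻¹) ^ (j + 4) * ⟪x, y⟫) * e (j + 4)
    · simp only [ContinuousLinearMap.id_apply]
      congr 1
      linear_combination ((j + 1) * Φ x * (‖x‖⁻¹) ^ (j + 2)) * e (j + 2)
  have hsub : sphere (0 : E) 1 ⊆ {x | x ≠ 0} := by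
    intro x hx
    have : ‖x‖ = 1 := by simpa using hx
    intro h0
    rw [h0] at this
    simp at this
  obtain ⟨C3, hC3⟩ : ∃ C3, ∀ x ∈ sphere (0 : E) 1, ‖WW Φ A Hs j x‖ ≤ C3 :=
    (isCompact_sphere (0 : E) 1).exists_bound_of_continuousOn (hWc.mono hsub)
  set C := 2 * C1 + (j + 1) * C2 + |C3| + C2 with hC
  have hCC3 : C3 ≤ C := by
    have := le_abs_self C3
    have : 0 ≤ (j + 1 : ℝ) * C2 := by positivity
    linarith
  have hVhom : ∀ t : ℝ, 0 < t → ∀ x, x ≠ 0 → VV Φ A j (t • x) = VV Φ A j x := by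
    intro t ht x hx
    have hxn : 0 < ‖x‖ := norm_pos_iff.2 hx
    simp only [VV, h1 t ht, h2 t ht, norm_smul, Real.norm_eq_abs, abs_of_pos ht,
      smul_smul, mul_inv, mul_pow]
    have e : ∀ n : ℕ, (t⁻¹) ^ n * t ^ n = 1 := by
      intro n; rw [← mul_pow, inv_mul_cancel₀ ht.ne', one_pow]
    congr 2
    · linear_combination (‖x‖⁻¹) ^ (j + 1) * e (j + 1)
    · linear_combination ((j + 1) * Φ x * (‖x‖⁻¹) ^ (j + 3)) * e (j + 3)
  have hFhom : ∀ t : ℝ, 0 < t → ∀ x, Φ (t • x) * (‖t • x‖⁻¹) ^ (j + 1) =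
      t * (Φ x * (‖x‖⁻¹) ^ (j + 1)) := by
    intro t ht x
    rw [h1 t ht, norm_smul, Real.norm_eq_abs, abs_of_pos ht, mul_inv, mul_pow]
    have e : (t⁻¹) ^ (j + 1) * t ^ (j + 1) = 1 := by
      rw [← mul_pow, inv_mul_cancel₀ ht.ne', one_pow]
    linear_combination (t * Φ x * (‖x‖⁻¹) ^ (j + 1)) * e
  have hΦ0 : Φ 0 = 0 := by
    have := h1 2 (by norm_num) 0
    rw [smul_zero] at this
    have h5 : (2 : ℝ) ≤ 2 ^ (j + 2) := by
      have : (2 : ℝ) ^ 1 ≤ 2 ^ (j + 2) := pow_le_pow_right₀ (by norm_num) (by omega)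
      simpa using this
    nlinarith
  have hunit : ∀ x : E, x ≠ 0 → ‖(‖x‖⁻¹ • x)‖ = 1 := by
    intro x hx
    have hxn : 0 < ‖x‖ := norm_pos_iff.2 hx
    simp [norm_smul, inv_mul_cancel₀ hxn.ne']
  -- Taylor for unit vectors
  have htayu : ∀ v x : E, ‖v‖ = 1 → ‖x‖ = 1 →
      |Φ x - ⟪VV Φ A j v, x⟫| ≤ C * (1 - ⟪v, x⟫) := by
    intro v x hv hx
    have h5 := htay x (by simp [hx]) v (by simp [hv])
    have h6 : ‖x - v‖ ^ 2 = 2 * (1 - ⟪v, x⟫) := by
      rw [norm_sub_sq_real, hv, hx, real_inner_comm]; ring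
    have h7 : Φ x - ⟪VV Φ A j v, x⟫ = (Φ x - Φ v - ⟪A v, x - v⟫) -
        (j + 1) * Φ v * (1 - ⟪v, x⟫) := by
      rw [VV, inner_sub_left, inner_smul_left, inner_smul_left, inner_sub_right, heul, hv]
      simp only [inv_one, one_pow, conj_trivial]
      ring
    have h8 : 0 ≤ 1 - ⟪v, x⟫ := by
      have := real_inner_le_norm v x
      rw [hv, hx] at this
      linarith
    have h9 : |(j + 1) * Φ v * (1 - ⟪v, x⟫)| ≤ (j + 1) * C2 * (1 - ⟪v, x⟫) := by
      rw [abs_mul, abs_mul, abs_of_nonneg h8, abs_of_nonneg (by positivity : (0 : ℝ) ≤ j + 1)]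
      refine mul_le_mul_of_nonneg_right ?_ h8
      exact mul_le_mul_of_nonneg_left (hC2 v (by simp [hv])) (by positivity)
    rw [h7]
    refine (abs_sub _ _).trans ?_
    rw [h6] at h5
    have h10 : 0 ≤ |C3| := abs_nonneg _
    have h11 : C * (1 - ⟪v, x⟫) = C1 * (2 * (1 - ⟪v, x⟫)) + (j + 1) * C2 * (1 - ⟪v, x⟫)
      + (|C3| + C2) * (1 - ⟪v, x⟫) := by rw [hC]; ring
    have h12 : 0 ≤ (|C3| + C2) * (1 - ⟪v, x⟫) := by positivity
    linarith
  refine ⟨C, ?_, ?_, ?_, ?_, ?_, ?_, ?_, ?_, ?_⟩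
  · exact hFhom
  · intro x hx
    have h5 := (hΦ x).mul (hasFDerivAt_inv_norm_pow (j + 1) hx)
    refine h5.congr_fderiv ?_
    ext y
    simp [VV]
    ring
  · exact hVhom
  · intro x hx
    have hxn : 0 < ‖x‖ := norm_pos_iff.2 hx
    rw [VV, inner_sub_left, inner_smul_left, inner_smul_left, heul, real_inner_self_eq_norm_sq]
    simp only [conj_trivial]
    have e : ‖x‖⁻¹ * ‖x‖ = 1 := inv_mul_cancel₀ hxn.ne'
    linear_combination (-(j + 1) * Φ x * (‖x‖⁻¹) ^ (j + 1) * (‖x‖⁻¹ * ‖x‖ + 1)) * e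
  · intro v hv x
    have hvn : 0 < ‖v‖ := norm_pos_iff.2 hv
    by_cases hx : x = 0
    · simp [hx, hΦ0]
    have hxn : 0 < ‖x‖ := norm_pos_iff.2 hx
    have h5 := htayu (‖v‖⁻¹ • v) (‖x‖⁻¹ • x) (hunit v hv) (hunit x hx)
    rw [hVhom _ (inv_pos.2 hvn) v hv, h1 _ (inv_pos.2 hxn)] at h5
    rw [inner_smul_right, inner_smul_left, inner_smul_right] at h5
    simp only [conj_trivial] at h5
    have h6 := mul_le_mul_of_nonneg_left h5 hxn.le
    have h7 : ‖x‖ * (C * (1 - ‖v‖⁻¹ * (‖x‖⁻¹ * ⟪v, x⟫))) = C * (‖x‖ - ‖v‖⁻¹ * ⟪v, x⟫) := by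
      field_simp
    rw [h7] at h6
    have h8 : ∀ X : ℝ, ‖x‖ * |X| = |‖x‖ * X| := fun X => by rw [abs_mul, abs_of_pos hxn]
    rw [h8] at h6
    refine le_trans (le_of_eq ?_) h6
    congr 1
    have e : ‖x‖⁻¹ * ‖x‖ = 1 := inv_mul_cancel₀ hxn.ne'
    linear_combination (-(Φ x * (‖x‖⁻¹) ^ (j + 1) - ⟪VV Φ A j v, x⟫)) * e
  · intro x hx
    have hxn : 0 < ‖x‖ := norm_pos_iff.2 hx
    have h5 : (fun x => ‖x‖ • VV Φ A j x) =ᶠ[nhds x]
        fun x => ((‖x‖⁻¹) ^ j) • A x - ((j + 1) * Φ x * (‖x‖⁻¹) ^ (j + 2)) • x := by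
      have : ∀ᶠ y in nhds x, y ≠ 0 := isOpen_ne.mem_nhds hx
      filter_upwards [this] with y hy
      have hyn : 0 < ‖y‖ := norm_pos_iff.2 hy
      rw [VV, smul_sub, smul_smul, smul_smul]
      have e : ‖y‖⁻¹ * ‖y‖ = 1 := inv_mul_cancel₀ hyn.ne'
      congr 2
      · linear_combination (‖y‖⁻¹) ^ j * e
      · linear_combination ((j + 1) * Φ y * (‖y‖⁻¹) ^ (j + 2)) * e
    refine HasFDerivAt.congr_of_eventuallyEq ?_ h5
    have h6 := (hasFDerivAt_inv_norm_pow j hx).smul (hA x)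
    have h7 := (((hΦ x).const_mul (j + 1 : ℝ)).mul
      (hasFDerivAt_inv_norm_pow (j + 2) hx)).smul (hasFDerivAt_id x)
    refine (h6.sub h7).congr_fderiv ?_
    ext y
    simp only [WW, sub_apply, add_apply, smul_apply, ContinuousLinearMap.smulRight_apply,
      innerSL_apply_apply, ContinuousLinearMap.id_apply, smul_eq_mul, Pi.mul_apply]
    push_cast
    simp only [id]
    module
  · exact hWc
  · intro x hx
    have hxn : 0 < ‖x‖ := norm_pos_iff.2 hx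
    rw [← hWhom _ (inv_pos.2 hxn) x hx]
    exact (hC3 _ (by simpa using hunit x hx)).trans hCC3
  · intro x
    by_cases hx : x = 0
    · simp [hx, hΦ0]
    have hxn : 0 < ‖x‖ := norm_pos_iff.2 hx
    have h5 := hC2 (‖x‖⁻¹ • x) (by simp [hunit x hx])
    have h6 := hFhom _ (inv_pos.2 hxn) x
    rw [hunit x hx, inv_one, one_pow, mul_one] at h6
    rw [h6, Real.norm_eq_abs, abs_mul, abs_of_pos (inv_pos.2 hxn),
      inv_mul_le_iff₀ hxn] at h5
    rw [mul_comm C]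
    refine h5.trans ?_
    refine mul_le_mul_of_nonneg_left ?_ hxn.le
    have : 0 ≤ (j + 1 : ℝ) * C2 := by positivity
    have := abs_nonneg C3
    linarith

end

end Pool.MP_f6b738_gt.IV
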