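import Pool.Agent.Work.MP_f6b738_gt.Steiner

set_option autoImplicit false
open MeasureTheory Pointwise Set Metric
open scoped RealInnerProductSpace

set_option linter.unusedSectionVars false

namespace Pool.MP_f6b738_gt.IV

section

variable {E : Type*} [NormedAddCommGroup E] [InnerProductSpace ℝ E] [FiniteDimensional ℝ E]
variable {E' : Type*} [NormedAddCommGroup E'] [InnerProductSpace ℝ E'] [FiniteDimensional ℝ E']

/-- a `C²` one-homogeneous function, with gradient `V` and `W` the derivative of `‖x‖ V x`. -/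
structure Piece (F : E → ℝ) (V : E → E) (W : E → E →L[ℝ] E) (C : ℝ) : Prop where
  hom : ∀ t : ℝ, 0 < t → ∀ x, F (t • x) = t * F x
  grad : ∀ x, x ≠ 0 → HasFDerivAt F (innerSL ℝ (V x)) x
  Vhom : ∀ t : ℝ, 0 < t → ∀ x, x ≠ 0 → V (t • x) = V x
  euler : ∀ x, x ≠ 0 → ⟪V x, x⟫ = F x
  tay : ∀ v, v ≠ 0 → ∀ x, |F x - ⟪V v, x⟫| ≤ C * (‖x‖ - ‖v‖⁻¹ * ⟪v, x⟫)
  psi : ∀ x, x ≠ 0 → HasFDerivAt (fun x => ‖x‖ • V x) (W x) x
  Wc : ContinuousOn W {x | x ≠ 0}
  Wb : ∀ x, x ≠ 0 → ‖W x‖ ≤ C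
  bd : ∀ x, |F x| ≤ C * ‖x‖

theorem defect_nonneg {v : E} (hv : v ≠ 0) (x : E) : 0 ≤ ‖x‖ - ‖v‖⁻¹ * ⟪v, x⟫ := by
  have h1 := real_inner_le_norm v x
  have hvn : 0 < ‖v‖ := norm_pos_iff.2 hv
  have h2 : ‖v‖⁻¹ * ⟪v, x⟫ ≤ ‖v‖⁻¹ * (‖v‖ * ‖x‖) :=
    mul_le_mul_of_nonneg_left h1 (by positivity)
  have h3 : ‖v‖⁻¹ * (‖v‖ * ‖x‖) = ‖x‖ := by field_simp
  linarith

theorem Piece.add {F F' : E → ℝ} {V V' : E → E} {W W' : E → E →L[ℝ] E} {C C' : ℝ}
    (P : Piece F V W C) (P' : Piece F' V' W' C') :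
    Piece (fun x => F x + F' x) (fun x => V x + V' x) (fun x => W x + W' x) (C + C') where
  hom t ht x := by simp only [P.hom t ht x, P'.hom t ht x]; ring
  grad x hx := by
    refine ((P.grad x hx).add (P'.grad x hx)).congr_fderiv ?_
    simp only [map_add]
  Vhom t ht x hx := by simp only [P.Vhom t ht x hx, P'.Vhom t ht x hx]
  euler x hx := by rw [inner_add_left, P.euler x hx, P'.euler x hx]
  tay v hv x := by
    have h1 := P.tay v hv x
    have h2 := P'.tay v hv x
    have h3 : F x + F' x - ⟪V v + V' v, x⟫ = (F x - ⟪V v, x⟫) + (F' x - ⟪V' v, x⟫) := by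
      rw [inner_add_left]; ring
    rw [h3, add_mul]
    exact (abs_add_le _ _).trans (add_le_add h1 h2)
  psi x hx := by
    have := (P.psi x hx).add (P'.psi x hx)
    have h1 : (fun x => ‖x‖ • (V x + V' x)) = (fun x => ‖x‖ • V x) + (fun x => ‖x‖ • V' x) := by
      funext y; simp [smul_add]
    rw [h1]; exact this
  Wc := P.Wc.add P'.Wc
  Wb x hx := (norm_add_le _ _).trans (add_le_add (P.Wb x hx) (P'.Wb x hx))
  bd x := by
    rw [add_mul]
    exact (abs_add_le _ _).trans (add_le_add (P.bd x) (P'.bd x))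

theorem Piece.smul {F : E → ℝ} {V : E → E} {W : E → E →L[ℝ] E} {C : ℝ}
    (P : Piece F V W C) (a : ℝ) :
    Piece (fun x => a * F x) (fun x => a • V x) (fun x => a • W x) (|a| * C) where
  hom t ht x := by simp only [P.hom t ht x]; ring
  grad x hx := by
    refine ((P.grad x hx).const_mul a).congr_fderiv ?_
    simp only [map_smul]
  Vhom t ht x hx := by simp only [P.Vhom t ht x hx]
  euler x hx := by rw [inner_smul_left, P.euler x hx]; rfl
  tay v hv x := by
    have h1 := P.tay v hv x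
    have h3 : a * F x - ⟪a • V v, x⟫ = a * (F x - ⟪V v, x⟫) := by
      rw [inner_smul_left]; simp only [conj_trivial]; ring
    rw [h3, abs_mul, mul_assoc]
    exact mul_le_mul_of_nonneg_left h1 (abs_nonneg a)
  psi x hx := by
    have := (P.psi x hx).const_smul a
    have h1 : (fun x => ‖x‖ • (a • V x)) = fun x => a • (‖x‖ • V x) := by
      funext y; rw [smul_comm]
    rw [h1]; exact this
  Wc := P.Wc.const_smul a
  Wb x hx := by
    rw [norm_smul, Real.norm_eq_abs]
    exact mul_le_mul_of_nonneg_left (P.Wb x hx) (abs_nonneg a)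
  bd x := by
    rw [abs_mul, mul_assoc]
    exact mul_le_mul_of_nonneg_left (P.bd x) (abs_nonneg a)

theorem Piece.comp {F : E → ℝ} {V : E → E} {W : E → E →L[ℝ] E} {C : ℝ}
    (P : Piece F V W C) (ι : E' →ₗᵢ[ℝ] E) :
    Piece (fun y => F (ι y)) (fun y => adj ι (V (ι y)))
      (fun y => (adj ι).comp ((W (ι y)).comp ι.toContinuousLinearMap)) C where
  hom t ht x := by simp only [map_smul]; exact P.hom t ht _
  grad x hx := by
    have hx' : ι x ≠ 0 := (map_ne_zero_iff ι ι.injective).2 hx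
    have h1 := (P.grad _ hx').comp x ι.toContinuousLinearMap.hasFDerivAt
    refine h1.congr_fderiv ?_
    ext y
    simp only [ContinuousLinearMap.comp_apply, innerSL_apply_apply, adj_inner]
    rfl
  Vhom t ht x hx := by
    have hx' : ι x ≠ 0 := (map_ne_zero_iff ι ι.injective).2 hx
    simp only [map_smul, P.Vhom t ht _ hx']
  euler x hx := by
    have hx' : ι x ≠ 0 := (map_ne_zero_iff ι ι.injective).2 hx
    rw [adj_inner, P.euler _ hx']
  tay v hv x := by
    have hv' : ι v ≠ 0 := (map_ne_zero_iff ι ι.injective).2 hv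
    have h1 := P.tay _ hv' (ι x)
    rwa [ι.norm_map, ι.norm_map, ι.inner_map_map, ← adj_inner] at h1
  psi x hx := by
    have hx' : ι x ≠ 0 := (map_ne_zero_iff ι ι.injective).2 hx
    have h1 := (P.psi _ hx').comp x ι.toContinuousLinearMap.hasFDerivAt
    have h2 := (adj ι).hasFDerivAt.comp x h1
    have h3 : (fun y => ‖y‖ • adj ι (V (ι y))) =
        (⇑(adj ι) ∘ (fun x => ‖x‖ • V x) ∘ ⇑ι.toContinuousLinearMap) := by
      funext y
      simp [Function.comp]
    rw [h3]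
    exact h2
  Wc := by
    have h1 : ContinuousOn (fun y => W (ι y)) {x | x ≠ 0} := by
      refine P.Wc.comp ι.continuous.continuousOn ?_
      intro x hx
      exact (map_ne_zero_iff ι ι.injective).2 hx
    have h2 : ContinuousOn (fun y => (W (ι y)).comp ι.toContinuousLinearMap) {x | x ≠ 0} :=
      h1.clm_comp continuousOn_const
    exact continuousOn_const.clm_comp h2
  Wb x hx := by
    have hx' : ι x ≠ 0 := (map_ne_zero_iff ι ι.injective).2 hx
    have h0 : ‖ι.toContinuousLinearMap‖ ≤ 1 := ι.norm_toContinuousLinearMap_le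
    have h1 : ‖adj ι‖ ≤ 1 := by
      rw [adj, LinearIsometryEquiv.norm_map]; exact h0
    have h2 := (adj ι).opNorm_comp_le ((W (ι x)).comp ι.toContinuousLinearMap)
    have h3 := (W (ι x)).opNorm_comp_le ι.toContinuousLinearMap
    have h4 := P.Wb _ hx'
    have h5 := norm_nonneg (W (ι x))
    have h6 := norm_nonneg (adj ι)
    have h7 := norm_nonneg ι.toContinuousLinearMap
    have h8 : ‖W (ι x)‖ * ‖ι.toContinuousLinearMap‖ ≤ ‖W (ι x)‖ := by nlinarith
    have h9 : ‖adj ι‖ * ‖(W (ι x)).comp ι.toContinuousLinearMap‖ ≤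
        ‖(W (ι x)).comp ι.toContinuousLinearMap‖ := by
      have := norm_nonneg ((W (ι x)).comp ι.toContinuousLinearMap)
      nlinarith
    linarith
  bd x := by
    have := P.bd (ι x)
    rwa [ι.norm_map] at this

/-- the support function `c ‖x‖ + F x`. -/
theorem Piece.supp {F : E → ℝ} {V : E → E} {W : E → E →L[ℝ] E} {C : ℝ}
    (P : Piece F V W C) {c : ℝ} (hc : C < c) (hc0 : 0 < c) :
    Supp (fun x => c * ‖x‖ + F x) (fun x => (c * ‖x‖⁻¹) • x + V x) := by
  have hnd : ∀ x : E, x ≠ 0 → HasFDerivAt (fun x : E => ‖x‖) (innerSL ℝ (‖x‖⁻¹ • x)) x := by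
    intro x hx
    have h2 := (hasStrictFDerivAt_norm_sq x).hasFDerivAt
    have hxn : 0 < ‖x‖ := norm_pos_iff.2 hx
    have h3 := h2.sqrt (by positivity : ‖x‖ ^ 2 ≠ 0)
    have h4 : (fun y : E => Real.sqrt (‖y‖ ^ 2)) = fun y => ‖y‖ := by
      funext y; exact Real.sqrt_sq (norm_nonneg y)
    rw [h4, Real.sqrt_sq (norm_nonneg x)] at h3
    convert h3 using 1
    ext y
    simp
    field_simp
  have hle : ∀ v, v ≠ 0 → ∀ x, (c - C) * (‖x‖ - ‖v‖⁻¹ * ⟪v, x⟫) ≤
      (c * ‖x‖ + F x) - ⟪(c * ‖v‖⁻¹) • v + V v, x⟫ := by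
    intro v hv x
    have h1 := (abs_le.1 (P.tay v hv x)).1
    rw [inner_add_left, inner_smul_left]
    simp only [conj_trivial]
    nlinarith
  refine ⟨?_, ?_, ?_, ?_, ?_, ?_, ?_⟩
  · intro t ht x
    simp only [P.hom t ht x, norm_smul, Real.norm_eq_abs, abs_of_pos ht]
    ring
  · intro x hx
    have hxn : 0 < ‖x‖ := norm_pos_iff.2 hx
    have h1 := (abs_le.1 (P.bd x)).1
    have h2 : C * ‖x‖ < c * ‖x‖ := mul_lt_mul_of_pos_right hc hxn
    linarith
  · intro x hx
    refine (((hnd x hx).const_mul c).add (P.grad x hx)).congr_fderiv ?_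
    simp only [map_add, mul_smul, map_smul]
  · intro t ht x hx
    rw [P.Vhom t ht x hx, smul_smul, norm_smul, Real.norm_eq_abs, abs_of_pos ht]
    congr 2
    field_simp
  · intro x hx
    have hxn : 0 < ‖x‖ := norm_pos_iff.2 hx
    rw [inner_add_left, P.euler x hx, inner_smul_left, real_inner_self_eq_norm_sq]
    simp only [conj_trivial]
    field_simp
  · intro v hv x
    have h1 := hle v hv x
    have h2 := defect_nonneg hv x
    have h3 : 0 ≤ (c - C) * (‖x‖ - ‖v‖⁻¹ * ⟪v, x⟫) := mul_nonneg (by linarith) h2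
    linarith
  · intro v hv x hx heq
    have h1 := hle v hv x
    rw [heq, sub_self] at h1
    have h2 := defect_nonneg hv x
    have hvn : 0 < ‖v‖ := norm_pos_iff.2 hv
    have h3 : ‖x‖ - ‖v‖⁻¹ * ⟪v, x⟫ = 0 := by
      have hpos : 0 < c - C := by linarith
      by_contra hne
      have : 0 < ‖x‖ - ‖v‖⁻¹ * ⟪v, x⟫ := lt_of_le_of_ne h2 (Ne.symm hne)
      have := mul_pos hpos this
      linarith
    have h4 : ⟪v, x⟫ = ‖v‖ * ‖x‖ := by
      have : ‖v‖ * (‖v‖⁻¹ * ⟪v, x⟫) = ⟪v, x⟫ := by field_simp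
      rw [← this]
      congr 1
      linarith
    have h5 := inner_eq_norm_mul_iff_real.1 h4
    exact h5

theorem Piece.psi_supp {F : E → ℝ} {V : E → E} {W : E → E →L[ℝ] E} {C : ℝ}
    (P : Piece F V W C) (c : ℝ) (x : E) (hx : x ≠ 0) :
    HasFDerivAt (Psi fun x => (c * ‖x‖⁻¹) • x + V x) (c • ContinuousLinearMap.id ℝ E + W x) x := by
  have h1 : (Psi fun x => (c * ‖x‖⁻¹) • x + V x) = fun x => c • x + ‖x‖ • V x := by
    funext y
    by_cases hy : y = 0
    · simp [hy, Psi]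
    · have : 0 < ‖y‖ := norm_pos_iff.2 hy
      rw [Psi, smul_add, smul_smul]
      congr 2
      field_simp
  rw [h1]
  exact ((hasFDerivAt_id x).const_smul c).add (P.psi x hx)

end

end Pool.MP_f6b738_gt.IV
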