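import Pool.Agent.Work.MP_f6b738_gt.Moments

set_option autoImplicit false
open MeasureTheory Pointwise Set Metric MvPolynomial
open scoped RealInnerProductSpace

namespace Pool.MP_f6b738_gt.IV

noncomputable def Pp : MvPolynomial (Fin 4) ℝ := X 0 * X 1 * X 2

noncomputable def RR : MvPolynomial (Fin 4) ℝ := X 0 ^ 2 + X 1 ^ 2 + X 2 ^ 2 + X 3 ^ 2

noncomputable def Pq : MvPolynomial (Fin 4) ℝ :=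
  C (-1) * (RR ^ 2 * (RR + X 3 ^ 2)) +
  C 20 * (RR * (X 0 ^ 2 * X 1 ^ 2 + X 0 ^ 2 * X 2 ^ 2 + X 1 ^ 2 * X 2 ^ 2)) +
  C 60 * (X 0 ^ 2 * X 1 ^ 2 * X 2 ^ 2)

theorem Pp_hom : Pp.IsHomogeneous 3 :=
  ((isHomogeneous_X ℝ (0 : Fin 4)).mul (isHomogeneous_X ℝ (1 : Fin 4))).mul (isHomogeneous_X ℝ (2 : Fin 4))

theorem RR_hom : RR.IsHomogeneous 2 := by
  have h : ∀ i : Fin 4, (X i ^ 2 : MvPolynomial (Fin 4) ℝ).IsHomogeneous 2 := fun i =>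
    by simpa using (isHomogeneous_X ℝ i).pow 2
  exact (((h 0).add (h 1)).add (h 2)).add (h 3)

theorem Pq_hom : Pq.IsHomogeneous 6 := by
  have h : ∀ i : Fin 4, (X i ^ 2 : MvPolynomial (Fin 4) ℝ).IsHomogeneous 2 := fun i =>
    by simpa using (isHomogeneous_X ℝ i).pow 2
  have hR2 : (RR ^ 2).IsHomogeneous 4 := by simpa using RR_hom.pow 2
  have h1 : (C (-1) * (RR ^ 2 * (RR + X 3 ^ 2)) : MvPolynomial (Fin 4) ℝ).IsHomogeneous 6 :=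
    (hR2.mul (RR_hom.add (h 3))).C_mul _
  have h2 : (C 20 * (RR * (X 0 ^ 2 * X 1 ^ 2 + X 0 ^ 2 * X 2 ^ 2 + X 1 ^ 2 * X 2 ^ 2)) :
      MvPolynomial (Fin 4) ℝ).IsHomogeneous 6 :=
    (RR_hom.mul ((((h 0).mul (h 1)).add ((h 0).mul (h 2))).add ((h 1).mul (h 2)))).C_mul _
  have h3 : (C 60 * (X 0 ^ 2 * X 1 ^ 2 * X 2 ^ 2) : MvPolynomial (Fin 4) ℝ).IsHomogeneous 6 :=
    (((h 0).mul (h 1)).mul (h 2)).C_mul _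
  exact (h1.add h2).add h3

theorem pd2 (i : Fin 4) : pderiv i (2 : MvPolynomial (Fin 4) ℝ) = 0 := by
  have : (2 : MvPolynomial (Fin 4) ℝ) = C 2 := (map_ofNat C 2).symm
  rw [this, pderiv_C]

theorem Hp (i j : Fin 4) (x : EuclideanSpace ℝ (Fin 4)) : ev (pderiv j (pderiv i Pp)) x =
    !![0, x 2, x 1, 0; x 2, 0, x 0, 0; x 1, x 0, 0, 0; 0, 0, 0, 0] i j := by
  fin_cases i <;> fin_cases j <;> simp [ev, Pp, pderiv_X]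

theorem Gp (i : Fin 4) (x : EuclideanSpace ℝ (Fin 4)) : ev (pderiv i Pp) x =
    ![x 1 * x 2, x 0 * x 2, x 0 * x 1, 0] i := by
  fin_cases i <;> simp [ev, Pp, pderiv_X] <;> ring

theorem Hq00 (x : EuclideanSpace ℝ (Fin 4)) : ev (pderiv 0 (pderiv 0 Pq)) x =
    -30 * x 0 ^ 4 + 204 * x 0 ^ 2 * x 1 ^ 2 + 204 * x 0 ^ 2 * x 2 ^ 2 - 48 * x 0 ^ 2 * x 3 ^ 2 + 34 * x 1 ^ 4 + 228 * x 1 ^ 2 * x 2 ^ 2 + 24 * x 1 ^ 2 * x 3 ^ 2 + 34 * x 2 ^ 4 + 24 * x 2 ^ 2 * x 3 ^ 2 - 10 * x 3 ^ 4 := by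
  simp [ev, Pq, RR, pderiv_X, pd2]
  ring

theorem Hq01 (x : EuclideanSpace ℝ (Fin 4)) : ev (pderiv 1 (pderiv 0 Pq)) x =
    136 * x 0 ^ 3 * x 1 + 136 * x 0 * x 1 ^ 3 + 456 * x 0 * x 1 * x 2 ^ 2 + 48 * x 0 * x 1 * x 3 ^ 2 := by
  simp [ev, Pq, RR, pderiv_X, pd2]
  ring

theorem Hq02 (x : EuclideanSpace ℝ (Fin 4)) : ev (pderiv 2 (pderiv 0 Pq)) x =
    136 * x 0 ^ 3 * x 2 + 456 * x 0 * x 1 ^ 2 * x 2 + 136 * x 0 * x 2 ^ 3 + 48 * x 0 * x 2 * x 3 ^ 2 := by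
  simp [ev, Pq, RR, pderiv_X, pd2]
  ring

theorem Hq03 (x : EuclideanSpace ℝ (Fin 4)) : ev (pderiv 3 (pderiv 0 Pq)) x =
    -32 * x 0 ^ 3 * x 3 + 48 * x 0 * x 1 ^ 2 * x 3 + 48 * x 0 * x 2 ^ 2 * x 3 - 40 * x 0 * x 3 ^ 3 := by
  simp [ev, Pq, RR, pderiv_X, pd2]
  ring

theorem Hq10 (x : EuclideanSpace ℝ (Fin 4)) : ev (pderiv 0 (pderiv 1 Pq)) x =
    136 * x 0 ^ 3 * x 1 + 136 * x 0 * x 1 ^ 3 + 456 * x 0 * x 1 * x 2 ^ 2 + 48 * x 0 * x 1 * x 3 ^ 2 := by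
  simp [ev, Pq, RR, pderiv_X, pd2]
  ring

theorem Hq11 (x : EuclideanSpace ℝ (Fin 4)) : ev (pderiv 1 (pderiv 1 Pq)) x =
    34 * x 0 ^ 4 + 204 * x 0 ^ 2 * x 1 ^ 2 + 228 * x 0 ^ 2 * x 2 ^ 2 + 24 * x 0 ^ 2 * x 3 ^ 2 - 30 * x 1 ^ 4 + 204 * x 1 ^ 2 * x 2 ^ 2 - 48 * x 1 ^ 2 * x 3 ^ 2 + 34 * x 2 ^ 4 + 24 * x 2 ^ 2 * x 3 ^ 2 - 10 * x 3 ^ 4 := by
  simp [ev, Pq, RR, pderiv_X, pd2]
  ring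

theorem Hq12 (x : EuclideanSpace ℝ (Fin 4)) : ev (pderiv 2 (pderiv 1 Pq)) x =
    456 * x 0 ^ 2 * x 1 * x 2 + 136 * x 1 ^ 3 * x 2 + 136 * x 1 * x 2 ^ 3 + 48 * x 1 * x 2 * x 3 ^ 2 := by
  simp [ev, Pq, RR, pderiv_X, pd2]
  ring

theorem Hq13 (x : EuclideanSpace ℝ (Fin 4)) : ev (pderiv 3 (pderiv 1 Pq)) x =
    48 * x 0 ^ 2 * x 1 * x 3 - 32 * x 1 ^ 3 * x 3 + 48 * x 1 * x 2 ^ 2 * x 3 - 40 * x 1 * x 3 ^ 3 := by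
  simp [ev, Pq, RR, pderiv_X, pd2]
  ring

theorem Hq20 (x : EuclideanSpace ℝ (Fin 4)) : ev (pderiv 0 (pderiv 2 Pq)) x =
    136 * x 0 ^ 3 * x 2 + 456 * x 0 * x 1 ^ 2 * x 2 + 136 * x 0 * x 2 ^ 3 + 48 * x 0 * x 2 * x 3 ^ 2 := by
  simp [ev, Pq, RR, pderiv_X, pd2]
  ring

theorem Hq21 (x : EuclideanSpace ℝ (Fin 4)) : ev (pderiv 1 (pderiv 2 Pq)) x =
    456 * x 0 ^ 2 * x 1 * x 2 + 136 * x 1 ^ 3 * x 2 + 136 * x 1 * x 2 ^ 3 + 48 * x 1 * x 2 * x 3 ^ 2 := by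
  simp [ev, Pq, RR, pderiv_X, pd2]
  ring

theorem Hq22 (x : EuclideanSpace ℝ (Fin 4)) : ev (pderiv 2 (pderiv 2 Pq)) x =
    34 * x 0 ^ 4 + 228 * x 0 ^ 2 * x 1 ^ 2 + 204 * x 0 ^ 2 * x 2 ^ 2 + 24 * x 0 ^ 2 * x 3 ^ 2 + 34 * x 1 ^ 4 + 204 * x 1 ^ 2 * x 2 ^ 2 + 24 * x 1 ^ 2 * x 3 ^ 2 - 30 * x 2 ^ 4 - 48 * x 2 ^ 2 * x 3 ^ 2 - 10 * x 3 ^ 4 := by
  simp [ev, Pq, RR, pderiv_X, pd2]
  ring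

theorem Hq23 (x : EuclideanSpace ℝ (Fin 4)) : ev (pderiv 3 (pderiv 2 Pq)) x =
    48 * x 0 ^ 2 * x 2 * x 3 + 48 * x 1 ^ 2 * x 2 * x 3 - 32 * x 2 ^ 3 * x 3 - 40 * x 2 * x 3 ^ 3 := by
  simp [ev, Pq, RR, pderiv_X, pd2]
  ring

theorem Hq30 (x : EuclideanSpace ℝ (Fin 4)) : ev (pderiv 0 (pderiv 3 Pq)) x =
    -32 * x 0 ^ 3 * x 3 + 48 * x 0 * x 1 ^ 2 * x 3 + 48 * x 0 * x 2 ^ 2 * x 3 - 40 * x 0 * x 3 ^ 3 := by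
  simp [ev, Pq, RR, pderiv_X, pd2]
  ring

theorem Hq31 (x : EuclideanSpace ℝ (Fin 4)) : ev (pderiv 1 (pderiv 3 Pq)) x =
    48 * x 0 ^ 2 * x 1 * x 3 - 32 * x 1 ^ 3 * x 3 + 48 * x 1 * x 2 ^ 2 * x 3 - 40 * x 1 * x 3 ^ 3 := by
  simp [ev, Pq, RR, pderiv_X, pd2]
  ring

theorem Hq32 (x : EuclideanSpace ℝ (Fin 4)) : ev (pderiv 2 (pderiv 3 Pq)) x =
    48 * x 0 ^ 2 * x 2 * x 3 + 48 * x 1 ^ 2 * x 2 * x 3 - 32 * x 2 ^ 3 * x 3 - 40 * x 2 * x 3 ^ 3 := by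
  simp [ev, Pq, RR, pderiv_X, pd2]
  ring

theorem Hq33 (x : EuclideanSpace ℝ (Fin 4)) : ev (pderiv 3 (pderiv 3 Pq)) x =
    -8 * x 0 ^ 4 + 24 * x 0 ^ 2 * x 1 ^ 2 + 24 * x 0 ^ 2 * x 2 ^ 2 - 60 * x 0 ^ 2 * x 3 ^ 2 - 8 * x 1 ^ 4 + 24 * x 1 ^ 2 * x 2 ^ 2 - 60 * x 1 ^ 2 * x 3 ^ 2 - 8 * x 2 ^ 4 - 60 * x 2 ^ 2 * x 3 ^ 2 - 60 * x 3 ^ 4 := by
  simp [ev, Pq, RR, pderiv_X, pd2]
  ring

end Pool.MP_f6b738_gt.IV
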