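import Pool.Agent.Work.MP_f6b738_gt.Fubini

set_option autoImplicit false
open MeasureTheory Pointwise Set Metric
open scoped RealInnerProductSpace

set_option linter.unusedSectionVars false

namespace Pool.MP_f6b738_gt.IV

section

variable {E : Type*} [NormedAddCommGroup E] [InnerProductSpace ℝ E] [FiniteDimensional ℝ E]
variable {E' : Type*} [NormedAddCommGroup E'] [InnerProductSpace ℝ E'] [FiniteDimensional ℝ E']
variable [MeasurableSpace E] [BorelSpace E] [MeasurableSpace E'] [BorelSpace E']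

theorem integrableOn_D {D : E' → E' →L[ℝ] E'} (hDc : ContinuousOn D {x | x ≠ 0}) {C : ℝ}
    (hDb : ∀ x, x ≠ 0 → ‖D x‖ ≤ C) {e : (E' →L[ℝ] E') → ℝ} (he : Continuous e)
    [Nontrivial E'] :
    IntegrableOn (fun x => e (D x)) (closedBall (0 : E') 1) := by
  have hfd : FiniteDimensional ℝ (E' →L[ℝ] E') := inferInstance
  have hcomp : IsCompact (closedBall (0 : E' →L[ℝ] E') C) := isCompact_closedBall _ _
  obtain ⟨B, hB⟩ := hcomp.exists_bound_of_continuousOn he.continuousOn
  have h1 : IntegrableOn (fun x => e (D x)) (closedBall (0 : E') 1 \ {0}) := by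
    have hms : MeasurableSet (closedBall (0 : E') 1 \ {0}) :=
      measurableSet_closedBall.diff (measurableSet_singleton _)
    refine IntegrableOn.of_bound ((measure_mono sdiff_subset).trans_lt measure_closedBall_lt_top)
      ?_ B ?_
    · have hcc : ContinuousOn (fun x => e (D x)) (closedBall (0 : E') 1 \ {0}) :=
        he.comp_continuousOn (hDc.mono fun x hx => hx.2)
      exact hcc.aestronglyMeasurable hms
    · refine (ae_restrict_iff' hms).2 (Filter.Eventually.of_forall fun x hx => ?_)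
      exact hB _ (by simpa using hDb x hx.2)
  refine h1.congr_set_ae ?_
  exact (sdiff_null_ae_eq_self (by simp)).symm

theorem Supp.vol_poly [Nontrivial E'] {h : E' → ℝ} {G : E' → E'} (H : Supp h G)
    {D : E' → E' →L[ℝ] E'}
    (hD : ∀ x, x ≠ 0 → HasFDerivAt (Psi G) (D x) x) (hDc : ContinuousOn D {x | x ≠ 0}) {C : ℝ}
    (hDb : ∀ x, x ≠ 0 → ‖D x‖ ≤ C)
    (hpos : ∀ x, x ≠ 0 → ∀ r : ℝ, 0 ≤ r → 0 ≤ (D x + r • ContinuousLinearMap.id ℝ E').det)
    (N : ℕ) (e : ℕ → (E' →L[ℝ] E') → ℝ) (hec : ∀ k, Continuous (e k))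
    (he : ∀ A : E' →L[ℝ] E', ∀ r : ℝ, (A + r • ContinuousLinearMap.id ℝ E').det =
      ∑ k ∈ Finset.range N, e k A * r ^ k) (r : ℝ) (hr : 0 ≤ r) :
    volume (Body h + closedBall 0 r) =
      ENNReal.ofReal (∑ k ∈ Finset.range N, (∫ x in closedBall (0 : E') 1, e k (D x)) * r ^ k) ∧
    0 ≤ ∑ k ∈ Finset.range N, (∫ x in closedBall (0 : E') 1, e k (D x)) * r ^ k := by
  have hint : ∀ k, IntegrableOn (fun x => e k (D x)) (closedBall (0 : E') 1) := fun k =>
    integrableOn_D hDc hDb (hec k)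
  have hsum : ∑ k ∈ Finset.range N, (∫ x in closedBall (0 : E') 1, e k (D x)) * r ^ k =
      ∫ x in closedBall (0 : E') 1, ∑ k ∈ Finset.range N, e k (D x) * r ^ k := by
    rw [integral_finsetSum]
    · refine Finset.sum_congr rfl fun k _ => ?_
      rw [integral_mul_const]
    · intro k _
      exact (hint k).mul_const _
  have hae : ∀ᵐ x ∂(volume.restrict (closedBall (0 : E') 1)), x ≠ 0 := by
    have h1 : ∀ᵐ x ∂(volume : Measure E'), x ≠ 0 := by
      have : volume ({0} : Set E') = 0 := by simp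
      rw [ae_iff]
      convert this using 2
      ext x; simp
    exact ae_restrict_of_ae h1
  have hnn : 0 ≤ᵐ[volume.restrict (closedBall (0 : E') 1)]
      fun x => ∑ k ∈ Finset.range N, e k (D x) * r ^ k := by
    filter_upwards [hae] with x hx
    rw [← he]
    exact hpos x hx r hr
  constructor
  · rw [H.body_add hr, (H.add_norm hr).vol (D := fun x => D x + r • ContinuousLinearMap.id ℝ E')]
    · rw [hsum, ofReal_integral_eq_lintegral_ofReal _ hnn]
      · refine lintegral_congr_ae ?_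
        filter_upwards [hae] with x hx
        rw [abs_of_nonneg (hpos x hx r hr), he]
      · refine integrable_finsetSum _ fun k _ => ?_
        exact (hint k).mul_const _
    · intro x hx
      have h1 : (Psi fun x => G x + (r * ‖x‖⁻¹) • x) = fun x => Psi G x + r • x := by
        funext y; exact Psi_add_norm G r y
      rw [h1]
      exact (hD x hx).add ((hasFDerivAt_id x).const_smul r)
  · rw [hsum]
    exact integral_nonneg_of_ae hnn

/-- Steiner formula for a lower dimensional set in a bigger space. -/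
theorem steiner (ι : E' →ₗᵢ[ℝ] E) {K : Set E'} (hK : IsCompact K)
    [Nontrivial (LinearMap.range ι.toLinearMap)ᗮ] (N : ℕ)
    (a : ℕ → ℝ) (ha : ∀ r : ℝ, 0 ≤ r → volume (K + closedBall (0 : E') r) =
      ENNReal.ofReal (∑ k ∈ Finset.range N, a k * r ^ k) ∧
      0 ≤ ∑ k ∈ Finset.range N, a k * r ^ k) {ε : ℝ} (hε : 0 ≤ ε) :
    (volume (ι '' K + closedBall (0 : E) ε)).toReal =
      ∑ k ∈ Finset.range N, a k * ck (LinearMap.range ι.toLinearMap)ᗮ k *
        ε ^ (k + Module.finrank ℝ (LinearMap.range ι.toLinearMap)ᗮ) := by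
  set F := (LinearMap.range ι.toLinearMap)ᗮ with hF
  rw [fubini ι hK hε]
  have h1 : ∀ b : F, volume (K + closedBall (0 : E') (Real.sqrt (ε ^ 2 - ‖b‖ ^ 2))) =
      ENNReal.ofReal (∑ k ∈ Finset.range N, a k * (Real.sqrt (ε ^ 2 - ‖b‖ ^ 2)) ^ k) :=
    fun b => (ha _ (Real.sqrt_nonneg _)).1
  simp_rw [h1]
  have hint : ∀ k, IntegrableOn (fun b : F => (Real.sqrt (ε ^ 2 - ‖b‖ ^ 2)) ^ k)
      (closedBall (0 : F) ε) := by
    intro k
    refine ContinuousOn.integrableOn_compact (isCompact_closedBall _ _) ?_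
    fun_prop
  rw [← ofReal_integral_eq_lintegral_ofReal]
  · rw [ENNReal.toReal_ofReal]
    · rw [integral_finsetSum]
      · refine Finset.sum_congr rfl fun k _ => ?_
        rw [integral_const_mul, ck_scale k hε]
        ring
      · intro k _
        exact (hint k).const_mul _
    · exact integral_nonneg fun b => (ha _ (Real.sqrt_nonneg _)).2
  · refine integrable_finsetSum _ fun k _ => ?_
    exact (hint k).const_mul _
  · exact Filter.Eventually.of_forall fun b => (ha _ (Real.sqrt_nonneg _)).2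

end

/-! ### determinants in dimensions 2 and 3 -/

/-- matrix entries -/
noncomputable def ent {n : ℕ} (A : EuclideanSpace ℝ (Fin n) →L[ℝ] EuclideanSpace ℝ (Fin n))
    (i j : Fin n) : ℝ := A (EuclideanSpace.single j 1) i

theorem ent_cont {n : ℕ} (i j : Fin n) :
    Continuous fun A : EuclideanSpace ℝ (Fin n) →L[ℝ] EuclideanSpace ℝ (Fin n) => ent A i j := by
  unfold ent
  fun_prop

theorem ent_add {n : ℕ} (A B : EuclideanSpace ℝ (Fin n) →L[ℝ] EuclideanSpace ℝ (Fin n))
    (i j : Fin n) : ent (A + B) i j = ent A i j + ent B i j := by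
  simp [ent]

theorem ent_smul {n : ℕ} (r : ℝ) (A : EuclideanSpace ℝ (Fin n) →L[ℝ] EuclideanSpace ℝ (Fin n))
    (i j : Fin n) : ent (r • A) i j = r * ent A i j := by
  simp [ent]

theorem ent_id {n : ℕ} (i j : Fin n) :
    ent (ContinuousLinearMap.id ℝ (EuclideanSpace ℝ (Fin n))) i j = if i = j then 1 else 0 := by
  simp [ent]

theorem det_ent {n : ℕ} (A : EuclideanSpace ℝ (Fin n) →L[ℝ] EuclideanSpace ℝ (Fin n)) :
    A.det = (Matrix.of fun i j => ent A i j).det := by
  rw [ContinuousLinearMap.det, ← LinearMap.det_toMatrix (EuclideanSpace.basisFun (Fin n) ℝ).toBasis]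
  congr 1

/-- coefficients of `det (A + r)` in dimension 3 -/
noncomputable def e3 (k : ℕ)
    (A : EuclideanSpace ℝ (Fin 3) →L[ℝ] EuclideanSpace ℝ (Fin 3)) : ℝ :=
  match k with
  | 0 => A.det
  | 1 => ent A 0 0 * ent A 1 1 - ent A 0 1 * ent A 1 0 + ent A 0 0 * ent A 2 2
      - ent A 0 2 * ent A 2 0 + ent A 1 1 * ent A 2 2 - ent A 1 2 * ent A 2 1
  | 2 => ent A 0 0 + ent A 1 1 + ent A 2 2
  | _ => 1

theorem e3_spec (A : EuclideanSpace ℝ (Fin 3) →L[ℝ] EuclideanSpace ℝ (Fin 3)) (r : ℝ) :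
    (A + r • ContinuousLinearMap.id ℝ _).det = ∑ k ∈ Finset.range 4, e3 k A * r ^ k := by
  simp only [Finset.sum_range_succ, Finset.sum_range_zero, e3]
  rw [det_ent, det_ent, Matrix.det_fin_three, Matrix.det_fin_three]
  simp only [Matrix.of_apply, ent_add, ent_smul, ent_id]
  simp
  ring

theorem e3_cont (k : ℕ) : Continuous (e3 k) := by
  unfold e3
  match k with
  | 0 =>
    simp only [det_ent, Matrix.det_fin_three, Matrix.of_apply]
    have := @ent_cont 3
    fun_prop
  | 1 =>
    have := @ent_cont 3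
    simp only
    fun_prop
  | 2 =>
    have := @ent_cont 3
    simp only
    fun_prop
  | _ + 3 => exact continuous_const

/-- coefficients of `det (A + r)` in dimension 2 -/
noncomputable def e2 (k : ℕ)
    (A : EuclideanSpace ℝ (Fin 2) →L[ℝ] EuclideanSpace ℝ (Fin 2)) : ℝ :=
  match k with
  | 0 => A.det
  | 1 => ent A 0 0 + ent A 1 1
  | _ => 1

theorem e2_spec (A : EuclideanSpace ℝ (Fin 2) →L[ℝ] EuclideanSpace ℝ (Fin 2)) (r : ℝ) :
    (A + r • ContinuousLinearMap.id ℝ _).det = ∑ k ∈ Finset.range 3, e2 k A * r ^ k := by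
  simp only [Finset.sum_range_succ, Finset.sum_range_zero, e2]
  rw [det_ent, det_ent, Matrix.det_fin_two, Matrix.det_fin_two]
  simp only [Matrix.of_apply, ent_add, ent_smul, ent_id]
  simp
  ring

theorem e2_cont (k : ℕ) : Continuous (e2 k) := by
  unfold e2
  match k with
  | 0 =>
    simp only [det_ent, Matrix.det_fin_two, Matrix.of_apply]
    have := @ent_cont 2
    fun_prop
  | 1 =>
    have := @ent_cont 2
    simp only
    fun_prop
  | _ + 2 => exact continuous_const

/-- `det (c + A) > 0` if `‖A‖ < c`. -/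
theorem det_pos_of_norm_lt {F : Type*} [NormedAddCommGroup F] [InnerProductSpace ℝ F]
    [FiniteDimensional ℝ F] (A : F →L[ℝ] F) {c : ℝ} (hA : ‖A‖ < c) :
    0 < (c • ContinuousLinearMap.id ℝ F + A).det := by
  have hc : 0 < c := (norm_nonneg A).trans_lt hA
  let f : ℝ → ℝ := fun t => (c • ContinuousLinearMap.id ℝ F + t • A).det
  have hf : Continuous f := by
    have h1 : Continuous (fun t : ℝ => (c • ContinuousLinearMap.id ℝ F + t • A)) := by fun_prop
    exact ContinuousLinearMap.continuous_det.comp h1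
  have hne : ∀ t ∈ Icc (0 : ℝ) 1, f t ≠ 0 := by
    intro t ht h0
    have h1 : ¬ Function.Injective (c • ContinuousLinearMap.id ℝ F + t • A) := by
      intro hinj
      have h2 : LinearMap.ker ((c • ContinuousLinearMap.id ℝ F + t • A : F →L[ℝ] F) :
          F →ₗ[ℝ] F) = ⊥ := LinearMap.ker_eq_bot.2 hinj
      have h3 : IsUnit ((c • ContinuousLinearMap.id ℝ F + t • A : F →L[ℝ] F) :
          F →ₗ[ℝ] F) := (LinearMap.isUnit_iff_ker_eq_bot _).2 h2
      have h4 := LinearMap.isUnit_iff_isUnit_det _ |>.1 h3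
      exact h4.ne_zero h0
    apply h1
    rw [injective_iff_map_eq_zero]
    intro v hv
    by_contra hv0
    have hvn : 0 < ‖v‖ := norm_pos_iff.2 hv0
    have h2 : c • v = -(t • A v) := by
      have : c • v + t • A v = 0 := hv
      exact eq_neg_of_add_eq_zero_left this
    have h3 : ‖c • v‖ = ‖t • A v‖ := by rw [h2, norm_neg]
    rw [norm_smul, norm_smul, Real.norm_eq_abs, Real.norm_eq_abs, abs_of_pos hc,
      abs_of_nonneg ht.1] at h3
    have h4 := A.le_opNorm v
    have h5 : t * ‖A v‖ ≤ ‖A v‖ := by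
      have := norm_nonneg (A v)
      nlinarith [ht.2]
    have h6 : ‖A‖ * ‖v‖ < c * ‖v‖ := mul_lt_mul_of_pos_right hA hvn
    linarith
  have h0 : 0 < f 0 := by
    simp only [f, zero_smul, add_zero]
    rw [ContinuousLinearMap.det]
    have : ((c • ContinuousLinearMap.id ℝ F : F →L[ℝ] F) : F →ₗ[ℝ] F) =
      c • LinearMap.id := rfl
    rw [this, LinearMap.det_smul, LinearMap.det_id, mul_one]
    positivity
  have h1 : 0 < f 1 := by
    by_contra hcon
    push Not at hcon
    have h2 : (0 : ℝ) ∈ f '' Icc 0 1 := by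
      have h3 := intermediate_value_Icc' (zero_le_one) hf.continuousOn
      exact h3 ⟨hcon, h0.le⟩
    obtain ⟨t, ht, h3⟩ := h2
    exact hne t ht h3
  simpa [f] using h1

end Pool.MP_f6b738_gt.IV
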